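import Pool.Agent.Lib.BD5.Zc

set_option autoImplicit false

open Set Topology Filter Function Complex Metric

namespace Pool.Agent.Lib.BD5

open Pool.Agent.Lib.MP_1126ca_gt

/-- An arc in `K` from the origin to `t`. -/
structure Arc0 (K : Set ℂ) (t : ℂ) (ℓ : ℝ) (α : ℝ → ℂ) : Prop where
  pos : 0 ≤ ℓ
  cont : Continuous α
  inj : InjOn α (Icc 0 ℓ)
  zero : α 0 = 0
  top : α ℓ = t
  sub : α '' Icc 0 ℓ ⊆ K

variable {K : Set ℂ}

theorem NS.arc (hK : NS K) {t : ℂ} (ht : t ∈ K) : ∃ ℓ α, Arc0 K t ℓ α := by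
  by_cases h : t = 0
  · refine ⟨0, fun _ => 0, le_rfl, continuous_const, by simp, rfl, h.symm, ?_⟩
    rintro _ ⟨s, -, rfl⟩
    exact hK.zero
  · obtain ⟨α, h1, h2⟩ := exists_arc (hK.path.joinedIn 0 hK.zero t ht) (Ne.symm h)
    exact ⟨1, α, zero_le_one, h1.cont, h1.inj, h1.zero, h1.one, h2⟩

theorem Arc0.tame {t : ℂ} {ℓ : ℝ} {α : ℝ → ℂ} (h : Arc0 K t ℓ α) : Tame (α '' Icc 0 ℓ) :=
  tame_arc h.cont h.pos h.inj

theorem Arc0.mem0 {t : ℂ} {ℓ : ℝ} {α : ℝ → ℂ} (h : Arc0 K t ℓ α) : (0 : ℂ) ∈ α '' Icc 0 ℓ :=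
  ⟨0, left_mem_Icc.2 h.pos, h.zero⟩

theorem Arc0.mem1 {t : ℂ} {ℓ : ℝ} {α : ℝ → ℂ} (h : Arc0 K t ℓ α) : t ∈ α '' Icc 0 ℓ :=
  ⟨ℓ, right_mem_Icc.2 h.pos, h.top⟩

theorem arc_local {α : ℝ → ℂ} (hα : Continuous α) {a b : ℝ} (hi : InjOn α (Icc a b)) {x : ℂ}
    {W : Set ℂ} (hW : W ∈ 𝓝 x) : ∀ᶠ u in 𝓝 x, u ∈ α '' Icc a b →
      ∃ J, J ⊆ α '' Icc a b ∩ W ∧ IsPreconnected J ∧ x ∈ J ∧ u ∈ J := by
  by_cases hx : x ∈ α '' Icc a b
  swap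
  · filter_upwards [(isCompact_Icc.image hα).isClosed.isOpen_compl.mem_nhds hx] with u h1 h2
    exact absurd h2 h1
  obtain ⟨s, hs, rfl⟩ := hx
  obtain ⟨η, hη, h⟩ := Metric.mem_nhds_iff.1 (hα.continuousAt hW)
  have h1 : α s ∉ α '' (Icc a b \ ball s η) := by
    rintro ⟨u, hu, e⟩
    exact hu.2 (hi hu.1 hs e ▸ mem_ball_self hη)
  filter_upwards [((isCompact_Icc.diff isOpen_ball).image hα).isClosed.isOpen_compl.mem_nhds h1]
    with u h2 h3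
  obtain ⟨v, hv, rfl⟩ := h3
  refine ⟨α '' (Icc a b ∩ ball s η), ?_, ((convex_Icc a b).inter
    (convex_ball s η)).isPreconnected.image _ hα.continuousOn, ⟨s, ⟨hs, mem_ball_self hη⟩, rfl⟩,
    ⟨v, ⟨hv, by_contra fun e => h2 ⟨v, ⟨hv, e⟩, rfl⟩⟩, rfl⟩⟩
  rintro _ ⟨r, hr, rfl⟩
  exact ⟨⟨r, hr.1, rfl⟩, h hr.2⟩

theorem arc_inner {α : ℝ → ℂ} (hα : Continuous α) {a b : ℝ} (hi : InjOn α (Icc a b)) {C : Set ℂ}
    (hC : IsPreconnected C) (hnt : C.Nontrivial) (hs : C ⊆ α '' Icc a b) :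
    ∃ x ∈ C, ∀ᶠ u in 𝓝 x, u ∈ α '' Icc a b → u ∈ C := by
  have key : ∀ s₁ ∈ Icc a b, ∀ s₂ ∈ Icc a b, s₁ < s₂ → α s₁ ∈ C → α s₂ ∈ C →
      ∃ x ∈ C, ∀ᶠ u in 𝓝 x, u ∈ α '' Icc a b → u ∈ C := by
    intro s₁ h1 s₂ h2 h12 c1 c2
    have h3 : ∀ s ∈ Icc s₁ s₂, α s ∈ C := by
      intro s hs'
      obtain ⟨z, hz, ⟨u, hu, e1⟩, ⟨v, hv, e2⟩⟩ := isPreconnected_closed_iff.1 hC (α '' Icc a s)
        (α '' Icc s b) (isCompact_Icc.image hα).isClosed (isCompact_Icc.image hα).isClosed (by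
          rw [← image_union, Icc_union_Icc_eq_Icc (h1.1.trans hs'.1) (hs'.2.trans h2.2)]
          exact hs) ⟨_, c1, s₁, ⟨h1.1, hs'.1⟩, rfl⟩ ⟨_, c2, s₂, ⟨hs'.2, h2.2⟩, rfl⟩
      have := hi ⟨hu.1, hu.2.trans (hs'.2.trans h2.2)⟩ ⟨(h1.1.trans hs'.1).trans hv.1, hv.2⟩
        (e1.trans e2.symm)
      rw [show s = u from le_antisymm (this ▸ hv.1) hu.2, e1]
      exact hz
    have h4 : (s₁ + s₂) / 2 ∈ Ioo s₁ s₂ := ⟨by linarith, by linarith⟩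
    have h5 : α ((s₁ + s₂) / 2) ∉ α '' (Icc a b \ Ioo s₁ s₂) := by
      rintro ⟨u, hu, e⟩
      exact hu.2 (hi hu.1 ⟨h1.1.trans h4.1.le, h4.2.le.trans h2.2⟩ e ▸ h4)
    refine ⟨_, h3 _ (Ioo_subset_Icc_self h4), ?_⟩
    filter_upwards [((isCompact_Icc.diff isOpen_Ioo).image hα).isClosed.isOpen_compl.mem_nhds h5]
      with u h6 h7
    obtain ⟨v, hv, rfl⟩ := h7
    exact h3 v (Ioo_subset_Icc_self (by_contra fun e => h6 ⟨v, ⟨hv, e⟩, rfl⟩))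
  obtain ⟨p, hp, q, hq, hpq⟩ := hnt
  obtain ⟨s₁, h1, rfl⟩ := hs hp
  obtain ⟨s₂, h2, rfl⟩ := hs hq
  rcases lt_trichotomy s₁ s₂ with h | h | h
  · exact key s₁ h1 s₂ h2 h hp hq
  · exact absurd (congrArg α h) hpq
  · exact key s₂ h2 s₁ h1 h hq hp

theorem NS.F_eq (hK : NS K) {S : Set ℂ} (hS : IsPreconnected S) (hSK : S ⊆ K) (h0 : (0 : ℂ) ∈ S)
    {w : ℂ} (hw : w ∉ K) {t : ℂ} (ht : t ∈ S) : F S w t = F K w t :=
  F_mono hS h0 (fun e => hw (hSK e)) hSK (hK.tame.root w hw) t ht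

theorem NS.fl_F (hK : NS K) (ν : Z K) {S : Set ℂ} (hS : IsPreconnected S) (hSK : S ⊆ K)
    (h0 : (0 : ℂ) ∈ S) {t : ℂ} (ht : t ∈ S) :
    Tendsto (fun w => F S w t) (fl ν) (𝓝 (sg ν t)) := by
  refine (fl_sg ν (hSK ht)).congr' ?_
  filter_upwards [fl_V ν] with w hw
  exact (hK.F_eq hS hSK h0 (fun e => hw (Or.inl e)) ht).symm

theorem NS.sg_eq (hK : NS K) (ν : Z K) {S : Set ℂ} (hS : Tame S) (hSK : S ⊆ K)
    (h0 : (0 : ℂ) ∈ S) {t : ℂ} (ht : t ∈ S) (hy : pj ν ∉ S) : sg ν t = F S (pj ν) t :=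
  tendsto_nhds_unique (hK.fl_F ν hS.conn hSK h0 ht) ((hS.F_cont h0 hy (hK.not_ray (pj_mem ν)
    fun e => hy (e ▸ h0)) ht).tendsto.comp (fl_le ν))

theorem NS.dir (hK : NS K) (ν : Z K) {J C : Set ℂ} (hJ : IsPreconnected J) (hJK : J ⊆ K)
    (hJC : J ⊆ C) (hC : Convex ℝ C) (hc : IsClosed C) (hx : pj ν ∉ C) {p q : ℂ} (hp : p ∈ J)
    (hq : q ∈ J) : sg ν p = sg ν q * rt p q (pj ν) := by
  refine tendsto_nhds_unique (fl_sg ν (hJK hp)) (((fl_sg ν (hJK hq)).mul (tendsto_rt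
    tendsto_const_nhds tendsto_const_nhds (fl_le ν)
      fun e => hx (hC.segment_subset (hJC hp) (hJC hq) e))).congr' ?_)
  filter_upwards [fl_V ν, fl_le ν (hc.isOpen_compl.mem_nhds hx)] with w h1 h2
  have h3 : q ≠ w := fun e => h2 (e ▸ hJC hq)
  have h4 := (hK.FK h1).mono hJK
  exact (h4.eq hJ (fun e => h2 (hJC e)) (g := fun u => F K w q * rt u q w)
    ⟨(continuousOn_const.mul (rt_cont hC (hJC hq) h2)).mono hJC,
      fun u _ => mul_rt_sq h3 (h4.2 q hq)⟩ hq (by simp only [rt_self h3, mul_one]) p hp).symm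

theorem NS.fibre (hK : NS K) {M : Set (Z K)} (hM : IsPreconnected M)
    (h : (pj '' M).Subsingleton) : M.Subsingleton := by
  intro ν hν μ hμ
  have e : ∀ κ ∈ M, pj κ = pj μ := fun κ hκ => h ⟨κ, hκ, rfl⟩ ⟨μ, hμ, rfl⟩
  refine Z_ext (e ν hν) fun t ht => ?_
  by_cases h0 : sg μ t = 0
  · have := hK.sg_sq ν ht
    rw [e ν hν, ← hK.sg_sq μ ht, h0] at this
    rw [h0]
    simpa using this
  · exact sq_conn hM (sg_cont t).continuousOn continuousOn_const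
      (fun κ hκ => by rw [hK.sg_sq κ ht, hK.sg_sq μ ht, e κ hκ]) (fun _ _ => h0) hμ rfl ν hν

/-- Boundary bumping. -/
theorem bump {X : Type} [TopologicalSpace X] [T2Space X] [CompactSpace X] {N U : Set X}
    (hN : IsCompact N) (hp : IsPreconnected N) (hnt : N.Nontrivial) (hU : IsOpen U)
    (hne : (N ∩ U).Nonempty) : ∃ C, C ⊆ N ∩ U ∧ IsPreconnected C ∧ C.Nontrivial := by
  obtain ⟨ν, hν⟩ := hne
  obtain ⟨μ, hμ, hμν⟩ := hnt.exists_ne ν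
  obtain ⟨W, h1, h2, h3⟩ := exists_mem_nhds_isClosed_subset
    (inter_mem (hU.mem_nhds hν.2) (isOpen_ne.mem_nhds hμν.symm))
  have hνW : ν ∈ N ∩ W := ⟨hν.1, mem_of_mem_nhds h1⟩
  refine ⟨connectedComponentIn (N ∩ W) ν, fun κ hκ => ?_, isPreconnected_connectedComponentIn, ?_⟩
  · have := connectedComponentIn_subset _ _ hκ
    exact ⟨this.1, (h3 this.2).1⟩
  by_contra h4
  rw [not_nontrivial_iff] at h4
  obtain ⟨P, Q, hP, hQ, hPQ, hd, hνP, hG⟩ := exists_split (G := (interior W)ᶜ) (hN.inter_right h2)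
    hνW isOpen_interior.isClosed_compl (by
      rw [Set.disjoint_left]
      intro κ hκ hκ'
      rw [h4 hκ (mem_connectedComponentIn hνW)] at hκ'
      exact hκ' (mem_interior_iff_mem_nhds.2 h1))
  rcases isPreconnected_iff_subset_of_disjoint_closed.1 hp P (Q ∪ (interior W)ᶜ) hP.isClosed
    (hQ.isClosed.union isOpen_interior.isClosed_compl) (by
      intro κ hκ
      by_cases h : κ ∈ interior W
      · have : κ ∈ P ∪ Q := hPQ ▸ ⟨hκ, interior_subset h⟩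
        exact this.imp id Or.inl
      · exact Or.inr (Or.inr h)) (by
      rw [eq_empty_iff_forall_notMem]
      rintro κ ⟨-, a1, a2 | a2⟩
      · exact Set.disjoint_left.1 hd a1 a2
      · exact Set.disjoint_left.1 hG a1 a2) with h | h
  · have : μ ∈ N ∩ W := hPQ ▸ Or.inl (h hμ)
    exact (h3 this.2).2 rfl
  · rcases h hν.1 with a | a
    · exact Set.disjoint_left.1 hd hνP a
    · exact Set.disjoint_left.1 hG hνP a

variable {N U : Set (Z K)}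

theorem NS.sub (hK : NS K) (hN : IsCompact N) (hp : IsPreconnected N) (hnt : N.Nontrivial)
    (hU : IsOpen U) (hne : (N ∩ U).Nonempty) :
    ∃ C, C ⊆ N ∩ U ∧ IsPreconnected (pj '' C) ∧ (pj '' C).Nontrivial := by
  have := hK.compactZ
  obtain ⟨C, h1, h2, h3⟩ := bump hN hp hnt hU hne
  exact ⟨C, h1, h2.image _ pj_cont.continuousOn, by_contra fun e =>
    h3.not_subsingleton (hK.fibre h2 (not_nontrivial_iff.1 e))⟩

theorem NS.small (hK : NS K) (hN : IsCompact N) (hp : IsPreconnected N) (hnt : N.Nontrivial)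
    (hU : IsOpen U) (hne : (N ∩ U).Nonempty) {S : Set ℂ} (hS : S.Finite) :
    ∃ ν ∈ N ∩ U, pj ν ∉ S := by
  obtain ⟨C, h1, h2, h3⟩ := hK.sub hN hp hnt hU hne
  by_contra hcon
  push Not at hcon
  refine h3.not_subsingleton (hS.countable.isTotallyDisconnected _ ?_ h2)
  rintro _ ⟨κ, hκ, rfl⟩
  exact hcon κ (h1 hκ)

theorem NS.gen (hK : NS K) (hN : IsCompact N) (hp : IsPreconnected N) (hnt : N.Nontrivial)
    {ℓ : ℂ → ℝ} {α : ℂ → ℝ → ℂ} (T : Set ℂ) (hT : T.Finite) :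
    (∀ t ∈ T, Arc0 K t (ℓ t) (α t)) → ∀ U : Set (Z K), IsOpen U → (N ∩ U).Nonempty →
      ∃ U', IsOpen U' ∧ (N ∩ U').Nonempty ∧ U' ⊆ U ∧ ∀ ν ∈ U', ∀ t ∈ T,
        ∀ᶠ u in 𝓝 (pj ν), u ∈ α t '' Icc 0 (ℓ t) → u ∈ pj '' N := by
  induction T, hT using Set.Finite.induction_on with
  | empty => exact fun _ U h1 h2 => ⟨U, h1, h2, Subset.rfl, by simp⟩
  | @insert t T _ _ ih =>
    intro hA U h1 h2
    obtain ⟨U', a1, a2, a3, a4⟩ := ih (fun s hs => hA s (Or.inr hs)) U h1 h2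
    have ht := hA t (Or.inl rfl)
    refine ⟨U' ∩ pj ⁻¹' {x | ∀ᶠ u in 𝓝 x, u ∈ α t '' Icc 0 (ℓ t) → u ∈ pj '' N},
      a1.inter (isOpen_setOfPred_eventually_nhds.preimage pj_cont), ?_, inter_subset_left.trans a3, ?_⟩
    · obtain ⟨C, b1, b2, b3⟩ := hK.sub hN hp hnt a1 a2
      by_cases h : pj '' C ⊆ α t '' Icc 0 (ℓ t)
      · obtain ⟨_, ⟨ν, hν, rfl⟩, b4⟩ := arc_inner ht.cont ht.inj b2 b3 h
        exact ⟨ν, (b1 hν).1, (b1 hν).2, b4.mono fun u hu e =>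
          image_mono (b1.trans inter_subset_left) (hu e)⟩
      · obtain ⟨_, ⟨ν, hν, rfl⟩, b4⟩ := not_subset.1 h
        refine ⟨ν, (b1 hν).1, (b1 hν).2, ?_⟩
        filter_upwards [ht.tame.cpt.isClosed.isOpen_compl.mem_nhds b4] with u hu e
        exact absurd e hu
    · rintro ν hν s (rfl | hs)
      · exact hν.2
      · exact a4 ν hν.1 s hs

theorem basic (hU : IsOpen U) {ν : Z K} (hν : ν ∈ U) : ∃ (T W : Set ℂ) (V : ℂ → Set ℂ),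
    T.Finite ∧ T ⊆ K ∧ IsOpen W ∧ (∀ t, IsOpen (V t)) ∧ pj ν ∈ W ∧ (∀ t ∈ T, sg ν t ∈ V t) ∧
      ∀ μ : Z K, pj μ ∈ W → (∀ t ∈ T, sg μ t ∈ V t) → μ ∈ U := by
  have h := hU.mem_nhds hν
  rw [nhds_subtype, mem_comap] at h
  obtain ⟨O, h1, h2⟩ := h
  obtain ⟨W, a1, P, a2, a3⟩ := mem_nhds_prod_iff.1 (show O ∈ 𝓝 (ν.1.1, ν.1.2) from h1)
  rw [nhds_pi, Filter.mem_pi] at a2
  obtain ⟨T, b1, V, b2, b3⟩ := a2
  refine ⟨T ∩ K, interior W, fun t => interior (V t), b1.inter_of_left K, inter_subset_right,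
    isOpen_interior, fun _ => isOpen_interior, mem_interior_iff_mem_nhds.2 a1,
    fun t _ => mem_interior_iff_mem_nhds.2 (b2 t), fun μ c1 c2 => h2 (a3 ⟨interior_subset c1,
      b3 fun t ht => ?_⟩)⟩
  by_cases e : t ∈ K
  · exact interior_subset (c2 t ⟨ht, e⟩)
  · rw [show μ.1.2 t = ν.1.2 t from (sg_out μ e).trans (sg_out ν e).symm]
    exact mem_of_mem_nhds (b2 t)

end Pool.Agent.Lib.BD5
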