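import Pool.Agent.Lib.BD5.Triple

set_option autoImplicit false

open Set Topology Filter Function Complex Metric

namespace Pool.Agent.Lib.BD5

open Pool.Agent.Lib.MP_1126ca_gt

/-- `S` is a continuous image of a chainable continuum. -/
def WCh (S : Set ℂ) : Prop :=
  ∃ (Y : Type) (_ : MetricSpace Y), CompactSpace Y ∧ ConnectedSpace Y ∧
    (∀ ε : ℝ, 0 < ε → ∃ g : Y → ℝ, Continuous g ∧ ∀ y y' : Y, g y = g y' → dist y y' < ε) ∧
    ∃ f : Y → ℂ, Continuous f ∧ range f = S

theorem WCh.image {S : Set ℂ} (h : WCh S) {φ : ℂ → ℂ} (hφ : ContinuousOn φ S) : WCh (φ '' S) := by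
  obtain ⟨Y, _, h1, h2, h3, f, h4, rfl⟩ := h
  exact ⟨Y, _, h1, h2, h3, φ ∘ f, hφ.comp_continuous h4 mem_range_self, range_comp φ f⟩

theorem wch_frontier {K : Set ℂ} (hK : IsCompact K) (hp : IsPathConnected K)
    (hc : IsPreconnected Kᶜ) : WCh (frontier K) := by
  obtain ⟨c, hc'⟩ : ∃ c, c ∉ K := by
    by_contra h
    push Not at h
    exact noncompact_univ ℂ (eq_univ_iff_forall.2 h ▸ hK)
  obtain ⟨p, hpK, hmax⟩ := hK.exists_isMaxOn hp.nonempty
    (f := fun z => ‖z - c‖) (by fun_prop)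
  have h0 : p - c ≠ 0 := sub_ne_zero.2 fun e => hc' (e ▸ hpK)
  let φ : ℂ ≃ₜ ℂ := (Homeomorph.mulLeft₀ (p - c) h0).trans (Homeomorph.addLeft p)
  have hφ : ∀ z, φ z = p + (p - c) * z := fun z => rfl
  have hN : NS (φ ⁻¹' K) := by
    refine ⟨φ.isCompact_preimage.2 hK, φ.isPathConnected_preimage.2 hp, by simpa [hφ] using hpK,
      fun z hz => ?_, φ.isPreconnected_preimage.2 hc⟩
    have h1 : ‖φ z - c‖ ≤ ‖p - c‖ := hmax hz
    rw [hφ, show p + (p - c) * z - c = (p - c) * (z - -1) by ring, norm_mul] at h1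
    exact mem_closedBall_iff_norm.2 (le_of_mul_le_mul_left (by simpa using h1) (norm_pos_iff.2 h0))
  have := hN.compactZ
  have := hN.connZ
  have key := exists_chainable (X := Z (φ ⁻¹' K)) (π := φ ∘ pj) (φ.continuous.comp pj_cont)
    fun D hD ε hε => hN.good hD hε
  rwa [range_comp, hN.range_pj, ← φ.preimage_frontier, image_preimage_eq _ φ.surjective] at key

theorem seg_out {Ω X : Set ℂ} (hΩ : IsOpen Ω) (hX : IsClosed X) (hne : X.Nonempty)
    (hf : frontier Ω ⊆ X) (hXΩ : X ⊆ Ωᶜ) {k : ℂ} (hk : k ∉ Ω) :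
    ∃ x ∈ X, segment ℝ k x ⊆ Ωᶜ := by
  obtain ⟨x, hx, hd⟩ := hX.exists_infDist_eq_dist hne k
  refine ⟨x, hx, fun p hp => ?_⟩
  by_cases hkx : k = x
  · rw [hkx, segment_same] at hp
    exact hp ▸ hXΩ hx
  by_cases hpx : p = x
  · exact hpx ▸ hXΩ hx
  intro hpΩ
  refine hk ((conn_seg_diff hkx).subset_of_closure_inter_subset hΩ ⟨p, ⟨hp, hpx⟩, hpΩ⟩ ?_
    ⟨left_mem_segment ℝ _ _, hkx⟩)
  rintro q ⟨h1, h2, h3⟩
  by_contra h4
  have h5 := infDist_le_dist_of_mem (x := k) (hf ⟨h1, hΩ.interior_eq.symm ▸ h4⟩)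
  have h6 := dist_add_dist_of_mem_segment h2
  exact h3 (dist_le_zero.1 (by linarith))

theorem wch_open {Ω X : Set ℂ} (hΩ : IsOpen Ω) (hc : IsPreconnected Ω) (hK : IsCompact Ωᶜ)
    (hX : IsCompact X) (hp : IsPathConnected X) (hf : frontier Ω ⊆ X) (hXΩ : X ⊆ Ωᶜ) :
    WCh (frontier Ω) := by
  rw [← frontier_compl]
  refine wch_frontier hK ?_ (by rwa [compl_compl])
  obtain ⟨a, ha, h⟩ := id hp
  refine ⟨a, hXΩ ha, fun k hk => ?_⟩
  obtain ⟨x, h1, h2⟩ := seg_out hΩ hX.isClosed hp.nonempty hf hXΩ hk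
  exact ((h h1).mono hXΩ).trans (JoinedIn.of_segment_subset h2).symm

theorem frontier_comp {X : Set ℂ} (hX : IsClosed X) (u : ℂ) :
    frontier (connectedComponentIn Xᶜ u) ⊆ X := by
  intro z hz
  by_contra h
  have h1 := hX.isOpen_compl.connectedComponentIn (x := z)
  obtain ⟨v, a1, a2⟩ := mem_closure_iff.1 hz.1 _ h1 (mem_connectedComponentIn h)
  refine hz.2 ?_
  rw [(hX.isOpen_compl.connectedComponentIn (x := u)).interior_eq, connectedComponentIn_eq a2,
    ← connectedComponentIn_eq a1]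
  exact mem_connectedComponentIn h

theorem conn_far (R : ℝ) : IsPreconnected {z : ℂ | R < ‖z‖} := by
  rcases lt_or_ge R 0 with h | h
  · rw [show {z : ℂ | R < ‖z‖} = univ from eq_univ_iff_forall.2 fun z => h.trans_le (norm_nonneg z)]
    exact isPreconnected_univ
  have : {z : ℂ | R < ‖z‖} = (fun p : ℝ × ℝ => (p.1 : ℂ) * exp (p.2 * I)) '' (Ioi R ×ˢ univ) := by
    ext z
    constructor
    · exact fun hz => ⟨(‖z‖, arg z), ⟨hz, trivial⟩, norm_mul_exp_arg_mul_I z⟩
    · rintro ⟨p, hp, rfl⟩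
      simpa [abs_of_pos (h.trans_lt hp.1)] using hp.1
  rw [this]
  exact (isPreconnected_Ioi.prod isPreconnected_univ).image _ (by fun_prop)

theorem wch_domain {X : Set ℂ} (hX : IsCompact X) (hp : IsPathConnected X) {u : ℂ} (hu : u ∉ X) :
    WCh (frontier (connectedComponentIn Xᶜ u)) := by
  have hU : IsOpen (connectedComponentIn Xᶜ u) := hX.isClosed.isOpen_compl.connectedComponentIn
  have hf := frontier_comp hX.isClosed u
  have hs : connectedComponentIn Xᶜ u ⊆ Xᶜ := connectedComponentIn_subset _ _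
  have huU : u ∈ connectedComponentIn Xᶜ u := mem_connectedComponentIn hu
  have hc : IsPreconnected (connectedComponentIn Xᶜ u) := isPreconnected_connectedComponentIn
  obtain ⟨R, hR⟩ := hX.isBounded.exists_norm_le
  by_cases hb : ∃ v ∈ connectedComponentIn Xᶜ u, R < ‖v‖
  · obtain ⟨v, h1, h2⟩ := hb
    refine wch_open hU hc ((isCompact_closedBall 0 R).of_isClosed_subset hU.isClosed_compl
      fun z hz => mem_closedBall_zero_iff.2 (not_lt.1 fun e => hz ?_)) hX hp hf
      (subset_compl_comm.1 hs)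
    rw [connectedComponentIn_eq h1]
    exact (conn_far R).subset_connectedComponentIn h2 (fun w h3 h4 => (hR w h4).not_gt h3) e
  push Not at hb
  generalize connectedComponentIn Xᶜ u = U at *
  let e : OpenPartialHomeomorph ℂ ℂ :=
    { toFun := fun v => u + v⁻¹
      invFun := fun w => (w - u)⁻¹
      source := {0}ᶜ
      target := {u}ᶜ
      map_source' := fun v hv => by simpa using hv
      map_target' := fun w hw => by simpa [sub_eq_zero] using hw
      left_inv' := fun v _ => by simp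
      right_inv' := fun w _ => by simp
      continuousOn_toFun := continuousOn_const.add continuousOn_inv₀
      continuousOn_invFun := (continuousOn_id.sub continuousOn_const).inv₀
        fun w hw => sub_ne_zero.2 hw
      open_source := isOpen_compl_singleton
      open_target := isOpen_compl_singleton }
  have hi : e.IsImage (e.source ∩ e ⁻¹' U) U := fun v hv => by simp [hv]
  have hΩ := e.isOpen_inter_preimage hU
  have hXt : X ⊆ e.target := fun x hx h => hu (h ▸ hx)
  have h0 : (0 : ℂ) ∉ frontier (e.source ∩ e ⁻¹' U) := by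
    intro h
    have h1 : Tendsto (fun v : ℂ => ‖v⁻¹‖) (𝓝[≠] 0) atTop := tendsto_norm_inv_nhdsNE_zero_atTop
    have h2 := eventually_nhdsWithin_iff.1 (h1.eventually_gt_atTop (R + ‖u‖))
    obtain ⟨v, a1, a2⟩ := mem_closure_iff_nhds.1 h.1 _ h2
    have a3 : ‖u + v⁻¹‖ ≤ R := hb _ a2.2
    have a4 : R + ‖u‖ < ‖v⁻¹‖ := a1 a2.1
    have a5 := norm_sub_le (u + v⁻¹) u
    rw [add_sub_cancel_left] at a5
    linarith
  have hfs : frontier (e.source ∩ e ⁻¹' U) ⊆ e.source := fun v hv h => h0 (h ▸ hv)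
  have hfr := hi.frontier.image_eq
  rw [inter_eq_right.2 hfs, inter_eq_right.2 (hf.trans hXt)] at hfr
  rw [← hfr]
  refine (wch_open (X := e.symm '' X) hΩ ?_ ?_ (hX.image_of_continuousOn
    (e.continuousOn_symm.mono hXt)) (hp.image' (e.continuousOn_symm.mono hXt)) (fun v hv => ?_)
    ?_).image (e.continuousOn.mono hfs)
  · have h1 := hi.symm_image_eq
    rw [← inter_assoc, inter_self] at h1
    rw [← h1]
    exact (unicoherent isOpen_compl_singleton hU (isConnected_compl_singleton_of_one_lt_rank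
      (by rw [rank_real_complex]; exact Nat.one_lt_ofNat) u).isPreconnected hc (by
        rw [eq_univ_iff_forall]
        intro z
        by_cases h : z = u
        · exact Or.inr (h ▸ huU)
        · exact Or.inl h)).image _ (e.continuousOn_symm.mono inter_subset_left)
  · obtain ⟨r, hr, hball⟩ := Metric.mem_nhds_iff.1 (hU.mem_nhds huU)
    refine (isCompact_closedBall 0 r⁻¹).of_isClosed_subset hΩ.isClosed_compl fun v hv =>
      mem_closedBall_zero_iff.2 (not_lt.1 fun h => hv ?_)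
    have h1 : 0 < ‖v‖ := (inv_pos.2 hr).trans h
    refine ⟨norm_pos_iff.1 h1, hball ?_⟩
    change dist (u + v⁻¹) u < r
    rw [dist_self_add_left, norm_inv]
    exact inv_lt_of_inv_lt₀ hr h
  · exact ⟨e v, hf (hfr ▸ mem_image_of_mem e hv), e.left_inv (hfs hv)⟩
  · rintro _ ⟨x, hx, rfl⟩ h
    exact hs (e.right_inv (hXt hx) ▸ h.2) hx

end Pool.Agent.Lib.BD5
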