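import Pool.Agent.Lib.BD5.Limit
import Pool.Agent.Lib.BD5.Domain

set_option autoImplicit false

open Set Topology Filter Function Metric

namespace Pool.Agent.Lib.BD5

open Pool.Agent.Lib.MP_1126ca_gt

theorem WCh.pointed {S : Set ℂ} (h : WCh S) {a : ℂ} (ha : a ∈ S) :
    ∃ (X : Type) (_ : TopologicalSpace X), CompactSpace X ∧ ConnectedSpace X ∧
      ∃ (e : X) (q : X → ℂ), Continuous q ∧ q e = a ∧ range q = S ∧
        ∀ D, PM D → ∀ ε > 0, ∃ g : X → ℝ, Continuous g ∧ (∀ x, g e ≤ g x) ∧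
          ∀ x x', g x = g x' → D x x' < ε := by
  obtain ⟨Y, _, h1, h2, h3, f, h4, rfl⟩ := h
  obtain ⟨y, rfl⟩ := ha
  obtain ⟨X, _, a1, -, a3, e, q, r, α, β, b1, -, b3, b4, b5, -, -, -, -, b6⟩ :=
    blowup h3 h4 fun _ => y
  refine ⟨X, _, a1, a3, e, q, b1, b4, Subset.antisymm (range_subset_iff.2 b5) ?_, b3⟩
  rintro _ ⟨z, rfl⟩
  obtain ⟨x, hx, -⟩ := b6 z
  exact ⟨x, hx⟩

theorem pm_comp {X Z : Type} [TopologicalSpace X] [TopologicalSpace Z] {D : Z → Z → ℝ} (hD : PM D)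
    {i : X → Z} (hi : Continuous i) : PM fun x y => D (i x) (i y) :=
  ⟨hD.cont.comp (hi.prodMap hi), fun _ => hD.self _, fun _ _ => hD.nonneg _ _,
    fun _ _ => hD.symm _ _, fun _ _ _ => hD.tri _ _ _⟩

theorem WCh.union {S S' : Set ℂ} (h : WCh S) (h' : WCh S') (hne : (S ∩ S').Nonempty) :
    WCh (S ∪ S') := by
  obtain ⟨a, ha, ha'⟩ := hne
  obtain ⟨X, _, a1, a2, e, q, a3, a4, rfl, a5⟩ := h.pointed ha
  obtain ⟨X', _, b1, b2, e', q', b3, b4, rfl, b5⟩ := h'.pointed ha'
  let W : Set (X × X') := range (fun x => (x, e')) ∪ range fun x => (e, x)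
  have c1 : Continuous fun x : X => (x, e') := by fun_prop
  have c2 : Continuous fun x : X' => (e, x) := by fun_prop
  have := isCompact_iff_compactSpace.1 ((isCompact_range c1).union (isCompact_range c2))
  have := isConnected_iff_connectedSpace.1 ((isConnected_range c1).union
    ⟨(e, e'), mem_range_self e, mem_range_self e'⟩ (isConnected_range c2))
  let i : X → W := fun x => ⟨(x, e'), Or.inl ⟨x, rfl⟩⟩
  let i' : X' → W := fun x => ⟨(e, x), Or.inr ⟨x, rfl⟩⟩
  have hW : ∀ w : W, (∃ x, w = i x) ∨ ∃ x, w = i' x := by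
    rintro ⟨_, ⟨x, rfl⟩ | ⟨x, rfl⟩⟩
    exacts [Or.inl ⟨x, rfl⟩, Or.inr ⟨x, rfl⟩]
  have key := exists_chainable (X := W) (π := fun w => q w.1.1 + q' w.1.2 - a) (by fun_prop)
    fun D hD ε hε => by
      obtain ⟨g, g1, g2, g3⟩ := a5 _ (pm_comp hD (i := i) (c1.subtype_mk _)) _ (half_pos hε)
      obtain ⟨k, k1, k2, k3⟩ := b5 _ (pm_comp hD (i := i') (c2.subtype_mk _)) _ (half_pos hε)
      have mix : ∀ x x', g x - k e' = g e - k x' → D (i x) (i' x') < ε := fun x x' h => by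
        have h1 := g3 x e (by linarith [g2 x, k2 x'])
        have h2 := k3 e' x' (by linarith [g2 x, k2 x'])
        have h3 : D (i x) (i' x') ≤ D (i x) (i e) + D (i' e') (i' x') := hD.tri _ _ _
        linarith
      refine ⟨fun w => g w.1.1 - k w.1.2, by fun_prop, fun w _ w' _ h => ?_⟩
      rcases hW w with ⟨x, rfl⟩ | ⟨x, rfl⟩ <;> rcases hW w' with ⟨x', rfl⟩ | ⟨x', rfl⟩
      · exact (g3 x x' (sub_left_injective h)).trans (half_lt_self hε)
      · exact mix x x' h
      · exact hD.symm _ _ ▸ mix x' x h.symm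
      · exact (k3 x x' (sub_right_injective h)).trans (half_lt_self hε)
  have hr : (range fun w : W => q w.1.1 + q' w.1.2 - a) = range q ∪ range q' := by
    refine Subset.antisymm (range_subset_iff.2 fun w => ?_) ?_
    · rcases hW w with ⟨x, rfl⟩ | ⟨x, rfl⟩
      · exact Or.inl ⟨x, by simp [i, b4]⟩
      · exact Or.inr ⟨x, by simp [i', a4]⟩
    · rintro _ (⟨x, rfl⟩ | ⟨x, rfl⟩)
      · exact ⟨i x, by simp [i, b4]⟩
      · exact ⟨i' x, by simp [i', a4]⟩
  rw [hr] at key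
  exact key

theorem wch_path {a b : ℂ} (γ : Path a b) : WCh (range γ) :=
  ⟨unitInterval, inferInstance, inferInstance, inferInstance, fun ε hε =>
    ⟨Subtype.val, continuous_subtype_val, fun y y' h => by
      rwa [Subtype.ext h, dist_self]⟩, γ, γ.continuous, rfl⟩

/-- A loop filling a closed disc. -/
theorem loop {α β : ℝ} (hαβ : α < β) {c p : ℂ} {ρ : ℝ} (hp : p ∈ closedBall c ρ) :
    ∃ b : ℝ → ℂ, Continuous b ∧ (∀ t ∉ Ioo α β, b t = 0) ∧ (∀ t, p + b t ∈ closedBall c ρ) ∧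
      ∀ w ∈ closedBall c ρ, ∃ t ∈ Ioo α β, p + b t = w := by
  rcases (dist_nonneg.trans hp).eq_or_lt with rfl | hρ
  · obtain ⟨t, ht⟩ := nonempty_Ioo.2 hαβ
    exact ⟨0, continuous_zero, fun _ _ => rfl, by simpa using hp, fun w hw => ⟨t, ht, by
      simp_all⟩⟩
  have := isCompact_iff_compactSpace.1 (isCompact_closedBall c ρ)
  have : Nonempty (closedBall c ρ) := ⟨⟨p, hp⟩⟩
  obtain ⟨f, f1, f2⟩ := exists_nat_bool_continuous_surjective_of_compact (closedBall c ρ)
  have := Metric.instTietzeExtensionClosedBall.{0, 0} ℝ c hρ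
  obtain ⟨G, G1, G2⟩ := ContinuousMap.exists_forall_mem_restrict_eq isClosed_cantorSet
    (⟨fun x => (f (cantorSetHomeomorphNatToBool x) : ℂ), by fun_prop⟩ : C(cantorSet, ℂ))
    (t := closedBall c ρ) fun x => (f _).2
  have hd : 0 < β - α := sub_pos.2 hαβ
  let s : ℝ → ℝ := fun t => 3 * (t - α) / (β - α) - 1
  let φ : ℝ → ℝ := fun u => max 0 (min 1 (min (u + 1) (2 - u)))
  refine ⟨fun t => φ (s t) • (G (s t) - p), by fun_prop, fun t ht => ?_, fun t => ?_, fun w hw => ?_⟩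
  · have : φ (s t) = 0 := by
      refine max_eq_left (min_le_of_right_le ?_)
      rcases not_and_or.1 ht with h | h
      · refine min_le_of_left_le ?_
        have : 3 * (t - α) / (β - α) ≤ 0 := div_nonpos_of_nonpos_of_nonneg (by linarith [not_lt.1 h]) hd.le
        simp only [s]
        linarith
      · refine min_le_of_right_le ?_
        have : 3 ≤ 3 * (t - α) / (β - α) := (le_div_iff₀ hd).2 (by linarith [not_lt.1 h])
        simp only [s]
        linarith
    simp [this]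
  · exact (convex_closedBall c ρ).add_smul_sub_mem hp (G1 _)
      ⟨le_max_left _ _, max_le zero_le_one (min_le_left _ _)⟩
  · obtain ⟨v, hv⟩ := f2 ⟨w, hw⟩
    obtain ⟨u, rfl⟩ := cantorSetHomeomorphNatToBool.surjective v
    have hu := cantorSet_subset_unitInterval u.2
    have e1 : s (α + (u + 1) * (β - α) / 3) = u := by
      simp only [s]
      field_simp
      ring
    have e2 : φ u = 1 := by
      simp only [φ]
      rw [min_eq_left (le_min (by linarith [hu.1]) (by linarith [hu.2])), max_eq_right zero_le_one]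
    have e3 : G u = w := (congrArg (fun F : C(cantorSet, ℂ) => F u) G2).trans (congrArg Subtype.val hv)
    refine ⟨α + (u + 1) * (β - α) / 3, ⟨by nlinarith [hu.1], by nlinarith [hu.2]⟩, ?_⟩
    simp [e1, e2, e3]

/-- Attaching a null sequence of discs. -/
theorem WCh.attach {S : Set ℂ} (h : WCh S) {c : ℕ → ℂ} {ρ : ℕ → ℝ}
    (h0 : Tendsto ρ atTop (𝓝 0)) (ht : ∀ j, (S ∩ closedBall (c j) (ρ j)).Nonempty) :
    WCh (S ∪ ⋃ j, closedBall (c j) (ρ j)) := by
  classical
  obtain ⟨Y, _, h1, h2, h3, f, h4, rfl⟩ := h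
  choose p hp1 hp2 using ht
  choose y hy using hp1
  obtain ⟨X, _, a1, -, a3, e, q, r, α, β, b1, b2, b3, -, b5, b6, b7, b8, b9, b10⟩ :=
    blowup h3 h4 fun j => y (j - 1)
  simp only [Nat.add_sub_cancel, hy] at b9
  choose b c1 c2 c3 c4 using fun j => loop (b6 j) (hp2 j)
  have dis : ∀ {j k t}, t ∈ Ioo (α j) (β j) → t ∈ Ioo (α k) (β k) → j = k := fun {j k t} h h' => by
    by_contra hne
    rcases lt_or_gt_of_ne hne with e | e
    · linarith [b7 _ _ e, h.2, h'.1]
    · linarith [b7 _ _ e, h.1, h'.2]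
  let B : ℝ → ℂ := fun t => if h : ∃ j, t ∈ Ioo (α j) (β j) then b h.choose t else 0
  have B1 : ∀ j, ∀ t ∈ Ioo (α j) (β j), B t = b j t := fun j t ht => by
    have h : ∃ j, t ∈ Ioo (α j) (β j) := ⟨j, ht⟩
    simp only [B, dif_pos h, dis h.choose_spec ht]
  have B0 : ∀ t, (∀ j, t ∉ Ioo (α j) (β j)) → B t = 0 := fun t ht => dif_neg (not_exists.2 ht)
  have small : ∀ j t, ‖b j t‖ ≤ 2 * ρ j := fun j t => by
    have := dist_triangle_right (p j + b j t) (p j) (c j)
    rw [dist_self_add_left] at this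
    linarith [mem_closedBall.1 (c3 j t), mem_closedBall.1 (hp2 j)]
  have hB : Continuous B := by
    refine TendstoUniformly.continuous (F := fun n t => ∑ j ∈ Finset.range n, b j t) (p := atTop)
      (Metric.tendstoUniformly_iff.2 fun ε hε => ?_)
      (Eventually.of_forall fun n => by fun_prop).frequently
    obtain ⟨N, hN⟩ := eventually_atTop.1 (h0.eventually (gt_mem_nhds (half_pos hε)))
    refine eventually_atTop.2 ⟨N, fun n hn t => ?_⟩
    by_cases h : ∃ j, t ∈ Ioo (α j) (β j)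
    · obtain ⟨j, hj⟩ := h
      have z : ∀ k ≠ j, b k t = 0 := fun k hk => c2 k t fun h => hk (dis h hj)
      rw [B1 j t hj]
      by_cases e : j ∈ Finset.range n
      · rwa [Finset.sum_eq_single_of_mem j e fun k _ hk => z k hk, dist_self]
      · rw [Finset.sum_eq_zero fun k hk => z k (by rintro rfl; exact e hk), dist_zero_right]
        linarith [small j t, hN j (hn.trans (by simpa using e))]
    · rwa [B0 t (not_exists.1 h), Finset.sum_eq_zero fun k _ => c2 k t (not_exists.1 h k), dist_self]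
  have key := exists_chainable (X := X) (π := fun x => q x + B (r x)) (by fun_prop)
    fun D hD ε hε => by
      obtain ⟨g, g1, -, g3⟩ := b3 D hD ε hε
      exact ⟨g, g1, fun x _ x' _ => g3 x x'⟩
  have hr : (range fun x => q x + B (r x)) = range f ∪ ⋃ j, closedBall (c j) (ρ j) := by
    refine Subset.antisymm (range_subset_iff.2 fun x => ?_) ?_
    · by_cases h : ∃ j, r x ∈ Ioo (α j) (β j)
      · obtain ⟨j, hj⟩ := h
        rw [B1 j _ hj, b9 j x hj]
        exact Or.inr (mem_iUnion.2 ⟨j, c3 j _⟩)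
      · rw [B0 _ (not_exists.1 h), add_zero]
        exact Or.inl (b5 x)
    · rintro w (⟨z, rfl⟩ | hw)
      · obtain ⟨x, d1, d2⟩ := b10 z
        exact ⟨x, by simp only [B0 _ fun j h => (d2 j).not_gt h.2, add_zero, d1]⟩
      · obtain ⟨j, hj⟩ := mem_iUnion.1 hw
        obtain ⟨t, d1, d2⟩ := c4 j w hj
        obtain ⟨x, rfl⟩ := b8 j (Ioo_subset_Icc_self d1)
        exact ⟨x, by simp only [B1 j _ d1, b9 j x d1, d2]⟩
  rw [hr] at key
  exact key

theorem wch_finite {X : Set ℂ} (hp : IsPathConnected X) {T : Set (Set ℂ)} (hT : T.Finite)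
    (h : ∀ F ∈ T, WCh F ∧ F ⊆ X) : ∃ S, WCh S ∧ S ⊆ X ∧ ∀ F ∈ T, F ⊆ S := by
  have ne : ∀ {S}, WCh S → S.Nonempty := by
    rintro _ ⟨Y, _, -, h2, -, f, -, rfl⟩
    exact range_nonempty f
  induction T, hT using Set.Finite.induction_on with
  | empty =>
    obtain ⟨x, hx⟩ := hp.nonempty
    exact ⟨_, wch_path (Path.refl x), by simpa using hx, by simp⟩
  | @insert F T _ _ ih =>
    obtain ⟨S, h1, h2, h3⟩ := ih fun G hG => h G (Or.inr hG)
    obtain ⟨h4, h5⟩ := h F (Or.inl rfl)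
    obtain ⟨a, ha⟩ := ne h1
    obtain ⟨b, hb⟩ := ne h4
    obtain ⟨γ, hγ⟩ := hp.joinedIn a (h2 ha) b (h5 hb)
    refine ⟨_, (h1.union (wch_path γ) ⟨a, ha, γ.source_mem_range⟩).union h4
      ⟨b, Or.inr γ.target_mem_range, hb⟩, union_subset (union_subset h2 (range_subset_iff.2 hγ)) h5, ?_⟩
    rintro G (rfl | hG)
    exacts [subset_union_right, (h3 G hG).trans (subset_union_left.trans subset_union_left)]

theorem exists_discs {X : Set ℂ} (hX : IsCompact X) (hne : X.Nonempty) :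
    ∃ (c : ℕ → ℂ) (ρ : ℕ → ℝ), Tendsto ρ atTop (𝓝 0) ∧ (∀ j, closedBall (c j) (ρ j) ⊆ X) ∧
      (∀ j, (frontier X ∩ closedBall (c j) (ρ j)).Nonempty) ∧
        X ⊆ frontier X ∪ ⋃ j, closedBall (c j) (ρ j) := by
  classical
  have hc : Xᶜ.Nonempty := nonempty_compl.2 hX.ne_univ
  let d : ℂ → ℝ := fun u => infDist u Xᶜ
  have fr : ∀ {u}, u ∈ frontier X ↔ u ∈ X ∧ d u = 0 := by
    intro u
    rw [frontier_eq_closure_inter_closure, hX.isClosed.closure_eq, mem_inter_iff,
      mem_closure_iff_infDist_zero hc]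
  have sub : ∀ u ∈ X, closedBall u (d u) ⊆ X := fun u hu => by
    rcases eq_or_ne (d u) 0 with e | e
    · simpa [e] using hu
    · rw [← closure_ball u e]
      exact closure_minimal ball_infDist_compl_subset hX.isClosed
  have touch : ∀ u ∈ X, (frontier X ∩ closedBall u (d u)).Nonempty := fun u hu => by
    obtain ⟨z, h1, h2⟩ := isClosed_closure.exists_infDist_eq_dist hc.closure u
    have h3 : z ∈ closedBall u (d u) := by
      rw [mem_closedBall, dist_comm, ← h2, infDist_closure]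
    exact ⟨z, fr.2 ⟨sub u hu h3, (mem_closure_iff_infDist_zero hc).1 h1⟩, h3⟩
  have cd : Continuous d := continuous_infDist_pt _
  choose T T1 T2 using fun n : ℕ => (hX.inter_right ((isClosed_le continuous_const
    (cd.const_mul (n + 1 : ℝ))).inter (isClosed_le (cd.const_mul (n : ℝ))
      (continuous_const (y := 1))))).elim_nhds_subcover (fun u => closedBall u (d u))
        fun u hu => closedBall_mem_nhds u (pos_of_mul_pos_right
          (one_pos.trans_le hu.2.1) (by positivity))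
  obtain ⟨k, hk⟩ := countable_iff_exists_injOn.1 (countable_iUnion fun n => (T n).countable_toSet)
  obtain ⟨x, hx⟩ := hne
  obtain ⟨x₀, h0, -⟩ := touch x hx
  let c : ℕ → ℂ := fun j => if h : ∃ u ∈ ⋃ n, (T n : Set ℂ), k u = j then h.choose else x₀
  have c1 : ∀ j, (c j ∈ ⋃ n, (T n : Set ℂ) ∧ k (c j) = j) ∨ c j = x₀ := fun j => by
    by_cases h : ∃ u ∈ ⋃ n, (T n : Set ℂ), k u = j
    · exact Or.inl (by simpa only [c, dif_pos h] using h.choose_spec)
    · exact Or.inr (dif_neg h)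
  have c2 : ∀ j, c j ∈ X := fun j => (c1 j).elim (fun h => by
    obtain ⟨n, hn⟩ := mem_iUnion.1 h.1
    exact (T1 n _ hn).1) fun h => h ▸ (fr.1 h0).1
  refine ⟨c, fun j => d (c j), ?_, fun j => sub _ (c2 j), fun j => touch _ (c2 j), fun u hu => ?_⟩
  · rw [← Nat.cofinite_eq_atTop]
    refine tendsto_order.2 ⟨fun a ha => Eventually.of_forall fun j => ha.trans_le infDist_nonneg,
      fun ε hε => (((finite_le_nat ⌈1 / ε⌉₊).biUnion fun n _ => (T n).finite_toSet).image k).subset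
        fun j hj => ?_⟩
    have hj : ε ≤ d (c j) := not_lt.1 hj
    rcases c1 j with h | h
    · obtain ⟨n, hn⟩ := mem_iUnion.1 h.1
      have h1 : (n : ℝ) * d (c j) ≤ 1 := (T1 n _ hn).2.2
      refine ⟨_, mem_biUnion (x := n) (Nat.cast_le (α := ℝ).1 (le_trans ?_ (Nat.le_ceil _))) hn, h.2⟩
      exact (le_div_iff₀ hε).2 ((mul_le_mul_of_nonneg_left hj n.cast_nonneg).trans h1)
    · rw [h, (fr.1 h0).2] at hj
      exact absurd hj hε.not_ge
  · rcases (infDist_nonneg (x := u) (s := Xᶜ)).eq_or_lt with e | e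
    · exact Or.inl (fr.2 ⟨hu, e.symm⟩)
    · obtain ⟨v, h1, h2⟩ := mem_iUnion₂.1 (T2 ⌊1 / d u⌋₊ ⟨hu,
        (div_le_iff₀ e).1 (Nat.lt_floor_add_one _).le, (le_div_iff₀ e).1 (Nat.floor_le (by positivity))⟩)
      have h3 : v ∈ ⋃ n, (T n : Set ℂ) := mem_iUnion.2 ⟨_, h1⟩
      have h4 : ∃ w ∈ ⋃ n, (T n : Set ℂ), k w = k v := ⟨v, h3, rfl⟩
      have h5 : c (k v) = v := (dif_pos h4).trans (hk h4.choose_spec.1 h3 h4.choose_spec.2)
      exact Or.inr (mem_iUnion.2 ⟨k v, by simpa only [h5] using h2⟩)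

theorem wch_of_finite {X : Set ℂ} (hX : IsCompact X) (hp : IsPathConnected X)
    (hf : {U | ∃ u ∉ X, U = connectedComponentIn Xᶜ u}.Finite) : WCh X := by
  obtain ⟨S, h1, h2, h3⟩ := wch_finite hp (hf.image frontier) (by
    rintro _ ⟨_, ⟨u, hu, rfl⟩, rfl⟩
    exact ⟨wch_domain hX hp hu, frontier_comp hX.isClosed u⟩)
  have h4 : frontier X ⊆ S := by
    intro z hz
    rw [frontier_eq_closure_inter_closure, hX.isClosed.closure_eq] at hz
    have h5 : Xᶜ ⊆ ⋃₀ {U | ∃ u ∉ X, U = connectedComponentIn Xᶜ u} := fun u hu =>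
      ⟨_, ⟨u, hu, rfl⟩, mem_connectedComponentIn hu⟩
    have h6 := closure_mono h5 hz.2
    rw [hf.closure_sUnion] at h6
    obtain ⟨_, ⟨u, hu, rfl⟩, h7⟩ := mem_iUnion₂.1 h6
    exact h3 _ ⟨_, ⟨u, hu, rfl⟩, rfl⟩
      ⟨h7, fun h => connectedComponentIn_subset _ _ (interior_subset h) hz.1⟩
  obtain ⟨c, ρ, a1, a2, a3, a4⟩ := exists_discs hX hp.nonempty
  have := h1.attach a1 fun j => (a3 j).mono (inter_subset_inter_left _ h4)
  rwa [Subset.antisymm (union_subset h2 (iUnion_subset a2))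
    (a4.trans (union_subset_union_left _ h4))] at this

end Pool.Agent.Lib.BD5
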