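import Pool.Agent.Lib.BD5.Arcs

set_option autoImplicit false

open Set Topology Filter Function Complex Metric

namespace Pool.Agent.Lib.BD5

open Pool.Agent.Lib.MP_1126ca_gt

/-- The union of the components of `W` that meet `E`. -/
def Sat (W E : Set ℂ) : Set ℂ := {u | u ∈ W ∧ (connectedComponentIn W u ∩ E).Nonempty}

theorem isClosed_Sat {W E : Set ℂ} (hW : IsCompact W) (hE : IsClosed E) : IsClosed (Sat W E) := by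
  rw [← isOpen_compl_iff, isOpen_iff_mem_nhds]
  intro u hu
  by_cases h : u ∈ W
  swap
  · filter_upwards [hW.isClosed.isOpen_compl.mem_nhds h] with v hv e using hv e.1
  obtain ⟨P, Q, hP, hQ, hPQ, hd, huP, hG⟩ := exists_split hW h hE
    (Set.disjoint_iff_inter_eq_empty.2 (not_nonempty_iff_eq_empty.1 fun e => hu ⟨h, e⟩))
  filter_upwards [hQ.isClosed.isOpen_compl.mem_nhds (Set.disjoint_left.1 hd huP)] with v hv e
  obtain ⟨e1, r, e2, e3⟩ := e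
  rcases isPreconnected_iff_subset_of_disjoint_closed.1
    (isPreconnected_connectedComponentIn (x := v) (F := W)) P Q hP.isClosed hQ.isClosed
    (hPQ ▸ connectedComponentIn_subset _ _) (by rw [hd.inter_eq, inter_empty]) with k | k
  · exact Set.disjoint_left.1 hG (k e2) e3
  · exact hv (k (mem_connectedComponentIn e1))

/-- A countable base of closed discs. -/
noncomputable def Dk (n : ℕ × ℕ) : Set ℂ :=
  closedBall (TopologicalSpace.denseSeq ℂ n.1) (1 / ((n.2 : ℝ) + 1))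

theorem Dk_closed (n : ℕ × ℕ) : IsClosed (Dk n) := isClosed_closedBall

theorem Dk_convex (n : ℕ × ℕ) : Convex ℝ (Dk n) := convex_closedBall _ _

theorem exists_Dk {x : ℂ} {W : Set ℂ} (hW : W ∈ 𝓝 x) : ∃ n, Dk n ∈ 𝓝 x ∧ Dk n ⊆ W := by
  obtain ⟨ε, hε, h⟩ := Metric.mem_nhds_iff.1 hW
  obtain ⟨j, hj⟩ := exists_nat_one_div_lt (half_pos hε)
  obtain ⟨i, hi⟩ := (TopologicalSpace.denseRange_denseSeq ℂ).exists_dist_lt x
    (Nat.one_div_pos_of_nat (n := j))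
  refine ⟨(i, j), closedBall_mem_nhds_of_mem hi, Subset.trans (fun u hu => ?_) h⟩
  rw [Dk, mem_closedBall] at hu
  rw [mem_ball]
  linarith [dist_triangle_right u x (TopologicalSpace.denseSeq ℂ i)]

/-- The points joined to `J` by a chain of continua of `K` in the given discs. -/
def Ch (K J : Set ℂ) : List (ℕ × ℕ) → Set ℂ
  | [] => J
  | n :: β => Sat (K ∩ Dk n) (Ch K J β)

variable {K : Set ℂ}

theorem isClosed_Ch (hK : IsCompact K) {J : Set ℂ} (hJ : IsClosed J) :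
    ∀ β, IsClosed (Ch K J β)
  | [] => hJ
  | n :: β => isClosed_Sat (hK.inter_right (Dk_closed n)) (isClosed_Ch hK hJ β)

theorem NS.rel (hK : NS K) {J : Set ℂ} (hJ : IsPreconnected J) (hJK : J ⊆ K) {n₀ : ℕ × ℕ}
    (h0 : J ⊆ Dk n₀) (μ : Z K) (hμ : pj μ ∉ Dk n₀) : ∀ β, (∀ n ∈ β, pj μ ∉ Dk n) →
      ∀ p ∈ Ch K J β, ∀ q ∈ Ch K J β, sg μ p = sg μ q * rt p q (pj μ)
  | [], _, _, hp, _, hq => hK.dir μ hJ hJK h0 (Dk_convex _) (Dk_closed _) hμ hp hq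
  | n :: β, h, p, ⟨hp, p', hp1, hp2⟩, q, ⟨hq, q', hq1, hq2⟩ => by
    have hn := h n List.mem_cons_self
    have d : ∀ u, ∀ v ∈ connectedComponentIn (K ∩ Dk n) u, ∀ w ∈ connectedComponentIn (K ∩ Dk n) u,
        sg μ v = sg μ w * rt v w (pj μ) := fun u v hv w hw =>
      hK.dir μ isPreconnected_connectedComponentIn
        ((connectedComponentIn_subset _ _).trans inter_subset_left)
        ((connectedComponentIn_subset _ _).trans inter_subset_right) (Dk_convex n) (Dk_closed n)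
        hn hv hw
    have a1 := (connectedComponentIn_subset _ _ hp1).2
    have a2 := (connectedComponentIn_subset _ _ hq1).2
    rw [d p p (mem_connectedComponentIn hp) p' hp1,
      hK.rel hJ hJK h0 μ hμ β (fun k hk => h k (List.mem_cons_of_mem n hk)) p' hp2 q' hq2,
      d q q' hq1 q (mem_connectedComponentIn hq), mul_assoc (sg μ q),
      rt_mul (Dk_convex n) a1 a2 hq.2 hn, mul_assoc, rt_mul (Dk_convex n) hp.2 a1 hq.2 hn]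

theorem exists_Ch {J G : Set ℂ} (hG : IsClosed G) {γ : ℝ → ℂ} (hγ : Continuous γ) {a b : ℝ}
    (hab : a ≤ b) (hK : γ '' Icc a b ⊆ K) (hd : ∀ s ∈ Icc a b, γ s ∉ G) (ha : γ a ∈ J) :
    ∃ β, (∀ n ∈ β, Dk n ⊆ Gᶜ) ∧ γ b ∈ Ch K J β := by
  refine isPreconnected_Icc.induction₂' (fun s s' => (∃ β, (∀ n ∈ β, Dk n ⊆ Gᶜ) ∧ γ s ∈ Ch K J β) →
    ∃ β, (∀ n ∈ β, Dk n ⊆ Gᶜ) ∧ γ s' ∈ Ch K J β) (fun s hs => ?_)
    (fun _ _ _ _ _ _ h h' => h' ∘ h) (left_mem_Icc.2 hab) (right_mem_Icc.2 hab) ⟨[], by simp, ha⟩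
  obtain ⟨n, h1, h2⟩ := exists_Dk (hG.isOpen_compl.mem_nhds (hd s hs))
  obtain ⟨η, hη, h3⟩ := Metric.mem_nhds_iff.1 (hγ.continuousAt h1)
  have h4 : γ '' (Icc a b ∩ ball s η) ⊆ K ∩ Dk n := by
    rintro _ ⟨r, hr, rfl⟩
    exact ⟨hK ⟨r, hr.1, rfl⟩, h3 hr.2⟩
  have key : ∀ r ∈ Icc a b ∩ ball s η, ∀ r' ∈ Icc a b ∩ ball s η,
      (∃ β, (∀ n ∈ β, Dk n ⊆ Gᶜ) ∧ γ r ∈ Ch K J β) →
        ∃ β, (∀ n ∈ β, Dk n ⊆ Gᶜ) ∧ γ r' ∈ Ch K J β := by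
    rintro r hr r' hr' ⟨β, b1, b2⟩
    refine ⟨n :: β, List.forall_mem_cons.2 ⟨h2, b1⟩, h4 ⟨r', hr', rfl⟩, γ r, ?_, b2⟩
    exact (((convex_Icc a b).inter (convex_ball s η)).isPreconnected.image _
      hγ.continuousOn).subset_connectedComponentIn ⟨r', hr', rfl⟩ h4 ⟨r, hr, rfl⟩
  filter_upwards [self_mem_nhdsWithin, nhdsWithin_le_nhds (ball_mem_nhds s hη)] with r c1 c2
  exact ⟨key s ⟨hs, mem_ball_self hη⟩ r ⟨c1, c2⟩, key r ⟨c1, c2⟩ s ⟨hs, mem_ball_self hη⟩⟩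

variable {N O O' : Set (Z K)}

theorem NS.pre (hK : NS K) (hN : IsCompact N) (hp : IsPreconnected N) (hnt : N.Nontrivial)
    (hO : IsOpen O) (hne : (N ∩ O).Nonempty) : ∃ t ℓ α O', Arc0 K t ℓ α ∧ IsOpen O' ∧ O' ⊆ O ∧
      ∀ x ∈ K, ∃ (γ : ℝ → ℂ) (a b : ℝ), Continuous γ ∧ a ≤ b ∧ γ '' Icc a b ⊆ K ∧
        γ a ∈ α '' Icc 0 ℓ ∧ γ b = x ∧ ∃ μ ∈ N ∩ O', pj μ ∉ γ '' Icc a b := by
  by_cases h : ∃ t ℓ α O', Arc0 K t ℓ α ∧ IsOpen O' ∧ O' ⊆ O ∧ (N ∩ O').Nonempty ∧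
    pj '' (N ∩ O') ⊆ α '' Icc 0 ℓ
  · obtain ⟨t, ℓ, α, O', h1, h2, h3, h4, h5⟩ := h
    refine ⟨t, ℓ, α, O', h1, h2, h3, fun x hx => ?_⟩
    obtain ⟨b, γ, hγ⟩ := hK.arc hx
    obtain ⟨a, ha, hmax⟩ := (isCompact_Icc.inter_right (h1.tame.cpt.isClosed.preimage
      hγ.cont)).exists_isGreatest ⟨0, left_mem_Icc.2 hγ.pos, by
        rw [mem_preimage, hγ.zero]
        exact h1.mem0⟩
    obtain ⟨μ, a1, a2⟩ := hK.small hN hp hnt h2 h4 (finite_singleton (γ a))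
    refine ⟨γ, a, b, hγ.cont, ha.1.2, (image_mono (Icc_subset_Icc_left ha.1.1)).trans hγ.sub, ha.2,
      hγ.top, μ, a1, ?_⟩
    rintro ⟨r, hr, e⟩
    refine a2 ?_
    rw [← e, le_antisymm (hmax ⟨⟨ha.1.1.trans hr.1, hr.2⟩, by
      rw [mem_preimage, e]
      exact h5 ⟨μ, a1, rfl⟩⟩) hr.1]
    rfl
  · obtain ⟨ℓ, α, hA⟩ := hK.arc hK.zero
    refine ⟨0, ℓ, α, O, hA, hO, Subset.rfl, fun x hx => ?_⟩
    obtain ⟨b, γ, hγ⟩ := hK.arc hx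
    obtain ⟨_, ⟨μ, a1, rfl⟩, a2⟩ := not_subset.1 fun e => h ⟨x, b, γ, O, hγ, hO, Subset.rfl, hne, e⟩
    exact ⟨γ, 0, b, hγ.cont, hγ.pos, hγ.sub, hγ.zero ▸ hA.mem0, hγ.top, μ, a1, a2⟩

theorem NS.pair (hK : NS K) (hN : IsCompact N) (hp : IsPreconnected N) (hnt : N.Nontrivial)
    (hO : IsOpen O) (hne : (N ∩ O).Nonempty) (hO' : IsOpen O') (hne' : (N ∩ O').Nonempty) :
    ∃ U U', IsOpen U ∧ (N ∩ U).Nonempty ∧ U ⊆ O ∧ IsOpen U' ∧ (N ∩ U').Nonempty ∧ U' ⊆ O' ∧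
      ∀ ν ∈ N ∩ U, ∀ ν' ∈ N ∩ U, ∀ μ ∈ U',
        sg μ (pj ν) = sg μ (pj ν') * rt (pj ν) (pj ν') (pj μ) := by
  obtain ⟨t, ℓ, α, O'', hA, h1, h2, h3⟩ := hK.pre hN hp hnt hO' hne'
  let J : ℚ × ℚ → Set ℂ := fun q => α '' (Icc 0 ℓ ∩ Icc (q.1 : ℝ) q.2)
  let ι := {i : List (ℕ × ℕ) × (ℕ × ℕ) × (ℚ × ℚ) × (ℕ × ℕ) // (∀ n ∈ i.1, Dk n ⊆ (Dk i.2.2.2)ᶜ) ∧
    J i.2.2.1 ⊆ Dk i.2.1 ∧ Dk i.2.1 ⊆ (Dk i.2.2.2)ᶜ ∧ ∃ μ ∈ N ∩ O'', Dk i.2.2.2 ∈ 𝓝 (pj μ)}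
  let E : ι → Set N := fun i => {ν | pj ν.1 ∈ Ch K (J i.1.2.2.1) i.1.1}
  have hc : ∀ i, IsClosed (E i) := fun i => (isClosed_Ch hK.cpt
    ((isCompact_Icc.inter_right isClosed_Icc).image hA.cont).isClosed _).preimage
      (pj_cont.comp continuous_subtype_val)
  have hU : ⋃ i, E i = univ := by
    refine eq_univ_iff_forall.2 fun ν => mem_iUnion.2 ?_
    obtain ⟨γ, a, b, b1, b2, b3, ⟨s, hs, b4⟩, b5, μ, b6, b7⟩ := h3 _ (pj_mem ν.1)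
    obtain ⟨m, c1, c2⟩ := exists_Dk ((isCompact_Icc.image b1).isClosed.isOpen_compl.mem_nhds b7)
    have c3 : ∀ r ∈ Icc a b, γ r ∉ Dk m := fun r hr e => c2 e ⟨r, hr, rfl⟩
    obtain ⟨n₀, c4, c5⟩ := exists_Dk ((Dk_closed m).isOpen_compl.mem_nhds
      (c3 a (left_mem_Icc.2 b2)))
    obtain ⟨η, hη, c6⟩ := Metric.mem_nhds_iff.1 (hA.cont.continuousAt (b4 ▸ c4 : Dk n₀ ∈ 𝓝 (α s)))
    obtain ⟨q, d1, d2⟩ := exists_rat_btwn (sub_lt_self s hη)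
    obtain ⟨q', d3, d4⟩ := exists_rat_btwn (lt_add_of_pos_right s hη)
    obtain ⟨β, d5, d6⟩ := exists_Ch (J := J (q, q')) (Dk_closed m) b1 b2 b3 c3
      ⟨s, ⟨hs, d2.le, d3.le⟩, b4⟩
    refine ⟨⟨(β, n₀, (q, q'), m), d5, ?_, c5, μ, b6, c1⟩, b5 ▸ d6⟩
    rintro _ ⟨r, hr, rfl⟩
    refine c6 ?_
    rw [Real.ball_eq_Ioo]
    exact ⟨d1.trans_le hr.2.1, hr.2.2.trans_lt d4⟩
  have := hK.compactZ
  have := isCompact_iff_compactSpace.1 hN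
  obtain ⟨ν₀, hν₀⟩ := hne
  obtain ⟨ν, a1, a2⟩ := (dense_iUnion_interior_of_closed hc hU).inter_open_nonempty _
    (hO.preimage continuous_subtype_val) ⟨⟨ν₀, hν₀.1⟩, hν₀.2⟩
  obtain ⟨⟨⟨β, n₀, q, m⟩, d1, d2, d3, μ₀, d4, d5⟩, hi⟩ := mem_iUnion.1 a2
  obtain ⟨V, v1, v2⟩ := isOpen_induced_iff.1 (isOpen_interior (s := E ⟨_, d1, d2, d3, μ₀, d4, d5⟩))
  have v3 : ∀ κ ∈ N ∩ (O ∩ V), pj κ ∈ Ch K (J q) β := fun κ hκ => by
    have e : (⟨κ, hκ.1⟩ : N) ∈ Subtype.val ⁻¹' V := hκ.2.2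
    rw [v2] at e
    have e' := interior_subset e
    exact e'
  refine ⟨O ∩ V, O'' ∩ pj ⁻¹' interior (Dk m), hO.inter v1, ⟨ν, ν.2, a1, (v2.symm ▸ hi :
    ν ∈ Subtype.val ⁻¹' V)⟩, inter_subset_left, h1.inter (isOpen_interior.preimage pj_cont),
    ⟨μ₀, d4.1, d4.2, mem_interior_iff_mem_nhds.2 d5⟩, inter_subset_left.trans h2,
    fun κ hκ κ' hκ' μ hμ => ?_⟩
  have e : pj μ ∈ Dk m := interior_subset hμ.2
  exact hK.rel (((convex_Icc _ _).inter (convex_Icc _ _)).isPreconnected.image _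
    hA.cont.continuousOn) ((image_mono inter_subset_left).trans hA.sub) d2 μ (fun e' => d3 e' e) β
    (fun n hn e' => d1 n hn e' e) _ (v3 κ hκ) _ (v3 κ' hκ')

end Pool.Agent.Lib.BD5
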