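import Pool.Agent.Lib.MP_1126ca_gt.Hair
import Pool.Agent.Lib.MP_1126ca_gt.Chain

set_option autoImplicit false

open Set Topology Filter Function Complex Metric

namespace Pool.Agent.Lib.BD5

open Pool.Agent.Lib.MP_1126ca_gt

theorem exists_sqrt {A : Type} [TopologicalSpace A] [SimplyConnectedSpace A]
    [LocallyPathConnectedSpace A] {f : A → ℂ} (hf : Continuous f) (h0 : ∀ a, f a ≠ 0) (a₀ : A)
    {r : ℂ} (hr : r ^ 2 = f a₀) : ∃ g : A → ℂ, Continuous g ∧ (∀ a, g a ^ 2 = f a) ∧ g a₀ = r := by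
  have hr0 : r ≠ 0 := by
    rintro rfl
    exact h0 a₀ (by simpa using hr.symm)
  obtain ⟨G, ⟨h1, h2⟩, -⟩ := (isCoveringMap_npow (𝕜 := ℂ) 2 (by norm_num)).existsUnique_continuousMap_lifts
    (⟨fun a => ⟨f a, h0 a⟩, hf.subtype_mk _⟩ : C(A, {x : ℂ // x ≠ 0})) a₀ ⟨r, hr0⟩ (Subtype.ext hr)
  exact ⟨fun a => (G a : ℂ), continuous_subtype_val.comp G.continuous,
    fun a => congrArg Subtype.val (congrFun h2 a), congrArg Subtype.val h1⟩

/-- A sign that is locally constant on `W`, times a function vanishing off `W`. -/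
theorem contAt_sign {s a : ℂ → ℂ} {x : ℂ} (hs : ∀ y, ‖s y‖ ≤ 1) (ha : ContinuousAt a x)
    (h : ContinuousAt s x ∨ a x = 0) : ContinuousAt (fun y => s y * a y) x := by
  rcases h with h | h
  · exact h.mul ha
  · rw [ContinuousAt, h, mul_zero]
    refine squeeze_zero_norm (a := fun y => ‖a y‖) (fun y => ?_) ?_
    · rw [norm_mul]
      exact mul_le_of_le_one_left (norm_nonneg _) (hs y)
    · simpa [h] using ha.norm.tendsto

/-- The plane is unicoherent. -/
theorem unicoherent {U V : Set ℂ} (hU : IsOpen U) (hV : IsOpen V) (cU : IsPreconnected U)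
    (cV : IsPreconnected V) (h : U ∪ V = univ) : IsPreconnected (U ∩ V) := by
  classical
  rw [isPreconnected_iff_subset_of_disjoint]
  intro P Q hP hQ hc hd
  by_contra hcon
  push Not at hcon
  obtain ⟨q, hq, hqP⟩ := not_subset.1 hcon.1
  obtain ⟨p, hp, hpQ⟩ := not_subset.1 hcon.2
  have hqQ : q ∈ Q := (hc hq).resolve_left hqP
  obtain ⟨l, l0, l1, -⟩ := exists_continuous_zero_one_of_isClosed hU.isClosed_compl
    hV.isClosed_compl (by rw [disjoint_iff_inter_eq_empty, ← compl_union, h, compl_univ])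
  let s : ℂ → ℂ := fun x => if x ∈ Q then -1 else 1
  let b : ℂ → ℂ := fun x => (l x : ℝ)
  let a : ℂ → ℂ := fun x => 1 - b x
  have hb : Continuous b := continuous_ofReal.comp l.continuous
  have ha : Continuous a := continuous_const.sub hb
  have s1 : ∀ y, ‖s y‖ ≤ 1 := fun y => by
    by_cases e : y ∈ Q <;> simp [s, e]
  have s2 : ∀ y, s y ^ 2 = 1 := fun y => by
    by_cases e : y ∈ Q <;> simp [s, e]
  have s3 : ∀ x ∈ U ∩ V, ContinuousAt s x := by
    intro x hx
    by_cases e : x ∈ Q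
    · refine (continuousAt_const (y := (-1 : ℂ))).congr ?_
      filter_upwards [hQ.mem_nhds e] with y hy using by simp [s, hy]
    · refine (continuousAt_const (y := (1 : ℂ))).congr ?_
      filter_upwards [hP.mem_nhds ((hc hx).resolve_right e), (hU.inter hV).mem_nhds hx] with y h1 h2
      have : y ∉ Q := fun h3 => (eq_empty_iff_forall_notMem.1 hd) y ⟨h2, h1, h3⟩
      simp [s, this]
  have a0 : ∀ x ∉ V, a x = 0 := fun x hx => by simp [a, b, l1 hx]
  have b0 : ∀ x ∉ U, b x = 0 := fun x hx => by simp [b, l0 hx]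
  let u : ℂ → ℂ := fun x => s x * a x + I * b x
  let v : ℂ → ℂ := fun x => a x + I * (s x * b x)
  have huv : ∀ x, u x ^ 2 = v x ^ 2 := fun x => by
    simp only [u, v]
    linear_combination (a x ^ 2 - I ^ 2 * b x ^ 2) * s2 x
  have hu : ∀ x ∈ U, ContinuousAt u x := fun x hx =>
    (contAt_sign s1 ha.continuousAt (by
      by_cases e : x ∈ V
      · exact Or.inl (s3 x ⟨hx, e⟩)
      · exact Or.inr (a0 x e))).add (continuousAt_const.mul hb.continuousAt)
  have hv : ∀ x ∈ V, ContinuousAt v x := fun x hx =>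
    ha.continuousAt.add (continuousAt_const.mul (contAt_sign s1 hb.continuousAt (by
      by_cases e : x ∈ U
      · exact Or.inl (s3 x ⟨e, hx⟩)
      · exact Or.inr (b0 x e))))
  have u0 : ∀ x, u x ≠ 0 := fun x e => by
    have e1 := congrArg re e
    have e2 := congrArg im e
    by_cases e' : x ∈ Q <;> simp [u, s, a, b, e'] at e1 e2 <;> linarith
  have hf : Continuous fun x => u x ^ 2 := continuous_iff_continuousAt.2 fun x => by
    rcases (h.symm ▸ mem_univ x : x ∈ U ∪ V) with e | e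
    · exact (hu x e).pow 2
    · simp only [huv]
      exact (hv x e).pow 2
  obtain ⟨g, g1, g2, g3⟩ := exists_sqrt hf (fun x => pow_ne_zero 2 (u0 x)) p rfl
  have e1 := sq_conn cU g1.continuousOn (fun x hx => (hu x hx).continuousWithinAt)
    (fun x _ => g2 x) (fun x _ => u0 x) hp.1 g3 q hq.1
  have e2 := sq_conn cV g1.continuousOn (fun x hx => (hv x hx).continuousWithinAt)
    (fun x _ => (g2 x).trans (huv x)) (fun x _ e => u0 x (by
      have := huv x
      rw [e] at this
      simpa using this)) hp.2 (by rw [g3]; simp [u, v, s, hpQ]) q hq.2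
  refine u0 q ?_
  simp only [u, v, s, if_pos hqQ] at e1 e2 ⊢
  linear_combination (e2 - e1) / 2

theorem tame_arc {α : ℝ → ℂ} (hα : Continuous α) {a b : ℝ} (hab : a ≤ b)
    (hi : InjOn α (Icc a b)) : Tame (α '' Icc a b) := by
  refine ⟨isCompact_Icc.image hα, isPreconnected_Icc.image _ hα.continuousOn, fun w hw => ?_⟩
  obtain ⟨g, g1, g2, -⟩ := exists_sqrt (A := ℝ) (f := fun s => α (projIcc a b hab s) - w)
    (by fun_prop) (fun s => sub_ne_zero.2 fun e => hw ⟨_, (projIcc a b hab s).2, e⟩) 0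
    (sqrt_sq' _)
  have hl : ∀ s ∈ Icc a b, invFunOn α (Icc a b) (α s) = s := fun s hs => hi.leftInvOn_invFunOn hs
  refine ⟨fun x => g (invFunOn α (Icc a b) x), continuousOn_iff_isClosed.2 fun T hT =>
    ⟨α '' (Icc a b ∩ g ⁻¹' T), ((isCompact_Icc.inter_right (hT.preimage g1)).image hα).isClosed,
      ?_⟩, ?_⟩
  · ext x
    constructor
    · rintro ⟨h1, s, hs, rfl⟩
      exact ⟨⟨s, ⟨hs, by simpa [hl s hs] using h1⟩, rfl⟩, s, hs, rfl⟩
    · rintro ⟨⟨s, hs, rfl⟩, h2⟩
      exact ⟨by simpa [hl s hs.1] using hs.2, h2⟩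
  · rintro _ ⟨s, hs, rfl⟩
    simp only [hl s hs, g2, projIcc_of_mem hab hs]

theorem rt_cont {C : Set ℂ} (hC : Convex ℝ C) {q x : ℂ} (hq : q ∈ C) (hx : x ∉ C) :
    ContinuousOn (fun p => rt p q x) C := fun _ hp =>
  ContinuousAt.continuousWithinAt (tendsto_rt tendsto_id tendsto_const_nhds tendsto_const_nhds
    fun e => hx (hC.segment_subset hp hq e))

theorem rt_ne {p q x : ℂ} (hp : p ≠ x) (hq : q ≠ x) : rt p q x ≠ 0 := fun e => by
  have := rt_sq p q x
  rw [e] at this
  exact div_ne_zero (sub_ne_zero.2 hp) (sub_ne_zero.2 hq) (by simpa using this.symm)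

theorem rt_mul {C : Set ℂ} (hC : Convex ℝ C) {p q s x : ℂ} (hp : p ∈ C) (hq : q ∈ C) (hs : s ∈ C)
    (hx : x ∉ C) : rt q s x * rt p q x = rt p s x := by
  have n : ∀ u ∈ C, u ≠ x := fun u hu e => hx (e ▸ hu)
  refine sq_conn hC.isPreconnected (f := fun p => rt q s x * rt p q x) (g := fun p => rt p s x)
    (continuousOn_const.mul (rt_cont hC hq hx)) (rt_cont hC hs hx) (fun u _ => ?_)
    (fun u hu => rt_ne (n u hu) (n s hs)) hq (by simp only [rt_self (n q hq), mul_one]) p hp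
  have := sub_ne_zero.2 (n q hq)
  rw [mul_pow, rt_sq, rt_sq, rt_sq]
  field_simp

theorem root_seg {A : Set ℂ} {w y : ℂ} (h : ∀ z ∈ segment ℝ w y, z ∉ A) (hr : Root A y) :
    Root A w := by
  obtain ⟨f, hf⟩ := hr
  refine ⟨fun z => f z * rt w y z, hf.1.mul fun z hz => ContinuousAt.continuousWithinAt ?_,
    fun z hz => mul_rt_sq' (fun e => h y (right_mem_segment ℝ w y) (e ▸ hz)) (hf.2 z hz)⟩
  exact tendsto_rt tendsto_const_nhds tendsto_const_nhds tendsto_id fun e => h z e hz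

/-- A path connected plane continuum with connected complement, in normal position. -/
structure NS (K : Set ℂ) : Prop where
  cpt : IsCompact K
  path : IsPathConnected K
  zero : (0 : ℂ) ∈ K
  ball : K ⊆ closedBall (-1) 1
  compl : IsPreconnected Kᶜ

variable {K : Set ℂ}

theorem NS.ineq (hK : NS K) {z : ℂ} (hz : z ∈ K) : z.re ^ 2 + 2 * z.re + z.im ^ 2 ≤ 0 := by
  have h := hK.ball hz
  rw [mem_closedBall_iff_norm, ← sq_le_one_iff₀ (norm_nonneg _), Complex.sq_norm,
    normSq_apply] at h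
  simp at h
  nlinarith

theorem NS.re_le (hK : NS K) {z : ℂ} (hz : z ∈ K) : z.re ≤ 0 := by
  nlinarith [hK.ineq hz]

theorem NS.eq_zero (hK : NS K) {z : ℂ} (hz : z ∈ K) (h : 0 ≤ z.re) : z = 0 := by
  have h1 := le_antisymm (hK.re_le hz) h
  have h2 := hK.ineq hz
  rw [h1] at h2
  exact Complex.ext h1 (by simpa using (by nlinarith : z.im ^ 2 = 0))

theorem NS.ray (hK : NS K) : K ∩ Ray ⊆ {0} := fun _ h => hK.eq_zero h.1 h.2.1

theorem NS.not_ray (hK : NS K) {y : ℂ} (hy : y ∈ K) (h0 : y ≠ 0) : y ∉ Ray :=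
  fun e => h0 (hK.ray ⟨hy, e⟩)

theorem NS.tame (hK : NS K) : Tame K := by
  refine ⟨hK.cpt, hK.path.isConnected.isPreconnected, fun w hw => ?_⟩
  have h1 : (1 : ℂ) ∉ K := fun e => by simpa using (hK.re_le e).trans_lt one_pos
  refine hK.compl.induction₂' (fun a b => Root K a → Root K b) (fun x hx => ?_)
    (fun _ _ _ _ _ _ h h' => h' ∘ h) h1 hw ⟨fun z => I * sqrt (1 - z), fun z hz => ?_, fun z _ => ?_⟩
  · filter_upwards [nhdsWithin_le_nhds (ev_segment hK.cpt.isClosed hx tendsto_id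
      tendsto_const_nhds)] with y hy
    exact ⟨root_seg hy, root_seg (by rwa [segment_symm])⟩
  · refine (continuousAt_const.mul (ContinuousAt.comp (f := fun z : ℂ => 1 - z)
      (contAt_sqrt (Or.inl ?_)) (by fun_prop))).continuousWithinAt
    simpa using (hK.re_le hz).trans_lt one_pos
  · rw [mul_pow, I_sq, sqrt_sq']
    ring

end Pool.Agent.Lib.BD5
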