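import Pool.Agent.Lib.BD5.Tower

set_option autoImplicit false

open Set Topology Filter Function Metric

namespace Pool.Agent.Lib.BD5

open Pool.Agent.Lib.MP_1126ca_gt

/-- Recompute the first `n` coordinates from coordinate `n`. -/
def dn (φ : ℕ → ℝ → ℝ) : ℕ → (ℕ → ℝ) → ℕ → ℝ
  | 0, x => x
  | n + 1, x => dn φ n (update x n (φ n (x (n + 1))))

/-- Threads up to level `n`. -/
def Th (φ : ℕ → ℝ → ℝ) (n : ℕ) : Set (ℕ → ℝ) :=
  {x | (∀ k, x k ∈ Icc (0 : ℝ) 1) ∧ ∀ k < n, x k = φ k (x (k + 1))}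

/-- The inverse limit. -/
def Lim (φ : ℕ → ℝ → ℝ) : Set (ℕ → ℝ) :=
  {x | (∀ k, x k ∈ Icc (0 : ℝ) 1) ∧ ∀ k, x k = φ k (x (k + 1))}

variable {φ : ℕ → ℝ → ℝ}

theorem dn_cont (h : ∀ k, Continuous (φ k)) : ∀ n, Continuous (dn φ n)
  | 0 => continuous_id
  | n + 1 => (dn_cont h n).comp (continuous_id.update n ((h n).comp (continuous_apply _)))

theorem dn_ge : ∀ n x k, n ≤ k → dn φ n x k = x k
  | 0, _, _, _ => rfl
  | n + 1, x, k, h => by rw [dn, dn_ge n _ k (by omega), update_of_ne (by omega)]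

theorem dn_mem (h : ∀ k, MapsTo (φ k) (Icc 0 1) (Icc 0 1)) :
    ∀ n x, (∀ k, x k ∈ Icc (0 : ℝ) 1) → dn φ n x ∈ Th φ n
  | 0, _, hx => ⟨hx, by simp⟩
  | n + 1, x, hx => by
    obtain ⟨h1, h2⟩ := dn_mem h n (update x n (φ n (x (n + 1)))) fun k => by
      by_cases e : k = n
      · rw [e, update_self]
        exact h n (hx _)
      · rw [update_of_ne e]
        exact hx k
    refine ⟨h1, fun k hk => ?_⟩
    rcases (Nat.lt_succ_iff.1 hk).eq_or_lt with rfl | e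
    · rw [dn, dn_ge _ _ _ le_rfl, dn_ge _ _ _ (Nat.le_succ k), update_self, update_of_ne (by omega)]
    · exact h2 k e

theorem dn_self : ∀ n, ∀ x ∈ Th φ n, dn φ n x = x
  | 0, _, _ => rfl
  | n + 1, x, hx => by
    rw [dn, ← hx.2 n (Nat.lt_succ_self n), update_eq_self]
    exact dn_self n x ⟨hx.1, fun k hk => hx.2 k (hk.trans (Nat.lt_succ_self n))⟩

theorem lim_cont (hc : ∀ k, Continuous (φ k)) (h : ∀ k, MapsTo (φ k) (Icc 0 1) (Icc 0 1)) :
    IsCompact (Lim φ) ∧ IsPreconnected (Lim φ) := by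
  have e : Lim φ = ⋂₀ range (Th φ) := by
    ext x
    simp only [sInter_range, mem_iInter]
    exact ⟨fun hx n => ⟨hx.1, fun k _ => hx.2 k⟩,
      fun hx => ⟨(hx 0).1, fun k => (hx (k + 1)).2 k (Nat.lt_succ_self k)⟩⟩
  have e' : ∀ n, Th φ n = dn φ n '' univ.pi fun _ => Icc 0 1 := fun n => Subset.antisymm
    (fun x hx => ⟨x, fun k _ => hx.1 k, dn_self n x hx⟩) (by
      rintro _ ⟨x, hx, rfl⟩
      exact dn_mem h n x fun k => hx k trivial)
  have hk : ∀ C ∈ range (Th φ), IsCompact C := by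
    rintro _ ⟨n, rfl⟩
    exact e' n ▸ (isCompact_univ_pi fun _ => isCompact_Icc).image (dn_cont hc n)
  rw [e]
  refine ⟨chain_compact (range_nonempty _) hk, chain_preconnected (range_nonempty _) ?_ hk ?_⟩
  · rintro _ ⟨n, rfl⟩ _ ⟨m, rfl⟩ -
    exact (le_total m n).imp (fun e x hx => ⟨hx.1, fun k hk => hx.2 k (hk.trans_le e)⟩)
      fun e x hx => ⟨hx.1, fun k hk => hx.2 k (hk.trans_le e)⟩
  · rintro _ ⟨n, rfl⟩
    exact e' n ▸ (isPreconnected_univ_pi fun _ => isPreconnected_Icc).image _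
      (dn_cont hc n).continuousOn

theorem lim_surj (h : ∀ k, MapsTo (φ k) (Icc 0 1) (Icc 0 1))
    (hs : ∀ k, SurjOn (φ k) (Icc 0 1) (Icc 0 1)) (n : ℕ) {t : ℝ} (ht : t ∈ Icc (0 : ℝ) 1) :
    ∃ x ∈ Lim φ, x n = t := by
  choose! s s1 s2 using fun k t (ht : t ∈ Icc (0 : ℝ) 1) => hs k ht
  let u : ℕ → ℝ := fun d => Nat.rec t (fun d r => s (n + d) r) d
  have hu : ∀ d, u d ∈ Icc (0 : ℝ) 1 := fun d => Nat.rec ht (fun d ih => s1 (n + d) _ ih) d
  obtain ⟨h1, h2⟩ := dn_mem h n (fun k => u (k - n)) fun k => hu _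
  refine ⟨_, ⟨h1, fun k => ?_⟩, by rw [dn_ge _ _ _ le_rfl, Nat.sub_self]; rfl⟩
  rcases lt_or_ge k n with e | e
  · exact h2 k e
  · obtain ⟨d, rfl⟩ := Nat.exists_eq_add_of_le e
    rw [dn_ge _ _ _ e, dn_ge _ _ _ (by omega), show n + d + 1 - n = d + 1 by omega,
      Nat.add_sub_cancel_left]
    exact (s2 (n + d) _ (hu d)).symm

theorem lim_ap (n : ℕ) : Continuous fun x : Lim φ => x.1 n :=
  (continuous_apply n).comp continuous_subtype_val

theorem lim_good (hK : IsCompact (Lim φ)) {D : Lim φ → Lim φ → ℝ} (hD : PM D) {ε : ℝ} (hε : 0 < ε) :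
    ∃ n, ∀ x y : Lim φ, x.1 n = y.1 n → D x y < ε := by
  by_contra hcon
  push Not at hcon
  have := isCompact_iff_compactSpace.1 hK
  let F : ℕ → Set (Lim φ × Lim φ) := fun n => {p | p.1.1 n = p.2.1 n} ∩ {p | ε ≤ uncurry D p}
  have hF : ∀ n, IsClosed (F n) := fun n =>
    (isClosed_eq ((lim_ap n).comp continuous_fst) ((lim_ap n).comp continuous_snd)).inter
      (isClosed_le continuous_const hD.cont)
  obtain ⟨p, hp⟩ := IsCompact.nonempty_iInter_of_sequence_nonempty_isCompact_isClosed F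
    (fun n p hp => ⟨(p.1.2.2 n).trans ((congrArg (φ n) hp.1).trans (p.2.2.2 n).symm), hp.2⟩)
    (fun n => by
      obtain ⟨x, y, h1, h2⟩ := hcon n
      exact ⟨(x, y), h1, h2⟩) (hF 0).isCompact hF
  rw [mem_iInter] at hp
  have h1 : ε ≤ D p.1 p.2 := (hp 0).2
  rw [show p.1 = p.2 from Subtype.ext (funext fun n => (hp n).1), hD.self] at h1
  exact hε.not_ge h1

theorem eq_of_geo {E : Type} [MetricSpace E] {a b : E} {C : ℝ} {N : ℕ}
    (h : ∀ k ≥ N, dist a b ≤ C / 2 ^ k) : a = b :=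
  dist_le_zero.1 (ge_of_tendsto (tendsto_const_nhds.div_atTop
    (tendsto_pow_atTop_atTop_of_one_lt one_lt_two)) (eventually_atTop.2 ⟨N, h⟩))

/-- A chainable continuum is the image of a chainable continuum with an end point over `y 0` and
with intervals over the points `y (j + 1)`. -/
theorem blowup {Y : Type} [MetricSpace Y] [CompactSpace Y] [ConnectedSpace Y]
    (hY : ∀ ε : ℝ, 0 < ε → ∃ g : Y → ℝ, Continuous g ∧ ∀ y y' : Y, g y = g y' → dist y y' < ε)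
    {f : Y → ℂ} (hf : Continuous f) (y : ℕ → Y) :
    ∃ (X : Type) (_ : TopologicalSpace X), CompactSpace X ∧ T2Space X ∧ ConnectedSpace X ∧
      ∃ (e : X) (q : X → ℂ) (r : X → ℝ) (α β : ℕ → ℝ), Continuous q ∧ Continuous r ∧
        (∀ D, PM D → ∀ ε > 0, ∃ g : X → ℝ, Continuous g ∧ (∀ x, g e ≤ g x) ∧
          ∀ x x', g x = g x' → D x x' < ε) ∧ q e = f (y 0) ∧ (∀ x, q x ∈ range f) ∧
        (∀ j, α j < β j) ∧ (∀ j k, j < k → β j ≤ α k) ∧ (∀ j, Icc (α j) (β j) ⊆ range r) ∧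
        (∀ j x, r x ∈ Ioo (α j) (β j) → q x = f (y (j + 1))) ∧
        ∀ z, ∃ x, q x = f z ∧ ∀ j, β j ≤ r x := by
  obtain ⟨S₀, h₀⟩ := exists_start hf hY (y 0)
  choose nx φ' α' β' n1 n2 using fun (k : ℕ) (S : St Y) (h : Ok f (y 0) (1 / 2 ^ k) S) =>
    h.step hf hY (y (k + 1))
  let T : ∀ k : ℕ, {S : St Y // Ok f (y 0) (1 / 2 ^ k) S} := fun k => Nat.rec ⟨S₀, by simpa using h₀⟩
    (fun k S => ⟨nx k S.1 S.2, by
      rw [pow_succ, ← div_div]
      exact n1 k S.1 S.2⟩) k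
  obtain ⟨S, φ, α, β, ok, nxt⟩ : ∃ (S : ℕ → St Y) (φ : ℕ → ℝ → ℝ) (α β : ℕ → ℝ),
      (∀ k, Ok f (y 0) (1 / 2 ^ k) (S k)) ∧
        ∀ k, Nxt (1 / 2 ^ k) (y (k + 1)) (S k) (S (k + 1)) (φ k) (α k) (β k) :=
    ⟨fun k => (T k).1, fun k => φ' k _ (T k).2, fun k => α' k _ (T k).2, fun k => β' k _ (T k).2,
      fun k => (T k).2, fun k => n2 k _ (T k).2⟩
  have hm : ∀ k, MapsTo (φ k) (Icc 0 1) (Icc 0 1) := fun k s hs => ((nxt k).app s hs).1
  have hs : ∀ k, SurjOn (φ k) (Icc 0 1) (Icc 0 1) := fun k => by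
    have := intermediate_value_Icc zero_le_one (nxt k).cont.continuousOn
    rwa [(nxt k).zero, (nxt k).one] at this
  obtain ⟨hK, hC⟩ := lim_cont (fun k => (nxt k).cont) hm
  have cK := isCompact_iff_compactSpace.1 hK
  let e : Lim φ := ⟨fun _ => 0, by simp, fun k => (nxt k).zero.symm⟩
  let e' : Lim φ := ⟨fun _ => 1, by simp, fun k => (nxt k).one.symm⟩
  have cC : ConnectedSpace (Lim φ) := isConnected_iff_connectedSpace.1 ⟨⟨_, e.2⟩, hC⟩
  have four : ∀ k : ℕ, (2 : ℝ) * (1 / 2 ^ k) = 4 / 2 / 2 ^ k := fun k => by ring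
  obtain ⟨q, q1, q2⟩ := exists_limit (u := fun k (x : Lim φ) => (S k).p (x.1 k))
    (fun k => (ok k).p_cont.comp (lim_ap k)) (C := 4) fun k x => by
      rw [x.2.2 k, ← four]
      exact ((nxt k).app _ (x.2.1 _)).2.2
  obtain ⟨r, r1, r2⟩ := exists_limit (u := fun k (x : Lim φ) => x.1 k) lim_ap
    (C := 4) fun k x => by
      rw [x.2.2 k, ← four]
      exact ((nxt k).app _ (x.2.1 _)).2.1
  have near : ∀ k (x : Lim φ) z, |(S k).ψ (x.1 k) - (S k).g z| ≤ (S k).γ / 10 →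
      dist (q x) (f z) ≤ 5 / 2 ^ k := fun k x z h => by
    have h1 : dist ((S k).p (x.1 k)) (f z) ≤ 1 / 2 ^ k := (ok k).tol z _ (by linarith [(ok k).γ])
    have h2 := dist_triangle_left (q x) (f z) ((S k).p (x.1 k))
    have h3 : (5 : ℝ) / 2 ^ k = 4 / 2 ^ k + 1 / 2 ^ k := by ring
    linarith [q2 k x]
  have mono : Monotone fun k => (S k).σ := monotone_nat_of_le_succ fun k =>
    (nxt k).c1.trans ((nxt k).c2.le.trans (nxt k).c3)
  have core : ∀ j, ∀ s ∈ Icc (α j) (β j), ∀ k, j + 1 ≤ k → (S k).κ s = {y (j + 1)} := by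
    intro j s hs k hk
    induction k, hk using Nat.le_induction with
    | base => exact (nxt j).core s hs
    | succ k hk ih => rw [(nxt k).out s (hs.2.trans ((nxt j).c3.trans (mono hk))), ih]
  have geo : Tendsto (fun k : ℕ => (4 : ℝ) / 2 ^ k) atTop (𝓝 0) :=
    tendsto_const_nhds.div_atTop (tendsto_pow_atTop_atTop_of_one_lt one_lt_two)
  refine ⟨Lim φ, inferInstance, cK, inferInstance, cC, e, q, r, α, β, q1, r1, fun D hD ε hε => ?_,
    eq_of_geo (C := 5) (N := 0) fun k _ => ?_, fun x => ?_, fun j => (nxt j).c2,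
    fun j k h => (nxt j).c3.trans ((mono h).trans (nxt k).c1), fun j => ?_, fun j x hx => ?_,
    fun z => ?_⟩
  · obtain ⟨n, hn⟩ := lim_good hK hD hε
    exact ⟨fun x => x.1 n, lim_ap n, fun x => (x.2.1 n).1, hn⟩
  · obtain ⟨z, h1, h2⟩ := (ok k).near 0
    rw [(ok k).k0] at h1
    exact near k e _ (h1 ▸ h2)
  · rw [← (isCompact_range hf).isClosed.closure_eq, Metric.mem_closure_iff]
    intro ε hε
    obtain ⟨k, hk⟩ := ((tendsto_const_nhds (x := (5 : ℝ))).div_atTop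
      (tendsto_pow_atTop_atTop_of_one_lt one_lt_two)).eventually (gt_mem_nhds hε) |>.exists
    obtain ⟨z, -, h2⟩ := (ok k).near (x.1 k)
    exact ⟨_, ⟨z, rfl⟩, (near k x z h2).trans_lt hk⟩
  · have h0 : r e = 0 := (eq_of_geo (N := 0) fun k _ => r2 k e).symm
    have h1 : r e' = 1 := (eq_of_geo (N := 0) fun k _ => r2 k e').symm
    refine (Icc_subset_Icc ?_ ?_).trans (intermediate_value_univ e e' r1)
    · exact h0 ▸ (ok j).t0.trans (nxt j).c1
    · have := (ok (j + 1)).t1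
      have h2 : (0 : ℝ) ≤ 4 / (S (j + 1)).M := by positivity
      linarith [(nxt j).c3, (ok (j + 1)).t2]
  · have h1 : Tendsto (fun k => x.1 k) atTop (𝓝 (r x)) :=
      tendsto_iff_dist_tendsto_zero.2 (squeeze_zero (fun _ => dist_nonneg) (fun k => r2 k x) geo)
    obtain ⟨N, hN⟩ := eventually_atTop.1 (h1.eventually (isOpen_Ioo.mem_nhds hx))
    refine eq_of_geo (C := 5) (N := max N (j + 1)) fun k hk => ?_
    obtain ⟨z, h2, h3⟩ := (ok k).near (x.1 k)
    rw [core j _ (Ioo_subset_Icc_self (hN k (le_of_max_le_left hk))) k (le_of_max_le_right hk)] at h2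
    exact near k x _ (h2 ▸ h3)
  · let F : ℕ → Set (Lim φ) := fun k => {x | dist (q x) (f z) ≤ 5 / 2 ^ k} ∩
      {x | (S k).σ - 4 / 2 ^ k ≤ r x}
    have hF : ∀ k, IsClosed (F k) := fun k =>
      (isClosed_le (by fun_prop) continuous_const).inter (isClosed_le continuous_const r1)
    have half : ∀ (c : ℝ) (k : ℕ), 0 ≤ c → c / 2 ^ (k + 1) ≤ c / 2 ^ k := fun c k hc =>
      div_le_div_of_nonneg_left hc (by positivity) (pow_le_pow_right₀ one_le_two (Nat.le_succ k))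
    obtain ⟨x, hx⟩ := IsCompact.nonempty_iInter_of_sequence_nonempty_isCompact_isClosed F
      (fun k x hx => ⟨le_trans hx.1 (half 5 k (by norm_num)), le_trans
        (sub_le_sub (mono (Nat.le_succ k)) (half 4 k (by norm_num))) hx.2⟩) (fun k => by
        have a1 := (ok k).t0
        have a2 := (ok k).t1
        have a3 := (ok k).t2
        have a4 : (4 : ℝ) / (S k).M = 2 * (2 / (S k).M) := by ring
        have a5 : (0 : ℝ) ≤ 2 / (S k).M := by positivity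
        obtain ⟨s, b1, b2⟩ := (ok k).hit (s₀ := (S k).σ + 2 / (S k).M) (y := z) (by linarith)
          (by linarith) (by rw [(ok k).tail _ ⟨by linarith, by linarith⟩]; trivial)
        have b3 := abs_le.1 b1
        obtain ⟨x, b4, rfl⟩ := lim_surj hm hs k (t := s) ⟨by linarith [b3.1], by linarith [b3.2]⟩
        have b5 := abs_le.1 (r2 k ⟨x, b4⟩)
        exact ⟨⟨x, b4⟩, near k ⟨x, b4⟩ z b2, by
          simp only [mem_ofPred_eq]
          linarith [b3.1, b5.2]⟩) (hF 0).isCompact hF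
    rw [mem_iInter] at hx
    refine ⟨x, eq_of_geo (N := 0) fun k _ => (hx k).1, fun j => ?_⟩
    have : Tendsto (fun k : ℕ => β j - 4 / 2 ^ k) atTop (𝓝 (β j - 0)) := tendsto_const_nhds.sub geo
    rw [sub_zero] at this
    refine le_of_tendsto this (eventually_atTop.2 ⟨j + 1, fun k hk => le_trans ?_ (hx k).2⟩)
    linarith [(nxt j).c3, mono hk]

end Pool.Agent.Lib.BD5
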