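import Pool.Agent.Lib.MP_1126ca_gt.Chain

set_option autoImplicit false

open Set Topology Filter Function Metric

namespace Pool.Agent.Lib.BD5

open Pool.Agent.Lib.MP_1126ca_gt

theorem bump' {X : Type} [TopologicalSpace X] [T2Space X] {N W : Set X} (hN : IsCompact N)
    (hp : IsPreconnected N) (hW : IsClosed W) {ν : X} (hν : ν ∈ N ∩ W)
    (h : connectedComponentIn (N ∩ W) ν ⊆ interior W) : N ⊆ W := by
  obtain ⟨P, Q, hP, hQ, hPQ, hd, hνP, hG⟩ := exists_split (G := (interior W)ᶜ) (hN.inter_right hW)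
    hν isOpen_interior.isClosed_compl (Set.disjoint_left.2 fun κ hκ hκ' => hκ' (h hκ))
  rcases isPreconnected_iff_subset_of_disjoint_closed.1 hp P (Q ∪ (interior W)ᶜ) hP.isClosed
    (hQ.isClosed.union isOpen_interior.isClosed_compl) (by
      intro κ hκ
      by_cases h : κ ∈ interior W
      · have : κ ∈ P ∪ Q := hPQ ▸ ⟨hκ, interior_subset h⟩
        exact this.imp id Or.inl
      · exact Or.inr (Or.inr h)) (by
      rw [eq_empty_iff_forall_notMem]
      rintro κ ⟨-, a1, a2 | a2⟩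
      · exact Set.disjoint_left.1 hd a1 a2
      · exact Set.disjoint_left.1 hG a1 a2) with h | h
  · exact fun κ hκ => (hPQ ▸ Or.inl (h hκ) : κ ∈ N ∩ W).2
  · rcases h hν.1 with a | a
    · exact absurd a (Set.disjoint_left.1 hd hνP)
    · exact absurd a (Set.disjoint_left.1 hG hνP)

variable {Y : Type} [MetricSpace Y]

theorem between {D E : Set Y} (hD : IsCompact D) (cD : IsPreconnected D) (hE : IsCompact E)
    (cE : IsPreconnected E) {d : Y} (hd : d ∈ D) (h : D ⊆ E) (hne : ¬ E ⊆ D) :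
    ∃ C, IsCompact C ∧ IsPreconnected C ∧ D ⊆ C ∧ C ⊆ E ∧ ¬ C ⊆ D ∧ ¬ E ⊆ C := by
  obtain ⟨p, hp, hpD⟩ := not_subset.1 hne
  obtain ⟨δ, hδ, hW⟩ := hD.exists_cthickening_subset_open isOpen_compl_singleton
    (subset_compl_singleton_iff.2 hpD)
  have h1 : D ⊆ E ∩ cthickening δ D := subset_inter h (self_subset_cthickening D)
  refine ⟨connectedComponentIn (E ∩ cthickening δ D) d, compact_component
    (hE.inter_right isClosed_cthickening) d, isPreconnected_connectedComponentIn,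
    cD.subset_connectedComponentIn hd h1, (connectedComponentIn_subset _ _).trans inter_subset_left,
    fun e => hW (bump' hE cE isClosed_cthickening (h1 hd) (e.trans ?_) hp) rfl,
    fun e => hW (connectedComponentIn_subset _ _ (e hp)).2 rfl⟩
  exact (self_subset_thickening hδ D).trans (thickening_subset_interior_cthickening δ D)

theorem exists_whitney [CompactSpace Y] [Nonempty Y] : ∃ μ : Set Y → ℝ,
    (∀ C C' : Set Y, C.Nonempty → C'.Nonempty → ∀ ε > 0, C' ⊆ thickening ε C → μ C ≤ μ C' + 2 * ε) ∧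
    (∀ C C' : Set Y, C.Nonempty → C ⊆ C' → μ C' ≤ μ C) ∧
    ∀ ε > 0, ∃ η > 0, ∀ C C' : Set Y, C.Nonempty → C ⊆ C' → μ C < μ C' + η →
      C' ⊆ thickening ε C := by
  let x := TopologicalSpace.denseSeq Y
  have hs : ∀ C : Set Y, Summable fun n => (1 / 2 : ℝ) ^ n * infDist (x n) C := fun C =>
    Summable.of_nonneg_of_le (fun n => mul_nonneg (by positivity) infDist_nonneg) (fun n => by
      refine mul_le_mul_of_nonneg_left ?_ (by positivity)
      rcases C.eq_empty_or_nonempty with rfl | ⟨c, hc⟩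
      · simpa using diam_nonneg (s := (univ : Set Y))
      · exact (infDist_le_dist_of_mem hc).trans (dist_le_diam_of_mem isCompact_univ.isBounded
          (mem_univ _) (mem_univ _))) (summable_geometric_two.mul_right (diam (univ : Set Y)))
  refine ⟨fun C => ∑' n, (1 / 2 : ℝ) ^ n * infDist (x n) C, fun C C' h1 h2 ε hε h => ?_,
    fun C C' h1 h => (hs C').tsum_le_tsum (fun n => mul_le_mul_of_nonneg_left
      (infDist_le_infDist_of_subset h h1) (by positivity)) (hs C), fun ε hε => ?_⟩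
  · have e : 2 * ε = ∑' n : ℕ, (1 / 2 : ℝ) ^ n * ε := by rw [tsum_mul_right, tsum_geometric_two]
    simp only
    rw [e, ← (hs C').tsum_add (summable_geometric_two.mul_right ε)]
    refine (hs C).tsum_le_tsum (fun n => ?_) ((hs C').add (summable_geometric_two.mul_right ε))
    rw [← mul_add]
    refine mul_le_mul_of_nonneg_left (sub_le_iff_le_add.1 ((le_infDist h2).2 fun p hp => ?_))
      (by positivity)
    have := (mem_thickening_iff_infDist_lt h1).1 (h hp)
    linarith [infDist_le_infDist_add_dist (s := C) (x := x n) (y := p)]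
  · obtain ⟨T, hT⟩ := isCompact_univ.elim_finite_subcover (fun n => ball (x n) (ε / 4))
      (fun _ => isOpen_ball) fun p _ => by
        obtain ⟨n, hn⟩ := (TopologicalSpace.denseRange_denseSeq Y).exists_dist_lt p
          (by positivity : 0 < ε / 4)
        exact mem_iUnion.2 ⟨n, hn⟩
    refine ⟨(1 / 2) ^ T.sup id * (ε / 2), by positivity, fun C C' h1 h2 h3 p hp => ?_⟩
    by_contra h4
    rw [mem_thickening_iff_infDist_lt h1, not_lt] at h4
    obtain ⟨n, hn, h5⟩ := mem_iUnion₂.1 (hT (mem_univ p))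
    rw [mem_ball] at h5
    have h6 : ε / 2 ≤ infDist (x n) C - infDist (x n) C' := by
      linarith [infDist_le_infDist_add_dist (s := C) (x := p) (y := x n),
        infDist_le_dist_of_mem (x := x n) hp, dist_comm p (x n)]
    have h7 := ((hs C).sub (hs C')).le_tsum n fun k _ => sub_nonneg.2 (mul_le_mul_of_nonneg_left
      (infDist_le_infDist_of_subset h2 h1) (by positivity))
    rw [(hs C).tsum_sub (hs C'), ← mul_sub] at h7
    have h8 : (1 / 2 : ℝ) ^ T.sup id ≤ (1 / 2) ^ n :=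
      pow_le_pow_of_le_one (by norm_num) (by norm_num) (Finset.le_sup (f := id) hn)
    have h9 := mul_le_mul h8 h6 (by positivity) (by positivity)
    linarith

/-- A continuous family of subcontinua. -/
structure Fam (κ : ℝ → Set Y) : Prop where
  cpt : ∀ s, IsCompact (κ s)
  conn : ∀ s, IsConnected (κ s)
  cont : ∀ s, ∀ ε > 0, ∀ᶠ t in 𝓝 s, κ t ⊆ thickening ε (κ s) ∧ κ s ⊆ thickening ε (κ t)

theorem exists_order_arc [CompactSpace Y] [ConnectedSpace Y] (y : Y) : ∃ κ : ℝ → Set Y, Fam κ ∧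
    (∀ s ≤ 0, κ s = {y}) ∧ ∀ s ≥ 1, κ s = univ := by
  obtain ⟨μ, m1, m2, m3⟩ := exists_whitney (Y := Y)
  obtain ⟨𝒞, -, hm⟩ := zorn_subset_nonempty {𝒞 : Set (Set Y) | IsChain (· ⊆ ·) 𝒞 ∧
      ∀ C ∈ 𝒞, IsCompact C ∧ IsPreconnected C ∧ y ∈ C} (fun c h1 h2 _ => ⟨⋃₀ c, ⟨by
        rintro A ⟨a, ha, hA⟩ B ⟨b, hb, hB⟩ hAB
        rcases h2.total ha hb with h | h
        · exact (h1 hb).1 (h hA) hB hAB
        · exact (h1 ha).1 hA (h hB) hAB, fun C ⟨a, ha, hC⟩ => (h1 ha).2 C hC⟩,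
      fun _ => subset_sUnion_of_mem⟩) ∅ ⟨IsChain.empty, by simp⟩
  obtain ⟨hc, hP⟩ := hm.prop
  have hmax : ∀ D, IsCompact D → IsPreconnected D → y ∈ D → (∀ C ∈ 𝒞, C ⊆ D ∨ D ⊆ C) → D ∈ 𝒞 := by
    intro D h1 h2 h3 h4
    refine hm.le_of_ge (y := insert D 𝒞) ⟨hc.insert fun C hC _ => (h4 C hC).symm, ?_⟩
      (subset_insert _ _) (mem_insert _ _)
    rintro C (rfl | hC)
    · exact ⟨h1, h2, h3⟩
    · exact hP C hC
  have ne : ∀ C ∈ 𝒞, C.Nonempty := fun C hC => ⟨y, (hP C hC).2.2⟩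
  have hu : univ ∈ 𝒞 := hmax _ isCompact_univ isPreconnected_univ trivial
    fun C _ => Or.inl (subset_univ C)
  have hy : {y} ∈ 𝒞 := hmax _ isCompact_singleton isPreconnected_singleton rfl
    fun C hC => Or.inr (singleton_subset_iff.2 (hP C hC).2.2)
  have lt : ∀ C ∈ 𝒞, ∀ C' ∈ 𝒞, μ C' < μ C → C ⊆ C' := fun C hC C' hC' h =>
    (hc.total hC hC').resolve_right fun e => h.not_ge (m2 C' C (ne C' hC') e)
  have surj : ∀ s ∈ Icc (μ univ) (μ {y}), ∃ C ∈ 𝒞, μ C = s := by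
    intro s hs
    by_contra hcon
    push Not at hcon
    have a1 : {C | C ∈ 𝒞 ∧ μ C < s}.Nonempty := ⟨_, hu, lt_of_le_of_ne hs.1 (hcon _ hu)⟩
    have a2 : IsChain (· ⊆ ·) {C | C ∈ 𝒞 ∧ μ C < s} := hc.mono fun C h => h.1
    have a3 : ∀ C ∈ {C | C ∈ 𝒞 ∧ μ C < s}, IsCompact C := fun C h => (hP C h.1).1
    have gt : ∀ C ∈ 𝒞, ¬ μ C < s → s < μ C := fun C hC h =>
      lt_of_le_of_ne (not_lt.1 h) (hcon C hC).symm
    set E := ⋂₀ {C | C ∈ 𝒞 ∧ μ C < s}
    set D := closure (⋃₀ {C | C ∈ 𝒞 ∧ s < μ C})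
    have hE : E ∈ 𝒞 := hmax E (chain_compact a1 a3) (chain_preconnected a1 a2 a3
      fun C h => (hP C h.1).2.1) (fun C h => (hP C h.1).2.2) fun C hC => by
        by_cases h : μ C < s
        · exact Or.inr (sInter_subset_of_mem ⟨hC, h⟩)
        · exact Or.inl (subset_sInter fun C' h' => lt C hC C' h'.1 (h'.2.trans (gt C hC h)))
    have hyD : {y} ∈ {C | C ∈ 𝒞 ∧ s < μ C} := ⟨hy, lt_of_le_of_ne hs.2 (hcon _ hy).symm⟩
    have sD : ∀ C ∈ 𝒞, s < μ C → C ⊆ D := fun C h1 h2 =>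
      (subset_sUnion_of_mem (show C ∈ {C | C ∈ 𝒞 ∧ s < μ C} from ⟨h1, h2⟩)).trans subset_closure
    have Ds : ∀ C ∈ 𝒞, μ C < s → D ⊆ C := fun C h1 h2 => closure_minimal
      (sUnion_subset fun C' h' => lt C' h'.1 C h1 (h2.trans h'.2)) (hP C h1).1.isClosed
    have hD : D ∈ 𝒞 := hmax D isClosed_closure.isCompact (isPreconnected_sUnion y _
      (fun C h => (hP C h.1).2.2) fun C h => (hP C h.1).2.1).closure (sD _ hy hyD.2 rfl)
      fun C hC => by
        by_cases h : μ C < s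
        · exact Or.inr (Ds C hC h)
        · exact Or.inl (sD C hC (gt C hC h))
    have b1 : μ E ≤ s := le_of_forall_pos_le_add fun ε hε => by
      obtain ⟨C, h1, h2⟩ := chain_subset_open a1 a2 a3 isOpen_thickening
        (self_subset_thickening (half_pos hε) E)
      linarith [m1 E C (ne E hE) (ne C h1.1) _ (half_pos hε) h2, h1.2]
    have b2 : s ≤ μ D := le_of_forall_pos_le_add fun ε hε => by
      have : Nonempty {C | C ∈ 𝒞 ∧ s < μ C} := ⟨⟨_, hyD⟩⟩
      obtain ⟨C, h1⟩ := (hP D hD).1.elim_directed_cover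
        (fun C : {C | C ∈ 𝒞 ∧ s < μ C} => thickening (ε / 2) (C : Set Y))
        (fun _ => isOpen_thickening) (fun p hp => by
          obtain ⟨q, ⟨C, h1, h2⟩, h3⟩ := Metric.mem_closure_iff.1 hp _ (half_pos hε)
          exact mem_iUnion.2 ⟨⟨C, h1⟩, mem_thickening_iff.2 ⟨q, h2, h3⟩⟩) fun A B => by
          rcases hc.total A.2.1 B.2.1 with h | h
          · exact ⟨B, thickening_subset_of_subset _ h, Subset.rfl⟩
          · exact ⟨A, Subset.rfl, thickening_subset_of_subset _ h⟩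
      linarith [m1 C D (ne C C.2.1) (ne D hD) _ (half_pos hε) h1, C.2.2]
    have b3 : μ E < s := lt_of_le_of_ne b1 (hcon E hE)
    obtain ⟨C, c1, c2, c3, c4, c5, c6⟩ := between (hP D hD).1 (hP D hD).2.1 (hP E hE).1
      (hP E hE).2.1 (hP D hD).2.2 (Ds E hE b3) fun e => by linarith [m2 E D (ne E hE) e]
    have hC : C ∈ 𝒞 := hmax C c1 c2 (c3 (hP D hD).2.2) fun C' hC' => by
      by_cases h : μ C' < s
      · exact Or.inr (c4.trans (sInter_subset_of_mem ⟨hC', h⟩))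
      · exact Or.inl ((sD C' hC' (gt C' hC' h)).trans c3)
    by_cases h : μ C < s
    · exact c6 (sInter_subset_of_mem ⟨hC, h⟩)
    · exact c5 (sD C hC (gt C hC h))
  have h0 : μ univ ≤ μ {y} := m2 _ _ (singleton_nonempty y) (subset_univ _)
  let l : ℝ → ℝ := fun s => μ {y} + (μ univ - μ {y}) * max 0 (min s 1)
  have hl : ∀ s, l s ∈ Icc (μ univ) (μ {y}) := fun s => by
    have h1 : 0 ≤ max 0 (min s 1) := le_max_left _ _
    have h2 : max 0 (min s 1) ≤ 1 := max_le zero_le_one (min_le_right _ _)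
    constructor <;> simp only [l] <;> nlinarith
  choose κ k1 k2 using fun s => surj (l s) (hl s)
  have close : ∀ ε > 0, ∃ η > 0, ∀ C ∈ 𝒞, ∀ C' ∈ 𝒞, |μ C - μ C'| < η → C' ⊆ thickening ε C := by
    intro ε hε
    obtain ⟨η, h1, h2⟩ := m3 ε hε
    refine ⟨η, h1, fun C hC C' hC' h => ?_⟩
    rcases hc.total hC hC' with e | e
    · exact h2 C C' (ne C hC) e (by linarith [le_abs_self (μ C - μ C')])
    · exact e.trans (self_subset_thickening hε C)
  have inj : ∀ C ∈ 𝒞, ∀ C' ∈ 𝒞, μ C = μ C' → C' ⊆ C := fun C hC C' hC' e p hp => by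
    rw [← (hP C hC).1.isClosed.closure_eq, closure_eq_iInter_thickening]
    refine mem_iInter₂.2 fun ε hε => ?_
    obtain ⟨η, h1, h2⟩ := close ε hε
    exact h2 C hC C' hC' (by simpa [e] using h1) hp
  refine ⟨κ, ⟨fun s => (hP _ (k1 s)).1, fun s => ⟨ne _ (k1 s), (hP _ (k1 s)).2.1⟩,
    fun s ε hε => ?_⟩, fun s hs => ?_, fun s hs => ?_⟩
  · obtain ⟨η, h1, h2⟩ := close ε hε
    have : Continuous l := by fun_prop
    filter_upwards [Metric.tendsto_nhds.1 (this.tendsto s) η h1] with t ht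
    rw [Real.dist_eq, ← k2, ← k2] at ht
    exact ⟨h2 _ (k1 s) _ (k1 t) (by rwa [abs_sub_comm]), h2 _ (k1 t) _ (k1 s) ht⟩
  · refine Subset.antisymm (inj _ hy _ (k1 s) ?_) (singleton_subset_iff.2 (hP _ (k1 s)).2.2)
    simp [k2, l, hs]
  · refine Subset.antisymm (subset_univ _) (inj _ (k1 s) _ hu ?_)
    simp [k2, l, show (1 : ℝ) ≤ s from hs]

theorem Fam.cont_sup [CompactSpace Y] {κ : ℝ → Set Y} (h : Fam κ) {g : Y → ℝ} (hg : Continuous g) :
    ∃ b : ℝ → ℝ, Continuous b ∧ ∀ s, IsGreatest (g '' κ s) (b s) := by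
  choose b hb using fun s => ((h.cpt s).image hg).exists_isGreatest ((h.conn s).nonempty.image g)
  refine ⟨b, continuous_iff_continuousAt.2 fun s => Metric.tendsto_nhds.2 fun ε hε => ?_, hb⟩
  obtain ⟨δ, hδ, h1⟩ := Metric.uniformContinuous_iff.1 (CompactSpace.uniformContinuous_of_continuous
    hg) ε hε
  have key : ∀ s t, κ t ⊆ thickening δ (κ s) → b t < b s + ε := fun s t e => by
    obtain ⟨p, hp, e1⟩ := (hb t).1
    obtain ⟨q, hq, e2⟩ := mem_thickening_iff.1 (e hp)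
    have := h1 e2
    rw [Real.dist_eq, abs_lt] at this
    linarith [(hb s).2 ⟨q, hq, rfl⟩]
  filter_upwards [h.cont s δ hδ] with t ht
  rw [Real.dist_eq, abs_lt]
  constructor <;> linarith [key s t ht.1, key t s ht.2]

theorem Fam.range [CompactSpace Y] {κ : ℝ → Set Y} (h : Fam κ) {g : Y → ℝ} (hg : Continuous g) :
    ∃ a b : ℝ → ℝ, Continuous a ∧ Continuous b ∧ ∀ s, a s ≤ b s ∧ g '' κ s = Icc (a s) (b s) := by
  obtain ⟨b, b1, b2⟩ := h.cont_sup hg
  obtain ⟨a, a1, a2⟩ := h.cont_sup hg.neg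
  refine ⟨fun s => -a s, b, a1.neg, b1, fun s => ?_⟩
  obtain ⟨p, hp, e1⟩ := (a2 s).1
  have h1 : -a s ∈ g '' κ s := ⟨p, hp, by simp [← e1]⟩
  refine ⟨(b2 s).2 h1, Subset.antisymm ?_ (((h.conn s).image g hg.continuousOn).Icc_subset h1
    (b2 s).1)⟩
  rintro _ ⟨q, hq, rfl⟩
  exact ⟨neg_le.1 ((a2 s).2 ⟨q, hq, rfl⟩), (b2 s).2 ⟨q, hq, rfl⟩⟩

end Pool.Agent.Lib.BD5
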