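import Pool.Agent.Lib.MP_1126ca_gt.Chain

set_option autoImplicit false

open Set Topology Filter Function Metric

namespace Pool.Agent.Lib.BD5

open Pool.Agent.Lib.MP_1126ca_gt

/-- The triangle wave of period two. -/
noncomputable def tri (x : ℝ) : ℝ := Real.arccos (Real.cos (Real.pi * x)) / Real.pi

theorem tri_cont : Continuous tri := by
  unfold tri
  have := Real.continuous_arccos
  fun_prop

theorem tri_mem (x : ℝ) : tri x ∈ Icc (0 : ℝ) 1 :=
  ⟨div_nonneg (Real.arccos_nonneg _) Real.pi_pos.le, (div_le_one Real.pi_pos).2 (Real.arccos_le_pi _)⟩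

theorem tri_add (j : ℕ) {m : ℝ} (hm : m ∈ Icc (0 : ℝ) 1) :
    tri (j + m) = if Even j then m else 1 - m := by
  have h := Real.arccos_cos (mul_nonneg Real.pi_pos.le hm.1)
    (mul_le_of_le_one_right Real.pi_pos.le hm.2)
  have := Real.pi_pos.ne'
  rw [tri, show Real.pi * (j + m) = Real.pi * m + j * Real.pi by ring, Real.cos_add_nat_mul_pi]
  split_ifs with e
  · rw [e.neg_one_pow, one_mul, h]
    field_simp
  · rw [(Nat.not_even_iff_odd.1 e).neg_one_pow, neg_one_mul, Real.arccos_neg, h]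
    field_simp

/-- A function that sweeps the moving interval from `a` to `b` up and down. -/
noncomputable def saw (a b : ℝ → ℝ) (M : ℕ) (s : ℝ) : ℝ := a s + (b s - a s) * tri (M * s)

theorem saw_cont {a b : ℝ → ℝ} (ha : Continuous a) (hb : Continuous b) (M : ℕ) :
    Continuous (saw a b M) := by
  unfold saw
  have := tri_cont
  fun_prop

theorem saw_mem {a b : ℝ → ℝ} {s : ℝ} (h : a s ≤ b s) (M : ℕ) : saw a b M s ∈ Icc (a s) (b s) := by
  have := tri_mem (M * s)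
  constructor <;> simp only [saw] <;> nlinarith [this.1, this.2]

theorem sweep {a b : ℝ → ℝ} {M : ℕ} (hM : 0 < M) {θ s₀ r : ℝ} (h0 : 0 ≤ s₀) (hab : a s₀ < b s₀)
    (hr : r ∈ Icc (a s₀) (b s₀))
    (h : ∀ s, |s - s₀| ≤ 2 / M → |a s - a s₀| ≤ θ ∧ |b s - b s₀| ≤ θ) :
    ∃ s, |s - s₀| ≤ 2 / M ∧ |saw a b M s - r| ≤ θ := by
  have hM' : (0 : ℝ) < M := Nat.cast_pos.2 hM
  have h1 := sub_pos.2 hab
  set m := (r - a s₀) / (b s₀ - a s₀) with hm
  have m0 : 0 ≤ m := div_nonneg (sub_nonneg.2 hr.1) h1.le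
  have m1 : m ≤ 1 := (div_le_one h1).2 (by linarith [hr.2])
  have hr' : r = a s₀ + (b s₀ - a s₀) * m := by rw [hm]; field_simp; ring
  set k := ⌊M * s₀ / 2⌋₊
  have k1 : (k : ℝ) ≤ M * s₀ / 2 := Nat.floor_le (by positivity)
  have k2 : M * s₀ / 2 < k + 1 := Nat.lt_floor_add_one _
  have e : |(2 * k + m) / M - s₀| ≤ 2 / M := by
    rw [show (2 * k + m) / M - s₀ = (2 * k + m - M * s₀) / M by field_simp, abs_div, abs_of_pos hM']
    exact div_le_div_of_nonneg_right (abs_le.2 ⟨by linarith, by linarith⟩) hM'.le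
  refine ⟨_, e, ?_⟩
  obtain ⟨a1, a2⟩ := h _ e
  have t := tri_add (2 * k) ⟨m0, m1⟩
  rw [if_pos (even_two_mul k)] at t
  push_cast at t
  rw [saw, mul_div_cancel₀ _ hM'.ne', t, hr']
  rw [abs_le] at *
  constructor <;> nlinarith [a1.1, a1.2, a2.1, a2.2]

theorem piece {a b v : ℝ → ℝ} (ha : Continuous a) (hb : Continuous b) (hv : Continuous v)
    (hab : ∀ s, a s < b s) {p q η : ℝ} (hpq : p < q) (h1 : |v p - a p| ≤ η) (h2 : |v q - b q| ≤ η)
    (h3 : ∀ s ∈ Icc p q, a s - η ≤ v s ∧ v s ≤ b s + η) : ∃ m : ℝ → ℝ, Continuous m ∧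
      (∀ s, m s ∈ Icc (0 : ℝ) 1) ∧ (∀ s ≤ p, m s = 0) ∧ (∀ s ≥ q, m s = 1) ∧
      ∀ s ∈ Icc p q, |a s + (b s - a s) * m s - v s| ≤ 2 * η := by
  have hd := sub_pos.2 hpq
  let w : ℝ → ℝ := fun s => v s + ((q - s) * (a p - v p) + (s - p) * (b q - v q)) / (q - p)
  let n : ℝ → ℝ := fun s => max 0 (min ((w s - a s) / (b s - a s)) 1)
  have hn : Continuous n := continuous_const.max ((Continuous.div (by fun_prop) (by fun_prop)
    fun s => (sub_pos.2 (hab s)).ne').min continuous_const)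
  refine ⟨fun s => n (max p (min s q)), by fun_prop,
    fun s => ⟨le_max_left _ _, max_le zero_le_one (min_le_right _ _)⟩, fun s hs => ?_,
    fun s hs => ?_, fun s hs => ?_⟩
  · have : w p = a p := by simp only [w]; field_simp; ring
    simp [n, max_eq_left ((min_le_left s q).trans hs), this]
  · have : w q = b q := by simp only [w]; field_simp; ring
    simp [n, min_eq_right hs, max_eq_right hpq.le, this, div_self (sub_pos.2 (hab q)).ne']
  · simp only [min_eq_left hs.2, max_eq_right hs.1]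
    have e1 : |w s - v s| ≤ η := by
      simp only [w, add_sub_cancel_left]
      rw [abs_div, abs_of_pos hd, div_le_iff₀ hd, abs_le] at *
      constructor <;> nlinarith [hs.1, hs.2, h1.1, h1.2, h2.1, h2.2]
    obtain ⟨c1, c2⟩ := h3 s hs
    have c3 := sub_pos.2 (hab s)
    have c4 : (b s - a s) * ((w s - a s) / (b s - a s)) = w s - a s := by field_simp
    rw [abs_le] at e1 ⊢
    simp only [n]
    rcases le_total ((w s - a s) / (b s - a s)) 1 with d | d
    · rcases le_total 0 ((w s - a s) / (b s - a s)) with d' | d'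
      · rw [min_eq_left d, max_eq_right d', c4]
        constructor <;> linarith [e1.1, e1.2]
      · rw [min_eq_left d, max_eq_left d']
        constructor <;> nlinarith [e1.1, e1.2]
    · rw [min_eq_right d, max_eq_right zero_le_one]
      constructor <;> nlinarith [e1.1, e1.2]

theorem exists_slot {τ : ℕ → ℝ} {s : ℝ} (h0 : τ 0 ≤ s) :
    ∀ M, 0 < M → s ≤ τ M → ∃ j < M, s ∈ Icc (τ j) (τ (j + 1))
  | 0, h, _ => absurd h (lt_irrefl 0)
  | M + 1, _, h => by
    by_cases e : τ M ≤ s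
    · exact ⟨M, Nat.lt_succ_self M, e, h⟩
    · rcases Nat.eq_zero_or_pos M with rfl | hM
      · exact absurd h0 e
      · obtain ⟨j, h1, h2⟩ := exists_slot h0 M hM (not_le.1 e).le
        exact ⟨j, h1.trans (Nat.lt_succ_self M), h2⟩

theorem lift {a b v : ℝ → ℝ} (ha : Continuous a) (hb : Continuous b) (hv : Continuous v)
    (hab : ∀ s, a s < b s) {M : ℕ} (hM : 0 < M) {θ η : ℝ} {τ : ℕ → ℝ} (t0 : τ 0 = 0) (t1 : τ M = 1)
    (hτ : ∀ j ≤ M, |τ j - j / M| ≤ 1 / (4 * M) ∧ τ j ∈ Icc (0 : ℝ) 1 ∧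
      |v (τ j) - if Even j then a (τ j) else b (τ j)| ≤ η)
    (hv' : ∀ s ∈ Icc (0 : ℝ) 1, a s - η ≤ v s ∧ v s ≤ b s + η)
    (ho : ∀ s ∈ Icc (0 : ℝ) 1, ∀ s' ∈ Icc (0 : ℝ) 1, |s - s'| ≤ 2 / M →
      |a s - a s'| ≤ θ ∧ |b s - b s'| ≤ θ) :
    ∃ φ : ℝ → ℝ, Continuous φ ∧ φ 0 = 0 ∧ φ 1 = 1 ∧ ∀ s ∈ Icc (0 : ℝ) 1, φ s ∈ Icc (0 : ℝ) 1 ∧
      |φ s - s| ≤ 2 / M ∧ |saw a b M (φ s) - v s| ≤ 2 * η + θ := by
  have hM' : (0 : ℝ) < M := Nat.cast_pos.2 hM
  have q4 : (1 : ℝ) / M = 4 * (1 / (4 * M)) := by field_simp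
  have q0 : (0 : ℝ) < 1 / (4 * M) := by positivity
  have lt : ∀ i j, i < j → j ≤ M → τ i < τ j := fun i j h1 h2 => by
    have c1 := abs_le.1 (hτ i (h1.le.trans h2)).1
    have c2 := abs_le.1 (hτ j h2).1
    have c3 : ((i : ℝ) + 1) / M ≤ j / M := div_le_div_of_nonneg_right (by exact_mod_cast h1) hM'.le
    rw [add_div] at c3
    linarith [c1.2, c2.1]
  have key : ∀ j < M, ∃ m : ℝ → ℝ, Continuous m ∧ (∀ s, m s ∈ Icc (0 : ℝ) 1) ∧
      (∀ s ≤ τ j, m s = 0) ∧ (∀ s ≥ τ (j + 1), m s = 1) ∧ ∀ s ∈ Icc (τ j) (τ (j + 1)),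
        |a s + (b s - a s) * tri (j + m s) - v s| ≤ 2 * η := by
    intro j hj
    have c1 := hτ j hj.le
    have c2 := hτ (j + 1) hj
    have c3 : ∀ s ∈ Icc (τ j) (τ (j + 1)), a s - η ≤ v s ∧ v s ≤ b s + η := fun s hs =>
      hv' s ⟨c1.2.1.1.trans hs.1, hs.2.trans c2.2.1.2⟩
    by_cases e : Even j
    · rw [if_pos e] at c1
      rw [if_neg (by simpa [Nat.even_add_one] using e)] at c2
      obtain ⟨m, d1, d2, d3, d4, d5⟩ := piece ha hb hv hab (lt j _ (Nat.lt_succ_self j) hj)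
        c1.2.2 c2.2.2 c3
      exact ⟨m, d1, d2, d3, d4, fun s hs => by rw [tri_add j (d2 s), if_pos e]; exact d5 s hs⟩
    · rw [if_neg e] at c1
      rw [if_pos (by simpa [Nat.even_add_one] using e)] at c2
      obtain ⟨m, d1, d2, d3, d4, d5⟩ := piece (η := η) hb.neg ha.neg hv.neg
        (fun s => neg_lt_neg (hab s)) (lt j _ (Nat.lt_succ_self j) hj)
        (by rw [← abs_neg]; simpa [add_comm, sub_eq_add_neg] using c1.2.2)
        (by rw [← abs_neg]; simpa [add_comm, sub_eq_add_neg] using c2.2.2)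
        fun s hs => by constructor <;> simp only [Pi.neg_apply] <;> linarith [(c3 s hs).1, (c3 s hs).2]
      refine ⟨m, d1, d2, d3, d4, fun s hs => ?_⟩
      have := d5 s hs
      simp only [Pi.neg_apply] at this
      rw [tri_add j (d2 s), if_neg e]
      rw [abs_le] at this ⊢
      constructor <;> linarith [this.1, this.2]
  choose! m m1 m2 m3 m4 m5 using key
  have sum : ∀ j < M, ∀ s ∈ Icc (τ j) (τ (j + 1)), ∑ i ∈ Finset.range M, m i s = j + m j s := by
    intro j hj s hs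
    rw [← Finset.sum_range_add_sum_Ico _ (Nat.succ_le_of_lt hj), Finset.sum_range_succ,
      Finset.sum_eq_zero (s := Finset.Ico _ _), Finset.sum_congr rfl (g := fun _ => 1)]
    · simp
    · intro i hi
      have hi' := Finset.mem_range.1 hi
      refine m4 i (hi'.trans hj) s (le_trans ?_ hs.1)
      rcases (Nat.succ_le_of_lt hi').eq_or_lt with e | e
      · exact (congrArg τ e).le
      · exact (lt _ _ e hj.le).le
    · intro i hi
      have hi' := Finset.mem_Ico.1 hi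
      refine m3 i hi'.2 s (hs.2.trans ?_)
      rcases hi'.1.eq_or_lt with e | e
      · exact (congrArg τ e).le
      · exact (lt _ _ e hi'.2.le).le
  refine ⟨fun s => (∑ i ∈ Finset.range M, m i s) / M, (continuous_finsetSum _ fun i hi =>
    m1 i (Finset.mem_range.1 hi)).div_const _, ?_, ?_, fun s hs => ?_⟩
  · simp only
    rw [sum 0 hM 0 ⟨t0.le, t0 ▸ (lt 0 1 one_pos hM).le⟩, m3 0 hM 0 t0.ge]
    simp
  · obtain ⟨j, rfl⟩ : ∃ j, M = j + 1 := ⟨M - 1, by omega⟩
    simp only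
    rw [sum j (Nat.lt_succ_self j) 1 ⟨t1 ▸ (lt j _ (Nat.lt_succ_self j) le_rfl).le, t1.ge⟩,
      m4 j (Nat.lt_succ_self j) 1 t1.le]
    push_cast at hM' ⊢
    exact div_self hM'.ne'
  obtain ⟨j, hj, h⟩ := exists_slot (t0 ▸ hs.1 : τ 0 ≤ s) M hM (t1 ▸ hs.2)
  have c0 := m2 j hj s
  have c1 := abs_le.1 (hτ j hj.le).1
  have c2 := abs_le.1 (hτ (j + 1) hj).1
  have c3 : (j : ℝ) + 1 ≤ M := by exact_mod_cast hj
  simp only [sum j hj s h]
  have d1 : (j + m j s) / M ∈ Icc (0 : ℝ) 1 :=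
    ⟨div_nonneg (by linarith [c0.1, Nat.cast_nonneg (α := ℝ) j]) hM'.le,
      (div_le_one hM').2 (by linarith [c0.2])⟩
  have d2 : |(j + m j s) / M - s| ≤ 2 / M := by
    have e1 : m j s / M ≤ 1 / M := div_le_div_of_nonneg_right c0.2 hM'.le
    have e2 : 0 ≤ m j s / M := div_nonneg c0.1 hM'.le
    have e3 : (2 : ℝ) / M = 2 * (1 / M) := by ring
    push_cast at c2
    rw [add_div] at c2 ⊢
    exact abs_le.2 ⟨by linarith [h.2, c2.2], by linarith [h.1, c1.1]⟩
  refine ⟨d1, d2, ?_⟩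
  obtain ⟨e1, e2⟩ := ho _ d1 s hs d2
  have e3 := m5 j hj s h
  have e4 := tri_mem (j + m j s)
  rw [saw, mul_div_cancel₀ _ hM'.ne']
  rw [abs_le] at *
  constructor <;> nlinarith [e1.1, e1.2, e2.1, e2.2, e3.1, e3.2, e4.1, e4.2]

theorem factor {Y V : Type} [TopologicalSpace Y] [CompactSpace Y] [NormedAddCommGroup V]
    [NormedSpace ℝ V] {g : Y → ℝ} (hg : Continuous g) {v : Y → V} (hv : Continuous v) {ε : ℝ}
    (h : ∀ x y, g x = g y → dist (v x) (v y) < ε) : ∃ A : ℝ → V, Continuous A ∧ ∃ γ > 0,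
      ∀ y r, |r - g y| ≤ γ → dist (A r) (v y) ≤ ε := by
  obtain ⟨E, hE, h1⟩ : ∃ E > 0, ∀ x y, |g x - g y| ≤ E → dist (v x) (v y) < ε := by
    have hc : IsCompact {p : Y × Y | ε ≤ dist (v p.1) (v p.2)} :=
      (isClosed_le continuous_const (by fun_prop)).isCompact
    rcases eq_empty_or_nonempty {p : Y × Y | ε ≤ dist (v p.1) (v p.2)} with e | e
    · exact ⟨1, one_pos, fun x y _ => not_le.1 fun e' =>
        (eq_empty_iff_forall_notMem.1 e) (x, y) e'⟩
    obtain ⟨p, hp, hm⟩ := hc.exists_isMinOn e (f := fun p => |g p.1 - g p.2|) (by fun_prop)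
    have : 0 < |g p.1 - g p.2| := abs_pos.2 (sub_ne_zero.2 fun e' => (h _ _ e').not_ge hp)
    refine ⟨_, half_pos this, fun x y h' => not_le.1 fun e' => ?_⟩
    have := hm (show (x, y) ∈ {p : Y × Y | ε ≤ dist (v p.1) (v p.2)} from e')
    simp only [mem_ofPred_eq] at this
    linarith
  obtain ⟨A, hA⟩ := exists_continuous_forall_mem_convex_of_local_const
    (t := fun r : ℝ => ⋂ y ∈ {y | |r - g y| ≤ E / 4}, closedBall (v y) ε)
    (fun r => convex_iInter₂ fun y _ => convex_closedBall _ _) fun r => by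
      have hr : ∀ᶠ s in 𝓝 r, |s - r| < E / 4 := ball_mem_nhds r (by positivity : 0 < E / 4)
      by_cases e : ∃ y, |r - g y| ≤ E / 2
      · obtain ⟨y, hy⟩ := e
        refine ⟨v y, hr.mono fun s hs => mem_iInter₂.2 fun z hz => (h1 y z ?_).le⟩
        simp only [mem_ofPred_eq] at hz
        rw [abs_le] at *
        rw [abs_lt] at hs
        constructor <;> linarith [hs.1, hs.2, hy.1, hy.2, hz.1, hz.2]
      · refine ⟨0, hr.mono fun s hs => mem_iInter₂.2 fun z hz => (e ⟨z, ?_⟩).elim⟩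
        simp only [mem_ofPred_eq] at hz
        rw [abs_le] at *
        rw [abs_lt] at hs
        constructor <;> linarith [hs.1, hs.2, hz.1, hz.2]
  exact ⟨A, A.continuous, E / 4, by positivity, fun y r hr => mem_iInter₂.1 (hA r) y hr⟩

theorem exists_limit {X E : Type} [TopologicalSpace X] [MetricSpace E] [CompleteSpace E]
    {u : ℕ → X → E} (hu : ∀ k, Continuous (u k)) {C : ℝ}
    (h : ∀ k x, dist (u k x) (u (k + 1) x) ≤ C / 2 / 2 ^ k) :
    ∃ q : X → E, Continuous q ∧ ∀ k x, dist (u k x) (q x) ≤ C / 2 ^ k := by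
  choose q hq using fun x => cauchySeq_tendsto_of_complete
    (cauchySeq_of_le_geometric_two (f := fun k => u k x) fun k => h k x)
  have h1 : ∀ k x, dist (u k x) (q x) ≤ C / 2 ^ k := fun k x =>
    dist_le_of_le_geometric_two_of_tendsto (fun k => h k x) (hq x) k
  refine ⟨q, TendstoUniformly.continuous (p := atTop) (Metric.tendstoUniformly_iff.2 fun ε hε => ?_)
    (Eventually.of_forall hu).frequently, h1⟩
  have : Tendsto (fun k : ℕ => C / 2 ^ k) atTop (𝓝 0) :=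
    tendsto_const_nhds.div_atTop (tendsto_pow_atTop_atTop_of_one_lt one_lt_two)
  filter_upwards [this.eventually (gt_mem_nhds hε)] with k hk x
  exact (dist_comm (u k x) (q x) ▸ h1 k x).trans_lt hk

end Pool.Agent.Lib.BD5
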