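import Pool.Agent.Lib.BD5.Arcs

set_option autoImplicit false

open Set Topology Filter Function Complex Metric

namespace Pool.Agent.Lib.BD5

open Pool.Agent.Lib.MP_1126ca_gt

/-- A straight segment from a point `z` off `K` that first meets `L` and the ray at `y ∈ L`. -/
structure Hr (K L : Set ℂ) (z y : ℂ) : Prop where
  mem : y ∈ L
  ne0 : y ≠ 0
  out : z ∉ K ∪ Ray
  seg : ∀ p ∈ segment ℝ z y, p ∈ L ∪ Ray → p = y

variable {K : Set ℂ}

def Sd (z y c : ℂ) (N : Set (Z K)) : Set (Z K) :=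
  {ν | ν ∈ N ∧ pj ν ≠ y ∧ sg ν y * rt z y (pj ν) = c * F K z (pj ν)}

variable {z y c : ℂ} {N : Set (Z K)}

theorem Hr.memK (h : Hr K (pj '' N) z y) : y ∈ K := by
  obtain ⟨ν, -, rfl⟩ := h.mem
  exact pj_mem ν

theorem Hr.not_seg (h : Hr K (pj '' N) z y) {ν : Z K} (hν : ν ∈ N) (hy : pj ν ≠ y) :
    pj ν ∉ segment ℝ z y := fun e => hy (h.seg _ e (Or.inl ⟨ν, hν, rfl⟩))

theorem Hr.F_ne (h : Hr K (pj '' N) z y) (hK : NS K) {x : ℂ} (hx : x ∈ K) : F K z x ≠ 0 :=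
  (hK.FK h.out).ne (fun e => h.out (Or.inl e)) hx

theorem Hr.F_cont (h : Hr K (pj '' N) z y) (hK : NS K) : Continuous fun ν : Z K => F K z (pj ν) :=
  (hK.FK h.out).1.comp_continuous pj_cont pj_mem

theorem Hr.dich (h : Hr K (pj '' N) z y) (hK : NS K) {ν : Z K} (hν : ν ∈ N) (hy : pj ν ≠ y) :
    ν ∈ Sd z y I N ∨ ν ∈ Sd z y (-I) N := by
  rcases eq_or_eq_neg_of_sq_eq_sq (sg ν y * rt z y (pj ν)) (I * F K z (pj ν)) (by
    rw [mul_rt_sq hy.symm (hK.sg_sq ν h.memK), mul_pow, (hK.FK h.out).2 _ (pj_mem ν), I_sq]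
    ring) with e | e
  · exact Or.inl ⟨hν, hy, e⟩
  · exact Or.inr ⟨hν, hy, by rw [e, neg_mul]⟩

theorem Hr.not_both (h : Hr K (pj '' N) z y) (hK : NS K) {ν : Z K} (h1 : ν ∈ Sd z y I N)
    (h2 : ν ∈ Sd z y (-I) N) : False := by
  refine ne_neg_self (mul_ne_zero I_ne_zero (h.F_ne hK (pj_mem ν))) ?_
  rw [← neg_mul, ← h2.2.2, h1.2.2]

theorem closure_sd (hN : IsCompact N) : closure (Sd z y c N) ⊆ N :=
  closure_minimal (fun _ h => h.1) hN.isClosed

theorem Hr.rel_closed (h : Hr K (pj '' N) z y) (hK : NS K) (hN : IsCompact N) {ν : Z K}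
    (hν : ν ∈ closure (Sd z y c N)) (hy : pj ν ≠ y) : ν ∈ Sd z y c N := by
  have hνN := closure_sd hN hν
  refine ⟨hνN, hy, ?_⟩
  have := mem_closure_iff_nhdsWithin_neBot.1 hν
  refine tendsto_nhds_unique (l := 𝓝[Sd z y c N] ν) ((sg_cont y).continuousWithinAt.tendsto.mul
    (tendsto_rt tendsto_const_nhds tendsto_const_nhds pj_cont.continuousWithinAt.tendsto
      (h.not_seg hνN hy))) ((tendsto_const_nhds.mul
        (h.F_cont hK).continuousWithinAt.tendsto).congr' ?_)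
  filter_upwards [self_mem_nhdsWithin] with μ hμ
  exact hμ.2.2.symm

theorem Hr.pj_eq (h : Hr K (pj '' N) z y) (hK : NS K) (hN : IsCompact N) {m : Z K}
    (h1 : m ∈ closure (Sd z y I N)) (h2 : m ∈ closure (Sd z y (-I) N)) : pj m = y := by
  by_contra hy
  exact h.not_both hK (h.rel_closed hK hN h1 hy) (h.rel_closed hK hN h2 hy)

theorem Hr.cover (h : Hr K (pj '' N) z y) (hK : NS K) (hN : IsCompact N)
    (hp : IsPreconnected N) (hnt : N.Nontrivial) :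
    closure (Sd z y I N) ∪ closure (Sd z y (-I) N) = N := by
  refine Subset.antisymm (union_subset (closure_sd hN) (closure_sd hN)) fun ν hν => ?_
  by_contra hcon
  obtain ⟨μ, a1, a2⟩ := hK.small hN hp hnt (isClosed_closure.union isClosed_closure).isOpen_compl
    ⟨ν, hν, hcon⟩ (finite_singleton y)
  exact a1.2 ((h.dich hK a1.1 a2).imp (fun e => subset_closure e) fun e => subset_closure e)

variable {t : ℂ} {ℓ : ℝ} {α : ℝ → ℂ}

theorem Arc0.tri (hA : Arc0 K t ℓ α) (hK : NS K) {s : ℝ} (hs : s ∈ Icc 0 ℓ) {z' : ℂ}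
    (h0 : α s ≠ 0) (hz : z' ≠ α s) (ht : t ≠ α s)
    (h : ∀ p ∈ segment ℝ z' (α s), p ∈ α '' Icc 0 ℓ ∪ Ray → p = α s) :
    Tri (α '' Icc 0 s) (segment ℝ z' (α s)) (α '' Icc s ℓ) (α s) z' t := by
  have i1 : Icc 0 s ⊆ Icc 0 ℓ := Icc_subset_Icc_right hs.2
  have i2 : Icc s ℓ ⊆ Icc 0 ℓ := Icc_subset_Icc_left hs.1
  have r : ∀ T ⊆ Icc 0 ℓ, α '' T ∩ Ray ⊆ {0} := fun T hT =>
    (inter_subset_inter_left _ ((image_mono hT).trans hA.sub)).trans hK.ray
  refine ⟨⟨tame_arc hA.cont hs.1 (hA.inj.mono i1), ⟨s, right_mem_Icc.2 hs.1, rfl⟩, ?_, r _ i1⟩,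
    ⟨tame_segment _ _, right_mem_segment ℝ _ _, conn_seg_diff hz, fun p hp => absurd
      (h p hp.1 (Or.inr hp.2) ▸ hp.2) (hK.not_ray (hA.sub ⟨s, hs, rfl⟩) h0)⟩,
    ⟨tame_arc hA.cont hs.2 (hA.inj.mono i2), ⟨s, left_mem_Icc.2 hs.2, rfl⟩, ?_, r _ i2⟩,
    ⟨0, left_mem_Icc.2 hs.1, hA.zero⟩, fun e => absurd e h0,
    fun p hp => h p hp.2 (Or.inl (image_mono i1 hp.1)), ?_,
    fun p hp => h p hp.1 (Or.inl (image_mono i2 hp.2)), left_mem_segment ℝ _ _,
    ⟨ℓ, right_mem_Icc.2 hs.2, hA.top⟩, hz, ht⟩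
  · rw [← image_singleton, ← (hA.inj.mono i1).image_sdiff_subset
      (singleton_subset_iff.2 (right_mem_Icc.2 hs.1)), Icc_sdiff_right]
    exact isPreconnected_Ico.image _ hA.cont.continuousOn
  · rw [← image_singleton, ← (hA.inj.mono i2).image_sdiff_subset
      (singleton_subset_iff.2 (left_mem_Icc.2 hs.2)), Icc_sdiff_left]
    exact isPreconnected_Ioc.image _ hA.cont.continuousOn
  · rintro _ ⟨⟨u, hu, rfl⟩, v, hv, e⟩
    have := hA.inj (i2 hv) (i1 hu) e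
    rw [mem_singleton_iff, le_antisymm hu.2 (this ▸ hv.1)]

theorem Hr.land_arc (h : Hr K (pj '' N) z y) (hK : NS K) (hN : IsCompact N) {m : Z K}
    (h1 : m ∈ closure (Sd z y I N)) (h2 : m ∈ closure (Sd z y (-I) N)) (hA : Arc0 K t ℓ α)
    (hy : y ∈ α '' Icc 0 ℓ) (hty : t ≠ y) {z' : ℂ} (hz : z' ∈ segment ℝ z y) (hzy : z' ≠ y)
    (hs : ∀ p ∈ segment ℝ z' y, p ∈ α '' Icc 0 ℓ → p = y) :
    sg m t = F (α '' Icc 0 ℓ) z' t * rt y z' t := by
  have hm := h.pj_eq hK hN h1 h2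
  obtain ⟨s, hs', rfl⟩ := hy
  have hsub : segment ℝ z' (α s) ⊆ segment ℝ z (α s) :=
    (convex_segment _ _).segment_subset hz (right_mem_segment ℝ _ _)
  have T := hA.tri hK hs' h.ne0 hzy hty fun p hp e =>
    e.elim (hs p hp) fun e => h.seg p (hsub hp) (Or.inr e)
  have hU : α '' Icc 0 s ∪ α '' Icc s ℓ = α '' Icc 0 ℓ := by
    rw [← image_union, Icc_union_Icc_eq_Icc hs'.1 hs'.2]
  set L := α '' Icc 0 s
  set y := α s
  have hLK : L ⊆ K := subset_union_left.trans (hU ▸ hA.sub)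
  obtain ⟨c, hc, ec⟩ := T.exists_sign
  have hc2 := sign_sq hc
  have ht' := (T.symm.out T.mt T.nt).1
  have a1 : F (α '' Icc 0 ℓ) z' t * rt y z' t = c * rr L y t y := by
    rw [← hU, ec, F_hair T.l0.tame T.zero T.l0.mem T.i1 ht', rr_self hty.symm, mul_assoc,
      mul_assoc, rt_mul (convex_segment z' y) (right_mem_segment ℝ _ _) (left_mem_segment ℝ _ _)
        (right_mem_segment ℝ _ _) fun e => ht' (Or.inr e), rt_self hty.symm, mul_one]
  have hzK : z ≠ y := fun e => h.out (Or.inl (e ▸ h.memK))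
  have hyz : y ∉ segment ℝ z z' := by
    intro e
    have b1 := dist_add_dist_of_mem_segment e
    have b2 := dist_add_dist_of_mem_segment hz
    exact hzy (dist_le_zero.1 (by linarith [dist_comm y z', dist_nonneg (x := z') (y := y)]))
  have sq : ∀ x, x ≠ z' → (c * (rr L y z' x * rt z z' x)) ^ 2 = z - x := fun x hx => by
    have := sub_ne_zero.2 hx.symm
    rw [mul_pow, mul_pow, hc2, rr_sq T.l0.tame T.zero T.l0.mem T.xL, rt_sq]
    field_simp
    ring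
  obtain ⟨c', hc', e'⟩ : ∃ c', (c' = I ∨ c' = -I) ∧
      c * (rr L y z' y * rt z z' y) = c' * F K z y := by
    rcases eq_or_eq_neg_of_sq_eq_sq (c * (rr L y z' y * rt z z' y)) (I * F K z y) (by
      rw [sq y hzy.symm, mul_pow, (hK.FK h.out).2 y h.memK, I_sq]
      ring) with e | e
    · exact ⟨I, Or.inl rfl, e⟩
    · exact ⟨-I, Or.inr rfl, by rw [e, neg_mul]⟩
  have hν : m ∈ closure (Sd z y c' N) := by
    rcases hc' with rfl | rfl
    · exact h1
    · exact h2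
  have := mem_closure_iff_nhdsWithin_neBot.1 hν
  have a3 : Tendsto pj (𝓝[Sd z y c' N] m) (𝓝 y) := hm ▸ pj_cont.continuousWithinAt.tendsto
  have a4 : ∀ᶠ μ in 𝓝[Sd z y c' N] m, pj μ ≠ z' := a3 (isOpen_ne.mem_nhds hzy.symm)
  have a2 : ∀ᶠ μ in 𝓝[Sd z y c' N] m,
      c * (rr L y z' (pj μ) * rt z z' (pj μ)) = c' * F K z (pj μ) := by
    refine sq_ev (a := c' * F K z y) (e' ▸ tendsto_const_nhds.mul
      (((rr_cont' hzy).tendsto.comp a3).mul (tendsto_rt tendsto_const_nhds tendsto_const_nhds a3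
        hyz))) (hm ▸ tendsto_const_nhds.mul (h.F_cont hK).continuousWithinAt.tendsto)
      (mul_ne_zero (by rcases hc' with rfl | rfl <;> simp) (h.F_ne hK h.memK)) ?_
    filter_upwards [a4] with μ hμ
    rw [sq _ hμ, mul_pow, sign_sq hc', (hK.FK h.out).2 _ (pj_mem μ)]
    ring
  rw [a1]
  refine tendsto_nhds_unique (l := 𝓝[Sd z y c' N] m) (sg_cont t).continuousWithinAt.tendsto
    ((tendsto_const_nhds.mul ((rr_cont' hty).tendsto.comp a3)).congr' ?_)
  filter_upwards [self_mem_nhdsWithin, a2, a3 (T.planar_lim hc2 ec), a4] with μ b1 b2 b3 b7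
  have b4 := h.not_seg b1.1 b1.2.1
  have b5 : ∀ᶠ w in fl μ, w ∉ L ∪ segment ℝ z' y := by
    filter_upwards [fl_V μ, fl_le μ ((tame_segment z y).cpt.isClosed.isOpen_compl.mem_nhds b4)]
      with w c1 c2 e
    exact e.elim (fun e => c1 (Or.inl (hLK e))) fun e => c2 (hsub e)
  have b6 := b3 (fl μ) (fl_le μ)
  rw [hU] at b6
  refine tendsto_nhds_unique (b6 ?_ ?_) (hK.fl_F μ hA.tame.conn hA.sub hA.mem0 hA.mem1)
  · filter_upwards [fl_V μ, b5] with w c1 c2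
    exact ⟨c2, fun e => c1 (Or.inl (hA.sub e)), fun e => c1 (Or.inr e)⟩
  · have b8 : c * rr L y z' (pj μ) = sg μ y * rt z' y (pj μ) := by
      refine mul_right_cancel₀ (rt_ne (p := z) (q := z') (x := pj μ)
        (fun e => b4 (e ▸ left_mem_segment ℝ _ _)) b7.symm) ?_
      rw [mul_assoc, b2, ← b1.2.2, mul_assoc, rt_mul (convex_segment z y)
        (left_mem_segment ℝ _ _) hz (right_mem_segment ℝ _ _) b4]
    rw [b8]
    refine ((hK.fl_F μ T.l0.tame.conn hLK T.zero T.l0.mem).mul (tendsto_rt tendsto_const_nhds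
      tendsto_const_nhds (fl_le μ) fun e => b4 (hsub e))).congr' ?_
    filter_upwards [b5] with w hw
    exact (F_hair T.l0.tame T.zero T.l0.mem T.i1 hw).symm

/-- If the hair meets an arc of `K` arbitrarily close to its foot then it is one sided. -/
theorem Hr.one_sided (h : Hr K (pj '' N) z y) (hK : NS K) (hp : IsPreconnected N)
    (hA : Arc0 K t ℓ α) (hacc : ∃ᶠ p in 𝓝 y, p ∈ segment ℝ z y ∧ p ≠ y ∧ p ∈ α '' Icc 0 ℓ)
    {μ ν : Z K} (h1 : μ ∈ Sd z y I N) (h2 : ν ∈ Sd z y (-I) N) : False := by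
  obtain ⟨η, hη, hb⟩ := Metric.nhds_basis_closedBall.mem_iff.1 (inter_mem
    (isOpen_ne.mem_nhds h1.2.1.symm) (isOpen_ne.mem_nhds h2.2.1.symm))
  obtain ⟨p, ⟨a1, a2, a3⟩, a4⟩ := (hacc.and_eventually
    (arc_local hA.cont hA.inj (closedBall_mem_nhds y hη))).exists
  obtain ⟨J, b1, b2, b3, b4⟩ := a4 a3
  have hJK : J ⊆ K := b1.trans (inter_subset_left.trans hA.sub)
  have hsub : segment ℝ z p ⊆ segment ℝ z y :=
    (convex_segment _ _).segment_subset (left_mem_segment ℝ _ _) a1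
  have hL : ∀ κ ∈ N, pj κ ∉ segment ℝ z p := by
    intro κ hκ e
    have e1 := h.seg _ (hsub e) (Or.inl ⟨κ, hκ, rfl⟩)
    rw [e1] at e
    have c1 := dist_add_dist_of_mem_segment e
    have c2 := dist_add_dist_of_mem_segment a1
    exact a2 (dist_le_zero.1 (by linarith [dist_comm y p, dist_nonneg (x := p) (y := y)]))
  have key : ∀ κ ∈ N, pj κ ≠ y → pj κ ∉ closedBall y η →
      sg κ p * rt z p (pj κ) = sg κ y * rt z y (pj κ) := fun κ hκ c1 c2 => by
    rw [hK.dir κ b2 hJK (b1.trans inter_subset_right) (convex_closedBall y η) isClosed_closedBall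
      c2 b4 b3, mul_assoc, rt_mul (convex_segment z y) (left_mem_segment ℝ _ _) a1
        (right_mem_segment ℝ _ _) (h.not_seg hκ c1)]
  have := sq_conn hp (f := fun κ => sg κ p * rt z p (pj κ)) (g := fun κ => I * F K z (pj κ))
    (fun κ hκ => (sg_cont p).continuousWithinAt.mul (tendsto_rt tendsto_const_nhds
      tendsto_const_nhds pj_cont.continuousWithinAt.tendsto (hL κ hκ)))
    (continuous_const.mul (h.F_cont hK)).continuousOn (fun κ hκ => by
      rw [mul_rt_sq (fun e : p = pj κ => hL κ hκ (e ▸ right_mem_segment ℝ z p))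
        (hK.sg_sq κ (hJK b4)),
        mul_pow, (hK.FK h.out).2 _ (pj_mem κ), I_sq]
      ring) (fun κ _ => mul_ne_zero I_ne_zero (h.F_ne hK (pj_mem κ))) h1.1
    ((key μ h1.1 h1.2.1 fun e => (hb e).1 rfl).trans h1.2.2) ν h2.1
  exact h.not_both hK ⟨h2.1, h2.2.1, (key ν h2.1 h2.2.1 fun e => (hb e).2 rfl).symm.trans this⟩ h2

theorem NS.sg_self (hK : NS K) (m : Z K) : sg m (pj m) = 0 := by
  simpa using hK.sg_sq m (pj_mem m)

theorem Hr.unique (h : Hr K (pj '' N) z y) (hK : NS K) (hN : IsCompact N) (hp : IsPreconnected N)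
    {μ ν : Z K} (hμ : μ ∈ Sd z y I N) (hν : ν ∈ Sd z y (-I) N) {m m' : Z K}
    (h1 : m ∈ closure (Sd z y I N)) (h2 : m ∈ closure (Sd z y (-I) N))
    (h3 : m' ∈ closure (Sd z y I N)) (h4 : m' ∈ closure (Sd z y (-I) N)) : m = m' := by
  have e1 := h.pj_eq hK hN h1 h2
  have e2 := h.pj_eq hK hN h3 h4
  refine Z_ext (e1.trans e2.symm) fun t ht => ?_
  obtain ⟨ℓ, α, hA⟩ := hK.arc ht
  by_cases hty : t = y
  · rw [hty, ← e1, hK.sg_self, e1, ← e2, hK.sg_self]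
  by_cases hy : y ∈ α '' Icc 0 ℓ
  swap
  · rw [hK.sg_eq m hA.tame hA.sub hA.mem0 hA.mem1 (e1 ▸ hy),
      hK.sg_eq m' hA.tame hA.sub hA.mem0 hA.mem1 (e2 ▸ hy), e1, e2]
  have h5 : ∀ᶠ p in 𝓝 y, ¬ (p ∈ segment ℝ z y ∧ p ≠ y ∧ p ∈ α '' Icc 0 ℓ) :=
    not_frequently.1 fun e => h.one_sided hK hp hA e hμ hν
  obtain ⟨η, hη, hb⟩ := Metric.mem_nhds_iff.1 h5
  have hzy : z ≠ y := fun e => h.out (Or.inl (e ▸ h.memK))
  have hacc : (𝓝[segment ℝ z y \ {y}] y).NeBot := by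
    have := (convex_segment z y).isPreconnected.preperfect_of_nontrivial
      ⟨_, left_mem_segment ℝ z y, _, right_mem_segment ℝ z y, hzy⟩ _ (right_mem_segment ℝ z y)
    rwa [accPt_principal_iff_nhdsWithin] at this
  obtain ⟨z', a1, a2⟩ := (Eventually.and (self_mem_nhdsWithin (s := segment ℝ z y \ {y}) (a := y))
    (nhdsWithin_le_nhds (ball_mem_nhds y hη))).exists
  have a3 : ∀ p ∈ segment ℝ z' y, p ∈ α '' Icc 0 ℓ → p = y := fun p b1 b2 => by_contra fun e =>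
    hb ((convex_ball y η).segment_subset a2 (mem_ball_self hη) b1)
      ⟨(convex_segment _ _).segment_subset a1.1 (right_mem_segment ℝ _ _) b1, e, b2⟩
  rw [h.land_arc hK hN h1 h2 hA hy hty a1.1 a1.2 a3, h.land_arc hK hN h3 h4 hA hy hty a1.1 a1.2 a3]

/-- A point over the foot of a hair that misses the arc to `t`. -/
theorem Hr.sg_off (h : Hr K (pj '' N) z y) (hK : NS K) (hA : Arc0 K t ℓ α)
    (hs : ∀ p ∈ segment ℝ z y, p ∉ α '' Icc 0 ℓ) {m : Z K} (hm : pj m = y) :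
    sg m t = F K z t * rt y z t := by
  have ht : t ∉ segment ℝ z y := fun e => hs t e hA.mem1
  have hz : z ≠ t := fun e => ht (e ▸ left_mem_segment ℝ _ _)
  have sq := fun w hw => (hA.tame.F_root hA.mem0 (w := w) hw).2 t hA.mem1
  rw [hK.sg_eq m hA.tame hA.sub hA.mem0 hA.mem1 (hm ▸ hs y (right_mem_segment ℝ _ _)), hm,
    ← hK.F_eq hA.tame.conn hA.sub hA.mem0 (fun e => h.out (Or.inl e)) hA.mem1]
  refine sq_conn (convex_segment z y).isPreconnected (f := fun u => F (α '' Icc 0 ℓ) u t)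
    (g := fun u => F (α '' Icc 0 ℓ) z t * rt u z t) (fun p hp => (hA.tame.F_cont hA.mem0 (hs p hp)
      (fun e => hK.not_ray h.memK h.ne0 (h.seg p hp (Or.inr e) ▸ e)) hA.mem1).continuousWithinAt)
    (continuousOn_const.mul (rt_cont (convex_segment z y) (left_mem_segment ℝ _ _) ht))
    (fun p hp => ?_) (fun p hp => mul_ne_zero ((hA.tame.F_root hA.mem0
      (hs z (left_mem_segment ℝ _ _))).ne (hs z (left_mem_segment ℝ _ _)) hA.mem1)
      (rt_ne (fun e => ht (e ▸ hp)) hz)) (left_mem_segment ℝ _ _)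
    (by simp only [rt_self hz, mul_one]) y (right_mem_segment ℝ _ _)
  rw [sq p (hs p hp), mul_rt_sq' hz (sq z (hs z (left_mem_segment ℝ _ _)))]

theorem Hr.land (h : Hr K (pj '' N) z y) (hK : NS K) (hN : IsCompact N) {m : Z K}
    (h1 : m ∈ closure (Sd z y I N)) (h2 : m ∈ closure (Sd z y (-I) N)) (hA : Arc0 K t ℓ α)
    (hs : ∀ p ∈ segment ℝ z y, p ∈ α '' Icc 0 ℓ → p = y) : sg m t = F K z t * rt y z t := by
  have e1 := h.pj_eq hK hN h1 h2
  by_cases hty : t = y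
  · rw [hty, ← e1, hK.sg_self, rt]
    simp
  by_cases hy : y ∈ α '' Icc 0 ℓ
  · rw [h.land_arc hK hN h1 h2 hA hy hty (left_mem_segment ℝ _ _)
      (fun e => h.out (Or.inl (e ▸ h.memK))) hs,
      hK.F_eq hA.tame.conn hA.sub hA.mem0 (fun e => h.out (Or.inl e)) hA.mem1]
  · exact h.sg_off hK hA (fun p a1 a2 => hy (hs p a1 a2 ▸ a2)) e1

end Pool.Agent.Lib.BD5
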