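import Pool.Agent.Lib.BD5.Saw
import Pool.Agent.Lib.BD5.OrderArc

set_option autoImplicit false

open Set Topology Filter Function Metric

namespace Pool.Agent.Lib.BD5

variable {Y : Type} [MetricSpace Y]

theorem Fam.comp {κ : ℝ → Set Y} (h : Fam κ) {ρ : ℝ → ℝ} (hρ : Continuous ρ) :
    Fam fun s => κ (ρ s) :=
  ⟨fun _ => h.cpt _, fun _ => h.conn _, fun s ε hε => hρ.tendsto s (h.cont (ρ s) ε hε)⟩

theorem fam_of_local {κ : ℝ → Set Y} (h : ∀ s, ∃ κ', Fam κ' ∧ κ =ᶠ[𝓝 s] κ') : Fam κ := by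
  refine ⟨fun s => ?_, fun s => ?_, fun s ε hε => ?_⟩ <;> obtain ⟨κ', h1, h2⟩ := h s
  · exact h2.eq_of_nhds ▸ h1.cpt s
  · exact h2.eq_of_nhds ▸ h1.conn s
  · filter_upwards [h1.cont s ε hε, h2] with t a1 a2
    rwa [a2, h2.eq_of_nhds]

/-- One stage of the tower. -/
structure St (Y : Type) where
  g : Y → ℝ
  κ : ℝ → Set Y
  a : ℝ → ℝ
  b : ℝ → ℝ
  A : ℝ → ℂ
  M : ℕ
  γ : ℝ
  σ : ℝ
  σ' : ℝ

noncomputable def St.ψ (S : St Y) : ℝ → ℝ := saw S.a (fun s => S.b s + S.γ / 10) S.M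

noncomputable def St.p (S : St Y) (s : ℝ) : ℂ := S.A (S.ψ s)

structure Ok (f : Y → ℂ) (y₀ : Y) (ε : ℝ) (S : St Y) : Prop where
  g : Continuous S.g
  a : Continuous S.a
  b : Continuous S.b
  A : Continuous S.A
  fam : Fam S.κ
  rng : ∀ s, S.a s ≤ S.b s ∧ S.g '' S.κ s = Icc (S.a s) (S.b s)
  k0 : S.κ 0 = {y₀}
  k1 : S.κ 1 = {y₀}
  γ : 0 < S.γ
  M : 0 < S.M
  even : Even S.M
  Mε : 1 / (S.M : ℝ) ≤ ε
  tol : ∀ y r, |r - S.g y| ≤ S.γ → dist (S.A r) (f y) ≤ ε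
  osc : ∀ s ∈ Icc (0 : ℝ) 1, ∀ s' ∈ Icc (0 : ℝ) 1, |s - s'| ≤ 2 / S.M →
    |S.a s - S.a s'| ≤ S.γ / 10 ∧ |S.b s - S.b s'| ≤ S.γ / 10
  t0 : 0 ≤ S.σ
  t1 : S.σ + 4 / S.M ≤ S.σ'
  t2 : S.σ' ≤ 1
  tail : ∀ s ∈ Icc S.σ S.σ', S.κ s = univ

variable {f : Y → ℂ} {y₀ : Y} {ε : ℝ} {S : St Y}

theorem Ok.p_cont (h : Ok f y₀ ε S) : Continuous S.p :=
  h.A.comp (saw_cont h.a (h.b.add continuous_const) _)

theorem Ok.near (h : Ok f y₀ ε S) (s : ℝ) : ∃ y ∈ S.κ s, |S.ψ s - S.g y| ≤ S.γ / 10 := by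
  have hγ := h.γ
  obtain ⟨h1, h2⟩ := h.rng s
  have h3 := saw_mem (a := S.a) (b := fun s => S.b s + S.γ / 10) (s := s) (by linarith) S.M
  obtain ⟨y, hy, e⟩ : min (S.ψ s) (S.b s) ∈ S.g '' S.κ s := h2 ▸ ⟨le_min h3.1 h1, min_le_right _ _⟩
  refine ⟨y, hy, ?_⟩
  have h4 : S.ψ s ≤ S.b s + S.γ / 10 := h3.2
  rw [e, abs_le]
  rcases le_total (S.ψ s) (S.b s) with c | c
  · rw [min_eq_left c]
    constructor <;> linarith
  · rw [min_eq_right c]
    constructor <;> linarith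

theorem Ok.hit (h : Ok f y₀ ε S) {s₀ : ℝ} (h0 : 2 / (S.M : ℝ) ≤ s₀) (h1 : s₀ + 2 / S.M ≤ 1) {y : Y}
    (hy : y ∈ S.κ s₀) : ∃ s, |s - s₀| ≤ 2 / S.M ∧ |S.ψ s - S.g y| ≤ S.γ / 10 := by
  have hγ := h.γ
  have h2 : (0 : ℝ) ≤ 2 / S.M := by positivity
  have h3 : S.g y ∈ Icc (S.a s₀) (S.b s₀) := (h.rng s₀).2 ▸ mem_image_of_mem _ hy
  refine sweep h.M (h2.trans h0) (by linarith [(h.rng s₀).1]) ⟨h3.1, by linarith [h3.2]⟩
    fun s hs => ?_
  have h4 := abs_le.1 hs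
  simpa using h.osc s ⟨by linarith [h4.1], by linarith [h4.2]⟩ s₀ ⟨by linarith, by linarith⟩ hs

theorem make [CompactSpace Y] (hf : Continuous f) (hε : 0 < ε) {g : Y → ℝ} (hg : Continuous g)
    (hgf : ∀ x y, g x = g y → dist (f x) (f y) < ε) {κ : ℝ → Set Y} (hκ : Fam κ) (k0 : κ 0 = {y₀})
    (k1 : κ 1 = {y₀}) {σ σ' : ℝ} (t0 : 0 ≤ σ) (t1 : σ < σ') (t2 : σ' ≤ 1)
    (ht : ∀ s ∈ Icc σ σ', κ s = univ) {γ₀ : ℝ} (hγ : 0 < γ₀) (M₀ : ℕ) : ∃ S : St Y, Ok f y₀ ε S ∧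
      S.g = g ∧ S.κ = κ ∧ S.σ = σ ∧ S.σ' = σ' ∧ S.γ ≤ γ₀ ∧ M₀ ≤ S.M := by
  obtain ⟨A, hA, γ, h1, h2⟩ := factor hg hf hgf
  obtain ⟨a, b, ha, hb, hab⟩ := hκ.range hg
  have h3 : 0 < min γ γ₀ / 10 := by positivity
  obtain ⟨δ, hδ, d1⟩ := Metric.uniformContinuousOn_iff_le.1
    ((isCompact_Icc (a := (0 : ℝ)) (b := 1)).uniformContinuousOn_of_continuous
      (ha.prodMk hb).continuousOn) _ h3
  obtain ⟨N, hN⟩ := exists_nat_one_div_lt (lt_min hε (lt_min hδ (sub_pos.2 t1)))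
  have h4 : (0 : ℝ) < N + 1 := by positivity
  have h5 : 4 / ((4 * (N + 1 + M₀) : ℕ) : ℝ) ≤ 1 / (N + 1) := by
    push_cast
    rw [div_le_div_iff₀ (by positivity) h4]
    nlinarith [Nat.cast_nonneg (α := ℝ) M₀]
  rw [lt_min_iff, lt_min_iff] at hN
  have h6 : (0 : ℝ) < 1 / ((4 * (N + 1 + M₀) : ℕ) : ℝ) := by positivity
  have h7 : ∀ c x : ℝ, c / x = c * (1 / x) := fun c x => by ring
  refine ⟨⟨g, κ, a, b, A, 4 * (N + 1 + M₀), min γ γ₀, σ, σ'⟩, ⟨hg, ha, hb, hA, hκ, hab, k0, k1,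
    by positivity, by positivity, ⟨2 * (N + 1 + M₀), by ring⟩, ?_,
    fun y r hr => h2 y r (hr.trans (min_le_left _ _)), fun s hs s' hs' e => ?_, t0, ?_, t2, ht⟩,
    rfl, rfl, rfl, rfl, min_le_right _ _, by simp only; omega⟩
  · rw [h7] at h5
    simp only
    linarith [hN.1]
  · have := d1 s hs s' hs' (by
      rw [h7] at h5 e
      simp only at e
      rw [Real.dist_eq]
      linarith [hN.2.1])
    rwa [Prod.dist_eq, max_le_iff] at this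
  · simp only
    linarith [hN.2.2]

/-- The relation between two consecutive stages. -/
structure Nxt (ε : ℝ) (y : Y) (S S' : St Y) (φ : ℝ → ℝ) (α β : ℝ) : Prop where
  cont : Continuous φ
  zero : φ 0 = 0
  one : φ 1 = 1
  app : ∀ s ∈ Icc (0 : ℝ) 1, φ s ∈ Icc (0 : ℝ) 1 ∧ |φ s - s| ≤ 2 * ε ∧
    dist (S.p (φ s)) (S'.p s) ≤ 2 * ε
  c1 : S.σ ≤ α
  c2 : α < β
  c3 : β ≤ S'.σ
  c4 : S'.σ' ≤ S.σ'
  core : ∀ s ∈ Icc α β, S'.κ s = {y}
  out : ∀ s ≤ S.σ, S'.κ s = S.κ s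

theorem Ok.step [CompactSpace Y] [ConnectedSpace Y] (h : Ok f y₀ ε S) (hf : Continuous f)
    (hY : ∀ ε : ℝ, 0 < ε → ∃ g : Y → ℝ, Continuous g ∧ ∀ y y' : Y, g y = g y' → dist y y' < ε)
    (y : Y) : ∃ S' φ α β, Ok f y₀ (ε / 2) S' ∧ Nxt ε y S S' φ α β := by
  have hγ := h.γ
  have hM : (0 : ℝ) < S.M := Nat.cast_pos.2 h.M
  set u : ℝ := 1 / S.M with hu
  have u0 : 0 < u := by positivity
  have hε : 0 < ε := u0.trans_le h.Mε
  have du : ∀ c : ℝ, c / S.M = c * u := fun c => by rw [hu]; ring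
  have mu : S.M * u = 1 := by rw [hu]; field_simp
  obtain ⟨κy, hy, y0, y1⟩ := exists_order_arc y
  set i := ⌈S.σ * S.M⌉₊
  have i1 : S.σ ≤ i * u := by
    rw [← du, le_div_iff₀ hM]
    exact Nat.le_ceil _
  have i2 : i * u ≤ S.σ + u := by
    have := (Nat.ceil_lt_add_one (mul_nonneg h.t0 hM.le)).le
    calc i * u ≤ (S.σ * S.M + 1) * u := mul_le_mul_of_nonneg_right this u0.le
      _ = S.σ + u := by rw [add_mul, mul_assoc, mu]; ring
  have t1 := h.t1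
  rw [du] at t1
  have t0 := h.t0
  have t2 := h.t2
  let ρ : ℝ → ℝ := fun s => |s - (i + 7 / 16) * u| * (32 * S.M) - 1
  have r1 : ∀ s, u / 16 ≤ |s - (i + 7 / 16) * u| → κy (ρ s) = univ := fun s hs => y1 _ (by
    have := mul_le_mul_of_nonneg_right hs (by positivity : (0 : ℝ) ≤ 32 * S.M)
    simp only [ρ]
    nlinarith)
  have r2 : ∀ s, u / 16 ≤ |s - (i + 7 / 16) * u| → S.κ s ∩ κy (ρ s) = S.κ s := fun s hs => by
    rw [r1 s hs, inter_univ]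
  have r3 : ∀ s ∈ Icc (i * u) ((i + 1) * u), S.κ s = univ := fun s hs =>
    h.tail s ⟨i1.trans hs.1, by linarith [hs.2]⟩
  have hκ : Fam fun s => S.κ s ∩ κy (ρ s) := fam_of_local fun s => by
    by_cases e : s ∈ Ioo (i * u) ((i + 1) * u)
    · refine ⟨_, hy.comp (ρ := ρ) (by fun_prop), ?_⟩
      filter_upwards [isOpen_Ioo.mem_nhds e] with t ht
      rw [r3 t (Ioo_subset_Icc_self ht), univ_inter]
    · refine ⟨_, h.fam, ?_⟩
      have : u / 16 < |s - (i + 7 / 16) * u| := by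
        rw [mem_Ioo, not_and_or, not_lt, not_lt] at e
        rw [lt_abs]
        rcases e with e | e
        · right; linarith
        · left; linarith
      filter_upwards [(isOpen_lt continuous_const (by fun_prop : Continuous fun s : ℝ =>
        |s - (i + 7 / 16) * u|)).mem_nhds this] with t ht using r2 t (le_of_lt ht)
  obtain ⟨δ, hδ, d1⟩ := Metric.uniformContinuous_iff.1
    (CompactSpace.uniformContinuous_of_continuous (h.g.prodMk hf)) _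
    (lt_min (by positivity : 0 < S.γ / 10) (half_pos hε))
  obtain ⟨g', g1, g2⟩ := hY δ hδ
  have g3 : ∀ x y, g' x = g' y → dist (S.g x) (S.g y) < S.γ / 10 ∧ dist (f x) (f y) < ε / 2 :=
    fun x y e => by
      have := d1 (g2 x y e)
      rw [Prod.dist_eq, max_lt_iff, lt_min_iff, lt_min_iff] at this
      exact ⟨this.1.1, this.2.2⟩
  obtain ⟨H, hH, γ', h1, h2⟩ := factor g1 h.g fun x y e => (g3 x y e).1
  have grid : ∀ j : ℕ, u / 16 ≤ |j * u - (i + 7 / 16) * u| := fun j => by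
    rw [le_abs]
    rcases le_or_gt j i with e | e
    · have : (j : ℝ) ≤ i := by exact_mod_cast e
      right; nlinarith
    · have : (i : ℝ) + 1 ≤ j := by exact_mod_cast e
      left; nlinarith
  obtain ⟨S', hS, e1, e2, e3, e4, e5, e6⟩ := make (y₀ := y₀) hf (half_pos hε) g1
    (fun x y e => (g3 x y e).2) hκ (by rw [r2 0 (by simpa using grid 0), h.k0])
    (by rw [r2 1 (mu ▸ grid S.M), h.k1]) (σ := (i + 1 / 2) * u) (σ' := (i + 5 / 8) * u)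
    (by positivity) (by linarith) (by linarith) (fun s hs => by
      rw [r2 s (le_abs.2 (Or.inl (by linarith [hs.1]))), r3 s ⟨by linarith [hs.1],
        by linarith [hs.2]⟩]) h1 (8 * S.M)
  have v1 : ∀ s z, |S'.ψ s - S'.g z| ≤ S'.γ / 10 → |H (S'.ψ s) - S.g z| ≤ S.γ / 10 :=
    fun s z e => h2 z _ (by rw [← e1]; linarith [hS.γ])
  have v2 : ∀ s, S'.κ s ⊆ S.κ s := fun s => e2 ▸ inter_subset_left
  have v3 : 2 / (S'.M : ℝ) ≤ u / 4 := by
    have : (8 : ℝ) * S.M ≤ S'.M := by exact_mod_cast e6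
    rw [div_le_iff₀ (by linarith)]
    nlinarith
  have v4 : ∀ s, S.κ s = {y₀} → |H (S'.ψ s) - S.a s| ≤ 3 * S.γ / 10 := fun s e => by
    obtain ⟨z, a1, a2⟩ := hS.near s
    obtain ⟨w, a3, a4⟩ : S.a s ∈ S.g '' S.κ s := (h.rng s).2 ▸ left_mem_Icc.2 (h.rng s).1
    have a5 := v2 s a1
    rw [e] at a3 a5
    rw [← a4, a3, ← a5]
    linarith [v1 s z a2]
  have key : ∀ j ≤ S.M, ∃ t : ℝ, (j = 0 → t = 0) ∧ (j = S.M → t = 1) ∧ |t - j / S.M| ≤ 1 / (4 * S.M) ∧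
      t ∈ Icc (0 : ℝ) 1 ∧ |H (S'.ψ t) - if Even j then S.a t else S.b t + S.γ / 10| ≤
        3 * S.γ / 10 := by
    intro j hj
    rcases Nat.eq_zero_or_pos j with rfl | j0
    · exact ⟨0, fun _ => rfl, fun e => absurd e h.M.ne, by simp, by simp,
        by simpa using v4 0 h.k0⟩
    rcases hj.eq_or_lt with rfl | j1
    · exact ⟨1, fun e => absurd e h.M.ne', fun _ => rfl, by simp [hM.ne'], by simp,
        by simpa [h.even] using v4 1 h.k1⟩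
    have j2 : (1 : ℝ) ≤ j := by exact_mod_cast j0
    have j3 : (j : ℝ) + 1 ≤ S.M := by exact_mod_cast j1
    have j4 : u ≤ j * u := by nlinarith
    have j5 : j * u + u ≤ 1 := by nlinarith
    obtain ⟨z, a1, a2⟩ : (if Even j then S.a (j * u) else S.b (j * u)) ∈ S.g '' S.κ (j * u) := by
      rw [(h.rng _).2]
      split_ifs
      · exact left_mem_Icc.2 (h.rng _).1
      · exact right_mem_Icc.2 (h.rng _).1
    obtain ⟨t, a3, a4⟩ := hS.hit (s₀ := j * u) (y := z) (by linarith) (by linarith)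
      (by rw [e2]; simp only; rwa [r2 _ (grid j)])
    have a5 := abs_le.1 (a3.trans v3)
    have a6 : t ∈ Icc (0 : ℝ) 1 := ⟨by linarith [a5.1], by linarith [a5.2]⟩
    obtain ⟨a7, a8⟩ := h.osc t a6 (j * u) ⟨by linarith, by linarith⟩
      (by rw [du]; linarith [a3.trans v3])
    have a9 := v1 t z a4
    refine ⟨t, fun e => absurd e j0.ne', fun e => absurd e j1.ne, ?_, a6, ?_⟩
    · rw [du, show 1 / (4 * (S.M : ℝ)) = u / 4 by rw [hu]; ring]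
      exact a3.trans v3
    · rw [a2] at a9
      rw [abs_le] at *
      split_ifs at a9 ⊢ <;> constructor <;> linarith [a7.1, a7.2, a8.1, a8.2, a9.1, a9.2]
  choose! τ τ0 τ1 τ2 using key
  obtain ⟨φ, f1, f2, f3, f4⟩ := lift (θ := S.γ / 10) (v := fun s => H (S'.ψ s))
    (b := fun s => S.b s + S.γ / 10) h.a
    (h.b.add continuous_const) (hH.comp (saw_cont hS.a (hS.b.add continuous_const) _))
    (fun s => by linarith [(h.rng s).1]) h.M (τ0 0 (Nat.zero_le _) rfl) (τ1 _ le_rfl rfl) τ2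
    (fun s _ => by
      obtain ⟨z, a1, a2⟩ := hS.near s
      have a3 : S.g z ∈ Icc (S.a s) (S.b s) := (h.rng s).2 ▸ mem_image_of_mem _ (v2 s a1)
      have a4 := abs_le.1 (v1 s z a2)
      constructor <;> linarith [a3.1, a3.2, a4.1, a4.2])
    fun s hs s' hs' e => by simpa using h.osc s hs s' hs' e
  refine ⟨S', φ, (i + 13 / 32) * u, (i + 15 / 32) * u, hS, f1, f2, f3, fun s hs => ?_, by linarith,
    by linarith, by rw [e3]; linarith, by rw [e4]; linarith, fun s hs => ?_, fun s hs => ?_⟩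
  · obtain ⟨a1, a2, a3⟩ := f4 s hs
    obtain ⟨z, a4, a5⟩ := hS.near s
    have a6 := h.tol z (S.ψ (φ s)) (by
      have := abs_sub_le (S.ψ (φ s)) (H (S'.ψ s)) (S.g z)
      have a7 : |S.ψ (φ s) - H (S'.ψ s)| ≤ 2 * (3 * S.γ / 10) + S.γ / 10 := a3
      linarith [v1 s z a5])
    have a7 := hS.tol z (S'.ψ s) (by linarith [hS.γ])
    refine ⟨a1, by rw [du] at a2; linarith [h.Mε], ?_⟩
    simp only [St.p]
    linarith [dist_triangle_right (S.A (S.ψ (φ s))) (S'.A (S'.ψ s)) (f z)]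
  · rw [e2]
    simp only
    rw [r3 s ⟨by linarith [hs.1], by linarith [hs.2]⟩, univ_inter]
    refine y0 _ ?_
    have : |s - (i + 7 / 16) * u| ≤ u / 32 := abs_le.2 ⟨by linarith [hs.1], by linarith [hs.2]⟩
    have := mul_le_mul_of_nonneg_right this (by positivity : (0 : ℝ) ≤ 32 * S.M)
    simp only [ρ]
    nlinarith
  · rw [e2]
    exact r2 s (le_abs.2 (Or.inr (by linarith)))

theorem exists_start [CompactSpace Y] [ConnectedSpace Y] (hf : Continuous f)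
    (hY : ∀ ε : ℝ, 0 < ε → ∃ g : Y → ℝ, Continuous g ∧ ∀ y y' : Y, g y = g y' → dist y y' < ε)
    (y₀ : Y) : ∃ S, Ok f y₀ 1 S := by
  obtain ⟨κ, hκ, y0, y1⟩ := exists_order_arc y₀
  obtain ⟨δ, hδ, d1⟩ := Metric.uniformContinuous_iff.1
    (CompactSpace.uniformContinuous_of_continuous hf) 1 one_pos
  obtain ⟨g, g1, g2⟩ := hY δ hδ
  obtain ⟨S, hS, -⟩ := make (y₀ := y₀) hf one_pos g1 (fun x y e => d1 (g2 x y e))
    (hκ.comp (ρ := fun s => 3 * min s (1 - s)) (by fun_prop)) (y0 _ (by simp)) (y0 _ (by simp))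
    (σ := 1 / 3) (σ' := 2 / 3) (by norm_num) (by norm_num) (by norm_num) (fun s hs => y1 _ (by
      have : 1 / 3 ≤ min s (1 - s) := le_min hs.1 (by linarith [hs.2])
      linarith)) one_pos 0
  exact ⟨S, hS⟩

end Pool.Agent.Lib.BD5
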