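import Pool.Agent.Lib.BD5.Side
import Pool.Agent.Lib.BD5.Baire

set_option autoImplicit false

open Set Topology Filter Function Complex Metric

namespace Pool.Agent.Lib.BD5

open Pool.Agent.Lib.MP_1126ca_gt

variable {K : Set ℂ} {N U : Set (Z K)}

/-- The hairs near `ν` land in `U` and their feet are tied to the foot of `ν`. -/
structure Prep (N U : Set (Z K)) (ν : Z K) (n : ℂ → ℂ) : Prop where
  mem : ν ∈ N ∩ U
  lim : Tendsto n (fl ν) (𝓝 (pj ν))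
  hair : ∀ᶠ z in fl ν, Hr K (pj '' N) z (n z) ∧
    ∀ m ∈ closure (Sd z (n z) I N), m ∈ closure (Sd z (n z) (-I) N) → m ∈ U
  tie : ∀ W ∈ 𝓝 (pj ν), ∀ᶠ z in fl ν, n z ∈ pj '' (N ∩ U) ∨
    ∃ J, J ⊆ K ∩ W ∧ IsPreconnected J ∧ pj ν ∈ J ∧ n z ∈ J

theorem NS.lim_land (hK : NS K) (ν : Z K) {n : ℂ → ℂ} (hn : Tendsto n (fl ν) (𝓝 (pj ν))) {t : ℂ}
    (ht : t ∈ K) : Tendsto (fun z => F K z t * rt (n z) z t) (fl ν) (𝓝 (sg ν t)) := by
  by_cases h : pj ν = t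
  · rw [← h, hK.sg_self, tendsto_zero_iff_norm_tendsto_zero]
    have a2 : Tendsto (fun w => √‖pj ν - n w‖) (fl ν) (𝓝 0) := by
      simpa using (((tendsto_const_nhds (x := pj ν)).sub hn).norm).sqrt
    refine a2.congr' ?_
    filter_upwards [fl_V ν] with w hw
    rw [← mul_rt_sq' (fun e : w = pj ν => hw (Or.inl (e ▸ pj_mem ν))) ((hK.FK hw).2 _ (pj_mem ν)),
      norm_pow, Real.sqrt_sq (norm_nonneg _)]
  · simpa using (fl_sg ν ht).mul (tendsto_rt_one hn (fl_le ν) tendsto_const_nhds h)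

theorem NS.prep (hK : NS K) (hN : IsCompact N) (hp : IsPreconnected N) (hnt : N.Nontrivial)
    (hU : IsOpen U) (hne : (N ∩ U).Nonempty) {S : Set ℂ} (hS : S.Finite) :
    ∃ ν n, Prep N U ν n ∧ pj ν ∉ S := by
  obtain ⟨ν₀, hν₀⟩ := hne
  obtain ⟨T, W₀, V, hT, hTK, hW, hV, a1, a2, a3⟩ := basic hU hν₀.2
  choose! ℓ α hA using fun t (ht : t ∈ K) => hK.arc ht
  obtain ⟨U', b1, b2, b3, b4⟩ := hK.gen hN hp hnt T hT (fun t ht => hA t (hTK ht))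
    (pj ⁻¹' W₀ ∩ ⋂ t ∈ T, (fun μ => sg μ t) ⁻¹' V t) ((hW.preimage pj_cont).inter
      (hT.isOpen_biInter fun t _ => (hV t).preimage (sg_cont t))) ⟨ν₀, hν₀.1, a1, mem_iInter₂.2 a2⟩
  obtain ⟨ν, c1, c2⟩ := hK.small hN hp hnt b1 b2 (hS.insert 0)
  have c3 : pj ν ≠ 0 := fun e => c2 (Or.inl e)
  have c4 := mem_iInter₂.1 (b3 c1.2).2
  choose n hn1 hn2 using fun w => (hN.image pj_cont).exists_infDist_eq_dist ⟨_, ν, c1.1, rfl⟩ w
  have hle : ∀ w, ∀ p ∈ pj '' N, dist w (n w) ≤ dist w p := fun w p hp =>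
    hn2 w ▸ infDist_le_dist_of_mem hp
  have d1 : Tendsto n (fl ν) (𝓝 (pj ν)) := by
    rw [tendsto_iff_dist_tendsto_zero]
    have : Tendsto (fun w => 2 * dist w (pj ν)) (fl ν) (𝓝 0) := by
      simpa using (tendsto_iff_dist_tendsto_zero.1 (fl_le ν)).const_mul 2
    refine squeeze_zero (fun _ => dist_nonneg) (fun w => ?_) this
    have := hle w (pj ν) ⟨ν, c1.1, rfl⟩
    linarith [dist_triangle_left (n w) (pj ν) w]
  have d2 : ∀ᶠ z in fl ν, Hr K (pj '' N) z (n z) := by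
    filter_upwards [fl_V ν, d1 (isOpen_ne.mem_nhds c3),
      ev_segment isClosed_Ray (hK.not_ray (pj_mem ν) c3) (fl_le ν) d1] with w e1 e2 e3
    refine ⟨hn1 w, e2, e1, fun p hp hp' => hp'.elim (fun e => ?_) fun e => absurd e (e3 p hp)⟩
    have c4 := dist_add_dist_of_mem_segment hp
    exact dist_le_zero.1 (by linarith [hle w p e])
  have d3 : ∀ᶠ z in fl ν, ∀ t ∈ T, ∀ p ∈ segment ℝ z (n z), p ∈ α t '' Icc 0 (ℓ t) → p = n z := by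
    refine (eventually_all_finite hT).2 fun t ht => ?_
    filter_upwards [d2, ev_segment (isOpen_interior (s := {u | u ∈ α t '' Icc 0 (ℓ t) →
      u ∈ pj '' N})).isClosed_compl (not_not.2 (mem_interior_iff_mem_nhds.2 (b4 ν c1.2 t ht)))
      (fl_le ν) d1] with z e1 e2 p e3 e4
    exact e1.seg p e3 (Or.inl (interior_subset (not_not.1 (e2 p e3)) e4))
  have d4 : ∀ᶠ z in fl ν, ∀ t ∈ T, F K z t * rt (n z) z t ∈ V t :=
    (eventually_all_finite hT).2 fun t ht =>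
      hK.lim_land ν d1 (hTK ht) ((hV t).mem_nhds (c4 t ht))
  have d5 : ∀ᶠ z in fl ν, n z ∈ W₀ := d1 (hW.mem_nhds (b3 c1.2).1)
  refine ⟨ν, n, ⟨⟨c1.1, a3 ν (b3 c1.2).1 c4⟩, d1, ?_, fun W hW' => ?_⟩, fun e => c2 (Or.inr e)⟩
  · filter_upwards [d2, d3, d4, d5] with z e1 e2 e3 e4
    refine ⟨e1, fun m h1 h2 => a3 m (e1.pj_eq hK hN h1 h2 ▸ e4) fun t ht => ?_⟩
    rw [e1.land hK hN h1 h2 (hA t (hTK ht)) (e2 t ht)]
    exact e3 t ht
  · filter_upwards [d2, d3, d4, d5, (eventually_all_finite hT).2 fun t ht =>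
      d1 (arc_local (hA t (hTK ht)).cont (hA t (hTK ht)).inj hW')] with z e1 e2 e3 e4 e5
    by_cases h : ∃ t ∈ T, n z ∈ α t '' Icc 0 (ℓ t)
    · obtain ⟨t, ht, h⟩ := h
      obtain ⟨J, f1, f2⟩ := e5 t ht h
      exact Or.inr ⟨J, f1.trans (inter_subset_inter_left _ (hA t (hTK ht)).sub), f2⟩
    · obtain ⟨μ, f1, f2⟩ := hn1 z
      refine Or.inl ⟨μ, ⟨f1, a3 μ (f2 ▸ e4) fun t ht => ?_⟩, f2⟩
      rw [e1.sg_off hK (hA t (hTK ht)) (fun p g1 g2 => h ⟨t, ht, e2 t ht p g1 g2 ▸ g2⟩) f2]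
      exact e3 t ht

/-- The roots at the points of `V` are continued without defect over the feet of `U`. -/
def Tied (N U V : Set (Z K)) : Prop :=
  ∀ ν ∈ N ∩ U, ∀ ν' ∈ N ∩ U, ∀ μ ∈ V, sg μ (pj ν) = sg μ (pj ν') * rt (pj ν) (pj ν') (pj μ)

theorem Tied.mono {V U' V' : Set (Z K)} (h : Tied N U V) (h1 : U' ⊆ U) (h2 : V' ⊆ V) :
    Tied N U' V' := fun ν a ν' b μ c => h ν ⟨a.1, h1 a.2⟩ ν' ⟨b.1, h1 b.2⟩ μ (h2 c)

theorem Prep.side {ν μ : Z K} {n : ℂ → ℂ} (h : Prep N U ν n) (hK : NS K) {V : Set (Z K)}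
    (ht : Tied N U V) (hμ : μ ∈ N ∩ V) (hne : pj ν ≠ pj μ) {c : ℂ} (hc : c ^ 2 = -1)
    (e : sg μ (pj ν) = c * sg ν (pj μ)) : ∀ᶠ z in fl ν, μ ∈ Sd z (n z) c N := by
  obtain ⟨η, hη, hb⟩ := Metric.nhds_basis_closedBall.mem_iff.1 (isOpen_ne.mem_nhds hne)
  have a1 : ∀ᶠ z in fl ν, sg μ (n z) = sg μ (pj ν) * rt (n z) (pj ν) (pj μ) := by
    filter_upwards [h.tie _ (closedBall_mem_nhds _ hη)] with z hz
    rcases hz with ⟨κ, b1, b2⟩ | ⟨J, b1, b2, b3, b4⟩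
    · rw [← b2]
      exact ht κ b1 ν h.mem μ hμ.2
    · exact hK.dir μ b2 (b1.trans inter_subset_left) (b1.trans inter_subset_right)
        (convex_closedBall _ _) isClosed_closedBall (fun e => hb e rfl) b4 b3
  have a2 : ∀ᶠ z in fl ν, n z ≠ pj μ := h.lim (isOpen_ne.mem_nhds hne)
  have a3 : ∀ᶠ z in fl ν, sg μ (n z) * rt z (n z) (pj μ) = c * F K z (pj μ) := by
    refine sq_ev (a := sg μ (pj ν)) ?_ (e ▸ tendsto_const_nhds.mul (fl_sg ν (pj_mem μ)))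
      (ne_zero_of_sq (hK.sg_sq μ (pj_mem ν)) hne) ?_
    · have := ((tendsto_const_nhds (x := sg μ (pj ν))).mul (tendsto_rt_one h.lim tendsto_const_nhds
        tendsto_const_nhds hne)).mul (tendsto_rt_one (fl_le ν) h.lim tendsto_const_nhds hne)
      rw [mul_one, mul_one] at this
      exact this.congr' (a1.mono fun z hz => by simp only [hz, id])
    · filter_upwards [h.hair, a2] with z b1 b2
      rw [mul_rt_sq b2 (hK.sg_sq μ b1.1.memK), mul_pow, hc, (hK.FK b1.1.out).2 _ (pj_mem μ)]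
      ring
  filter_upwards [a2, a3] with z b1 b2 using ⟨hμ.1, b1.symm, b2⟩

/-- A point of `U₁` cuts `N` between a point of `U₂` and a point of `U₃`. -/
def Sep {X : Type} [TopologicalSpace X] (N U₁ U₂ U₃ : Set X) : Prop :=
  ∃ (A B : Set X) (m : X), IsCompact A ∧ IsCompact B ∧ A ∪ B = N ∧ A ∩ B ⊆ {m} ∧ m ∈ A ∧ m ∈ B ∧
    m ∈ U₁ ∧ (∃ a ∈ U₂, a ∈ A ∧ a ∉ B) ∧ ∃ b ∈ U₃, b ∈ B ∧ b ∉ A

theorem Sep.symm {X : Type} [TopologicalSpace X] {N U₁ U₂ U₃ : Set X} (h : Sep N U₁ U₂ U₃) :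
    Sep N U₁ U₃ U₂ := by
  obtain ⟨A, B, m, h1, h2, h3, h4, h5, h6, h7, h8, h9⟩ := h
  exact ⟨B, A, m, h2, h1, union_comm A B ▸ h3, inter_comm A B ▸ h4, h6, h5, h7, h9, h8⟩

theorem Sep.mono {X : Type} [TopologicalSpace X] {N U₁ U₂ U₃ V₁ V₂ V₃ : Set X}
    (h : Sep N U₁ U₂ U₃) (e1 : U₁ ⊆ V₁) (e2 : U₂ ⊆ V₂) (e3 : U₃ ⊆ V₃) : Sep N V₁ V₂ V₃ := by
  obtain ⟨A, B, m, h1, h2, h3, h4, h5, h6, h7, ⟨a, h8, h8'⟩, b, h9, h9'⟩ := h
  exact ⟨A, B, m, h1, h2, h3, h4, h5, h6, e1 h7, ⟨a, e2 h8, h8'⟩, b, e3 h9, h9'⟩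

theorem Prep.sep {ν a b : Z K} {n : ℂ → ℂ} (h : Prep N U ν n) (hK : NS K) (hN : IsCompact N)
    (hp : IsPreconnected N) (hnt : N.Nontrivial) {V W : Set (Z K)} (hV : Tied N U V)
    (hW : Tied N U W) (ha : a ∈ N ∩ V) (hb : b ∈ N ∩ W) (na : pj ν ≠ pj a) (nb : pj ν ≠ pj b)
    (ea : sg a (pj ν) = I * sg ν (pj a)) (eb : sg b (pj ν) = -I * sg ν (pj b)) : Sep N U V W := by
  obtain ⟨z, ⟨h1, h2⟩, h3, h4⟩ := (h.hair.and ((h.side hK hV ha na I_sq ea).and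
    (h.side hK hW hb nb (by simp) eb))).exists
  obtain ⟨m, -, m1, m2⟩ := isPreconnected_closed_iff.1 hp _ _ isClosed_closure isClosed_closure
    (h1.cover hK hN hp hnt).symm.subset ⟨a, ha.1, subset_closure h3⟩ ⟨b, hb.1, subset_closure h4⟩
  exact ⟨_, _, m, hN.of_isClosed_subset isClosed_closure (closure_sd hN),
    hN.of_isClosed_subset isClosed_closure (closure_sd hN), h1.cover hK hN hp hnt,
    fun κ hκ => h1.unique hK hN hp h3 h4 hκ.1 hκ.2 m1 m2, m1, m2, h2 m m1 m2,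
    ⟨a, ha.2, subset_closure h3, fun e => h1.not_both hK h3 (h1.rel_closed hK hN e h3.2.1)⟩,
    b, hb.2, subset_closure h4, fun e => h1.not_both hK (h1.rel_closed hK hN e h4.2.1) h4⟩

theorem NS.sign (hK : NS K) (a b : Z K) :
    (sg a (pj b) = I * sg b (pj a) ∧ sg b (pj a) = -I * sg a (pj b)) ∨
      (sg a (pj b) = -I * sg b (pj a) ∧ sg b (pj a) = I * sg a (pj b)) := by
  rcases eq_or_eq_neg_of_sq_eq_sq (sg a (pj b)) (I * sg b (pj a)) (by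
    rw [mul_pow, hK.sg_sq a (pj_mem b), hK.sg_sq b (pj_mem a), I_sq]
    ring) with e | e
  · exact Or.inl ⟨e, by rw [e]; linear_combination sg b (pj a) * I_sq⟩
  · exact Or.inr ⟨by rw [e, neg_mul], by rw [e]; linear_combination sg b (pj a) * I_sq⟩

theorem NS.triple (hK : NS K) (hN : IsCompact N) (hp : IsPreconnected N) (hnt : N.Nontrivial)
    {A B C : Set (Z K)} (hA : IsOpen A) (nA : (N ∩ A).Nonempty) (hB : IsOpen B)
    (nB : (N ∩ B).Nonempty) (hC : IsOpen C) (nC : (N ∩ C).Nonempty) :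
    Sep N A B C ∨ Sep N B A C ∨ Sep N C A B := by
  obtain ⟨A₁, B₁, a1, a2, a3, a4, a5, a6, t1⟩ := hK.pair hN hp hnt hA nA hB nB
  obtain ⟨B₂, A₂, b1, b2, b3, b4, b5, b6, t2⟩ := hK.pair hN hp hnt a4 a5 a1 a2
  obtain ⟨A₃, C₃, c1, c2, c3, c4, c5, c6, t3⟩ := hK.pair hN hp hnt b4 b5 hC nC
  obtain ⟨C₄, A₄, d1, d2, d3, d4, d5, d6, t4⟩ := hK.pair hN hp hnt c4 c5 c1 c2
  obtain ⟨B₅, C₅, e1, e2, e3, e4, e5, e6, t5⟩ := hK.pair hN hp hnt b1 b2 d1 d2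
  obtain ⟨C₆, B₆, f1, f2, f3, f4, f5, f6, t6⟩ := hK.pair hN hp hnt e4 e5 e1 e2
  have ab : Tied N A₄ B₆ := Tied.mono t1 (d6.trans (c3.trans b6)) (f6.trans (e3.trans b3))
  have ba : Tied N B₆ A₄ := Tied.mono t2 (f6.trans e3) (d6.trans c3)
  have ac : Tied N A₄ C₆ := Tied.mono t3 d6 (f3.trans (e6.trans d3))
  have ca : Tied N C₆ A₄ := Tied.mono t4 (f3.trans e6) Subset.rfl
  have bc : Tied N B₆ C₆ := Tied.mono t5 f6 f3
  have cb : Tied N C₆ B₆ := t6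
  have sA : A₄ ⊆ A := d6.trans (c3.trans (b6.trans a3))
  have sB : B₆ ⊆ B := f6.trans (e3.trans (b3.trans a6))
  have sC : C₆ ⊆ C := f3.trans (e6.trans (d3.trans c6))
  obtain ⟨a, na, pa, -⟩ := hK.prep hN hp hnt d4 d5 finite_empty
  obtain ⟨b, nb, pb, g1⟩ := hK.prep hN hp hnt f4 f5 (finite_singleton (pj a))
  obtain ⟨c, nc, pc, g2⟩ := hK.prep hN hp hnt f1 f2 ((finite_singleton (pj a)).insert (pj b))
  have n1 : pj b ≠ pj a := g1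
  have n2 : pj c ≠ pj a := fun e => g2 (Or.inr e)
  have n3 : pj c ≠ pj b := fun e => g2 (Or.inl e)
  rcases hK.sign a b with ⟨p1, p2⟩ | ⟨p1, p2⟩ <;> rcases hK.sign a c with ⟨q1, q2⟩ | ⟨q1, q2⟩
  · rcases hK.sign b c with ⟨r1, r2⟩ | ⟨r1, r2⟩
    · exact Or.inr (Or.inl ((pb.sep hK hN hp hnt ba bc pa.mem pc.mem n1 n3.symm p1 r2).mono sB sA sC))
    · exact Or.inr (Or.inr ((pc.sep hK hN hp hnt ca cb pa.mem pb.mem n2 n3 q1 r1).mono sC sA sB))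
  · exact Or.inl ((pa.sep hK hN hp hnt ac ab pc.mem pb.mem n2.symm n1.symm q2 p2).symm.mono sA sB sC)
  · exact Or.inl ((pa.sep hK hN hp hnt ab ac pb.mem pc.mem n1.symm n2.symm p2 q2).mono sA sB sC)
  · rcases hK.sign b c with ⟨r1, r2⟩ | ⟨r1, r2⟩
    · exact Or.inr (Or.inr ((pc.sep hK hN hp hnt cb ca pb.mem pa.mem n3 n2 r1 q1).symm.mono sC sA sB))
    · exact Or.inr (Or.inl ((pb.sep hK hN hp hnt bc ba pc.mem pa.mem n3.symm n1 r2 p1).symm.mono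
        sB sA sC))

theorem Sep.false {X : Type} [TopologicalSpace X] [T2Space X] {M U₁ U₂ U₃ Q : Set X}
    (h : Sep M U₁ U₂ U₃) (hQ : IsPreconnected Q) (h1 : Q ⊆ M) (h2 : Q ⊆ U₁ᶜ) (h3 : M ∩ U₂ ⊆ Q)
    (h4 : M ∩ U₃ ⊆ Q) : False := by
  obtain ⟨A, B, m, a1, a2, a3, a4, -, -, a7, ⟨a, a8, a9, -⟩, b, b1, b2, -⟩ := h
  obtain ⟨u, c1, c2⟩ := isPreconnected_closed_iff.1 hQ A B a1.isClosed a2.isClosed (a3 ▸ h1)
    ⟨a, h3 ⟨a3 ▸ Or.inl a9, a8⟩, a9⟩ ⟨b, h4 ⟨a3 ▸ Or.inr b2, b1⟩, b2⟩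
  exact h2 c1 (a4 c2 ▸ a7)

theorem hasCut_of_triple {X : Type} [TopologicalSpace X] [T2Space X]
    (h : ∀ M A B C : Set X, IsCompact M → IsPreconnected M → M.Nontrivial → IsOpen A →
      (M ∩ A).Nonempty → IsOpen B → (M ∩ B).Nonempty → IsOpen C → (M ∩ C).Nonempty →
        Sep M A B C ∨ Sep M B A C ∨ Sep M C A B)
    {M : Set X} (hM : IsCompact M) (hp : IsPreconnected M) (hnt : M.Nontrivial) : HasCut M := by
  have key : ∀ (A B : Set X) (m b : X), IsCompact B → IsPreconnected B → A ∩ B ⊆ {m} → m ∈ B →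
      b ∈ B → b ∉ A → Nested A m := by
    intro A B m b hB pB hAB mB bB bA C D h1 h2 h3 h4 h5 h6 h7 h8
    by_contra hcon
    push Not at hcon
    obtain ⟨c, c1, c2⟩ := not_subset.1 hcon.1
    obtain ⟨d, d1, d2⟩ := not_subset.1 hcon.2
    have c3 : c ∉ B := fun e => c2 (hAB ⟨h1 c1, e⟩ ▸ h8)
    have d3 : d ∉ B := fun e => d2 (hAB ⟨h2 d1, e⟩ ▸ h7)
    rcases h (C ∪ D ∪ B) (D ∪ B)ᶜ (C ∪ B)ᶜ (C ∪ D)ᶜ ((h3.union h4).union hB)
      ((h5.union m h7 h8 h6).union m (Or.inl h7) mB pB)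
      ⟨c, Or.inl (Or.inl c1), d, Or.inl (Or.inr d1), fun e => c2 (e ▸ d1)⟩
      (h4.union hB).isClosed.isOpen_compl ⟨c, Or.inl (Or.inl c1), fun e => e.elim c2 c3⟩
      (h3.union hB).isClosed.isOpen_compl ⟨d, Or.inl (Or.inr d1), fun e => e.elim d2 d3⟩
      (h3.union h4).isClosed.isOpen_compl ⟨b, Or.inr bB, fun e => bA (e.elim (@h1 b) (@h2 b))⟩
      with k | k | k
    · exact k.false (h6.union m h8 mB pB) (by grind) (compl_compl _).symm.subset (by grind) (by grind)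
    · exact k.false (h5.union m h7 mB pB) (by grind) (compl_compl _).symm.subset (by grind) (by grind)
    · exact k.false (h5.union m h7 h8 h6) (by grind) (compl_compl _).symm.subset (by grind) (by grind)
  have hne : (M ∩ univ).Nonempty := by simpa using hnt.nonempty
  obtain ⟨A, B, m, a1, a2, a3, a4, a5, a6, -, ⟨a, -, a8, a9⟩, b, -, b1, b2⟩ : Sep M univ univ univ := by
    simpa using h M univ univ univ hM hp hnt isOpen_univ hne isOpen_univ hne isOpen_univ hne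
  have pA := preconnected_of_cut a1.isClosed a2.isClosed (a3 ▸ hp) a4
  have pB := preconnected_of_cut a2.isClosed a1.isClosed (union_comm A B ▸ a3 ▸ hp)
    (inter_comm A B ▸ a4)
  exact ⟨A, B, m, a1, a2, a3, fun e => b2 (e ▸ a3 ▸ Or.inr b1), fun e => a9 (e ▸ a3 ▸ Or.inl a8),
    a4, a5, a6, key A B m b a2 pB a4 a6 b1 b2, key B A m a a1 pA (inter_comm A B ▸ a4) a5 a8 a9⟩

theorem NS.good (hK : NS K) {D : Z K → Z K → ℝ} (hD : PM D) {ε : ℝ} (hε : 0 < ε) :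
    Good D ε univ := by
  have := hK.compactZ
  have := hK.connZ
  exact good_univ (fun M h1 h2 h3 => hasCut_of_triple (fun _ _ _ _ a1 a2 a3 a4 a5 a6 a7 a8 a9 =>
    hK.triple a1 a2 a3 a4 a5 a6 a7 a8 a9) h1 h2 h3) hD hε

end Pool.Agent.Lib.BD5
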