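import Pool.Agent.Lib.BD5.Base

set_option autoImplicit false

open Set Topology Filter Function Complex Metric

namespace Pool.Agent.Lib.BD5

open Pool.Agent.Lib.MP_1126ca_gt

variable {K : Set ℂ}

theorem NS.im_le (hK : NS K) {z : ℂ} (hz : z ∈ K) : -1 ≤ z.im ∧ z.im ≤ 1 ∧ -2 ≤ z.re := by
  have := hK.ineq hz
  refine ⟨?_, ?_, ?_⟩ <;> nlinarith [sq_nonneg (z.re + 1)]

theorem NS.connV (hK : NS K) : IsPreconnected (K ∪ Ray)ᶜ := by
  let O : Set ℂ := (({z | 0 < z.re} ∩ {z | 0 < z.im}) ∪ {z | 1 < z.im}) ∪ {z | z.re < -2} ∪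
    ({z | z.im < -1} ∪ ({z | 0 < z.re} ∩ {z | z.im < 0}))
  have hO : IsPreconnected O := by
    refine IsPreconnected.union (-3 - 2 * I) (Or.inr (by norm_num)) (Or.inl (by norm_num)) ?_ ?_
    · refine IsPreconnected.union (-3 + 2 * I) (Or.inr (by norm_num)) (by norm_num) ?_
        (convex_halfSpace_re_lt _).isPreconnected
      exact IsPreconnected.union (1 + 2 * I) ⟨by norm_num, by norm_num⟩ (by norm_num)
        ((convex_halfSpace_re_gt _).inter (convex_halfSpace_im_gt _)).isPreconnected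
        (convex_halfSpace_im_gt _).isPreconnected
    · exact IsPreconnected.union (1 - 2 * I) (by norm_num) ⟨by norm_num, by norm_num⟩
        (convex_halfSpace_im_lt _).isPreconnected
        ((convex_halfSpace_re_gt _).inter (convex_halfSpace_im_lt _)).isPreconnected
  have hOV : O ⊆ (K ∪ Ray)ᶜ := by
    rintro z hz (e | e)
    · have h1 := hK.im_le e
      have h2 := hK.re_le e
      rcases hz with ((h | h) | h) | h | h <;> simp only [mem_inter_iff, mem_ofPred_eq] at h <;>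
        linarith
    · have h1 := e.1
      have h2 := e.2
      rcases hz with ((h | h) | h) | h | h <;> simp only [mem_inter_iff, mem_ofPred_eq] at h <;>
        linarith
  have hV : IsOpen (K ∪ Ray)ᶜ := (hK.cpt.isClosed.union isClosed_Ray).isOpen_compl
  have key : ∀ P Q : Set ℂ, IsOpen P → IsOpen Q → (K ∪ Ray)ᶜ ⊆ P ∪ Q →
      (K ∪ Ray)ᶜ ∩ (P ∩ Q) = ∅ → O ⊆ P → (K ∪ Ray)ᶜ ⊆ P := by
    intro P Q hP hQ hc hd hOP
    have hpos : ∀ z : ℂ, 0 < z.re → z ∉ Ray → z ∈ P := fun z h1 h2 => by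
      rcases lt_trichotomy z.im 0 with h | h | h
      · exact hOP (Or.inr (Or.inr ⟨h1, h⟩))
      · exact absurd ⟨h1.le, h⟩ h2
      · exact hOP (Or.inl (Or.inl (Or.inl ⟨h1, h⟩)))
    rcases isPreconnected_iff_subset_of_disjoint.1 hK.compl (P ∪ {z | 0 < z.re}) ((K ∪ Ray)ᶜ ∩ Q)
      (hP.union (isOpen_lt continuous_const continuous_re)) (hV.inter hQ) (fun z hz => by
        by_cases e : z ∈ Ray
        · exact Or.inl (Or.inr (lt_of_le_of_ne e.1 fun h => hz (by
            rw [show z = 0 from Complex.ext h.symm e.2]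
            exact hK.zero)))
        · have : z ∈ (K ∪ Ray)ᶜ := fun h => h.elim hz e
          exact (hc this).imp Or.inl fun h => ⟨this, h⟩) (by
        rw [eq_empty_iff_forall_notMem] at hd ⊢
        rintro z ⟨-, h | h, h2, h3⟩
        · exact hd z ⟨h2, h, h3⟩
        · exact hd z ⟨h2, hpos z h fun e => h2 (Or.inr e), h3⟩) with h | h
    · intro z hz
      exact (h fun e => hz (Or.inl e)).elim id fun e => hpos z e fun e' => hz (Or.inr e')
    · exact absurd (Or.inr one_mem_Ray) (h (show (1 : ℂ) ∉ K from fun e => by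
        simpa using (hK.re_le e).trans_lt one_pos)).1
  refine isPreconnected_iff_subset_of_disjoint.2 fun P Q hP hQ hc hd => ?_
  rcases isPreconnected_iff_subset_of_disjoint.1 hO P Q hP hQ (hOV.trans hc) (by
    rw [eq_empty_iff_forall_notMem] at hd ⊢
    exact fun z hz => hd z ⟨hOV hz.1, hz.2⟩) with h | h
  · exact Or.inl (key P Q hP hQ hc hd h)
  · exact Or.inr (key Q P hQ hP (by rwa [union_comm Q]) (by rwa [inter_comm Q]) h)

theorem conn_thickening {A : Set ℂ} (hA : IsPreconnected A) {δ : ℝ} (hδ : 0 < δ) :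
    IsPreconnected (thickening δ A) := by
  rcases A.eq_empty_or_nonempty with rfl | ⟨a, ha⟩
  · simpa using isPreconnected_empty
  refine isPreconnected_of_forall a fun y hy => ?_
  obtain ⟨z, hz, hyz⟩ := mem_thickening_iff.1 hy
  exact ⟨A ∪ ball z δ, union_subset (self_subset_thickening hδ A) (ball_subset_thickening hz δ),
    Or.inl ha, Or.inr hyz, hA.union z hz (mem_ball_self hδ) (convex_ball z δ).isPreconnected⟩

/-- Horizontal push towards the left half plane. -/
noncomputable def rs (s : ℝ) (w : ℂ) : ℂ := w - (s * max w.re 0 : ℝ)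

theorem rs_re (s : ℝ) (w : ℂ) : (rs s w).re = w.re - s * max w.re 0 := by simp [rs]

theorem rs_im (s : ℝ) (w : ℂ) : (rs s w).im = w.im := by simp [rs]

theorem NS.rs_V (hK : NS K) {s : ℝ} (hs : s ∈ Icc (0 : ℝ) 1) {w : ℂ} (hw : w ∉ K ∪ Ray) :
    rs s w ∉ K ∪ Ray := by
  rcases le_total w.re 0 with h | h
  · simpa [rs, h] using hw
  have h1 : w.im ≠ 0 := fun e => hw (Or.inr ⟨h, e⟩)
  rintro (e | e)
  · have := hK.eq_zero e (by rw [rs_re, max_eq_left h]; nlinarith [hs.2])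
    exact h1 (by rw [← rs_im s, this, zero_im])
  · exact h1 (rs_im s w ▸ e.2)

theorem rs_dist {s : ℝ} (hs : s ∈ Icc (0 : ℝ) 1) {w u : ℂ} (hu : u.re ≤ 0) :
    dist (rs s w) u ≤ dist w u := by
  rw [dist_eq_re_im, dist_eq_re_im, rs_re, rs_im]
  refine Real.sqrt_le_sqrt ?_
  rcases le_total w.re 0 with h | h
  · simp [h]
  · rw [max_eq_left h]
    nlinarith [mul_nonneg hs.1 h, mul_nonneg (sub_nonneg.2 hs.2) h]

theorem NS.collar (hK : NS K) {δ : ℝ} (hδ : 0 < δ) :
    IsPreconnected ((K ∪ Ray)ᶜ ∩ thickening δ K) := by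
  have h1 := unicoherent (hK.cpt.isClosed.union isClosed_Ray).isOpen_compl
    (isOpen_thickening (δ := δ) (E := K ∪ Ray)) hK.connV (conn_thickening
      (hK.tame.conn.union 0 hK.zero zero_mem_Ray convex_Ray.isPreconnected) hδ) (by
      rw [eq_univ_iff_forall]
      intro z
      by_cases e : z ∈ K ∪ Ray
      · exact Or.inr (self_subset_thickening hδ _ e)
      · exact Or.inl e)
  have h2 := h1.image (rs 1) (by unfold rs; fun_prop)
  have h3 : rs 1 '' ((K ∪ Ray)ᶜ ∩ thickening δ (K ∪ Ray)) ⊆ (K ∪ Ray)ᶜ ∩ thickening δ K := by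
    rintro _ ⟨w, ⟨a1, a2⟩, rfl⟩
    refine ⟨hK.rs_V (by simp) a1, ?_⟩
    obtain ⟨u, hu | hu, a3⟩ := mem_thickening_iff.1 a2
    · exact mem_thickening_iff.2 ⟨u, hu, (rs_dist (by simp) (hK.re_le hu)).trans_lt a3⟩
    · refine mem_thickening_iff.2 ⟨0, hK.zero, lt_of_le_of_lt ?_ a3⟩
      rw [dist_eq_re_im, dist_eq_re_im, rs_re, rs_im, hu.2]
      refine Real.sqrt_le_sqrt ?_
      have := hu.1
      rcases le_total w.re 0 with h | h
      · simp only [max_eq_right h, zero_re, zero_im]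
        nlinarith
      · simp only [max_eq_left h, zero_re, zero_im]
        nlinarith [sq_nonneg (w.re - u.re)]
  rcases ((K ∪ Ray)ᶜ ∩ thickening δ K).eq_empty_or_nonempty with e | ⟨a, ha⟩
  · rw [e]
    exact isPreconnected_empty
  have hm : ∀ y ∈ (K ∪ Ray)ᶜ ∩ thickening δ K,
      rs 1 y ∈ rs 1 '' ((K ∪ Ray)ᶜ ∩ thickening δ (K ∪ Ray)) := fun y hy =>
    ⟨y, ⟨hy.1, thickening_subset_of_subset δ subset_union_left hy.2⟩, rfl⟩
  refine isPreconnected_of_forall (rs 1 a) fun y hy => ⟨_ ∪ (fun s => rs s y) '' Icc 0 1,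
    union_subset h3 ?_, Or.inl (hm a ha), Or.inr ⟨0, by simp, by simp [rs]⟩, h2.union (rs 1 y)
      (hm y hy) ⟨1, by simp, rfl⟩ (isPreconnected_Icc.image _ (by unfold rs; fun_prop))⟩
  rintro _ ⟨s, hs, rfl⟩
  obtain ⟨u, hu, a3⟩ := mem_thickening_iff.1 hy.2
  exact ⟨hK.rs_V hs hy.1, mem_thickening_iff.2 ⟨u, hu, (rs_dist hs (hK.re_le hu)).trans_lt a3⟩⟩

theorem NS.FK (hK : NS K) {w : ℂ} (hw : w ∉ K ∪ Ray) : IsRoot K w (F K w) :=
  hK.tame.F_root hK.zero fun e => hw (Or.inl e)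

theorem NS.sg_sq (hK : NS K) (ν : Z K) {t : ℂ} (ht : t ∈ K) : sg ν t ^ 2 = t - pj ν := by
  refine tendsto_nhds_unique ((fl_sg ν ht).pow 2) ((tendsto_const_nhds.sub (fl_le ν)).congr' ?_)
  filter_upwards [fl_V ν] with w hw
  exact ((hK.FK hw).2 t ht).symm

theorem NS.box (hK : NS K) {w : ℂ} (hw : w ∉ K ∪ Ray) {M : ℝ} (hM : ‖w‖ ≤ M) : Psi K w ∈
    closedBall (0 : ℂ) M ×ˢ univ.pi fun t : ℂ => closedBall (0 : ℂ) (1 + (‖t‖ + M)) := by
  have := (norm_nonneg w).trans hM
  refine ⟨mem_closedBall_zero_iff.2 hM, fun t _ => mem_closedBall_zero_iff.2 ?_⟩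
  by_cases ht : t ∈ K
  · simp only [Psi, indicator_of_mem ht]
    exact norm_le_of_sq ((hK.FK hw).2 t ht) ((norm_sub_le _ _).trans (add_le_add_right hM _))
  · simp only [Psi, indicator_of_notMem ht, norm_zero]
    positivity

theorem NS.Psi_cont (hK : NS K) : ContinuousOn (Psi K) (K ∪ Ray)ᶜ := by
  refine continuousOn_id.prodMk (continuousOn_pi.2 fun t w hw => ?_)
  by_cases ht : t ∈ K
  · simp only [indicator_of_mem ht]
    exact (hK.tame.F_cont hK.zero (fun e => hw (Or.inl e)) (fun e => hw (Or.inr e))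
      ht).continuousWithinAt
  · simp only [indicator_of_notMem ht]
    exact continuousWithinAt_const

theorem NS.ZS_cont (hK : NS K) : IsCompact (ZS K) ∧ IsPreconnected (ZS K) := by
  let C : ℝ → Set (ℂ × (ℂ → ℂ)) := fun δ => closure (Psi K '' ((K ∪ Ray)ᶜ ∩ thickening δ K))
  have e : ZS K = ⋂₀ (C '' Ioc 0 1) := by
    ext ν
    simp only [sInter_image, mem_iInter]
    refine ⟨fun h δ hδ => ?_, fun h => ⟨?_, closure_mono (image_mono inter_subset_left)
      (h 1 (by simp))⟩⟩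
    · refine closure_mono ?_ ((isOpen_thickening.preimage continuous_fst).inter_closure
        (t := Psi K '' (K ∪ Ray)ᶜ) ⟨self_subset_thickening hδ.1 K h.1, h.2⟩)
      rintro _ ⟨a, w, hw, rfl⟩
      exact ⟨w, ⟨hw, a⟩, rfl⟩
    · rw [← hK.cpt.isClosed.closure_eq, closure_eq_iInter_cthickening' K (Ioc 0 1) fun ε hε =>
        ⟨min ε 1, ⟨lt_min hε one_pos, min_le_right _ _⟩, lt_min hε one_pos, min_le_left _ _⟩]
      refine mem_iInter₂.2 fun δ hδ => closure_minimal (t := Prod.fst ⁻¹' cthickening δ K) ?_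
        (isClosed_cthickening.preimage continuous_fst) (h δ hδ)
      rintro _ ⟨w, hw, rfl⟩
      exact thickening_subset_cthickening δ K hw.2
  have hne : (C '' Ioc 0 1).Nonempty := ⟨_, 1, by simp, rfl⟩
  have hk : ∀ D ∈ C '' Ioc 0 1, IsCompact D := by
    rintro _ ⟨δ, hδ, rfl⟩
    refine (compact_box 3).of_isClosed_subset isClosed_closure (closure_minimal ?_
      (compact_box 3).isClosed)
    rintro _ ⟨w, hw, rfl⟩
    obtain ⟨u, hu, h⟩ := mem_thickening_iff.1 hw.2
    have h1 := hK.ball hu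
    rw [mem_closedBall] at h1
    refine hK.box hw.1 ?_
    have h2 : dist (-1 : ℂ) 0 = 1 := by simp
    rw [← dist_zero_right]
    linarith [dist_triangle4 w u (-1) 0, hδ.2]
  rw [e]
  refine ⟨chain_compact hne hk, chain_preconnected hne ?_ hk ?_⟩
  · rintro _ ⟨δ, -, rfl⟩ _ ⟨δ', -, rfl⟩ -
    exact (le_total δ δ').imp
      (fun h => closure_mono (image_mono (inter_subset_inter_right _ (thickening_mono h K))))
      fun h => closure_mono (image_mono (inter_subset_inter_right _ (thickening_mono h K)))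
  · rintro _ ⟨δ, hδ, rfl⟩
    exact ((hK.collar hδ.1).image _ (hK.Psi_cont.mono inter_subset_left)).closure

theorem NS.compactZ (hK : NS K) : CompactSpace (Z K) := isCompact_iff_compactSpace.1 hK.ZS_cont.1

theorem NS.exists_pj (hK : NS K) {y : ℂ} (hy : y ∈ K) (h : y ∈ closure (K ∪ Ray)ᶜ) :
    ∃ ν : Z K, pj ν = y := by
  have := mem_closure_iff_nhdsWithin_neBot.1 h
  obtain ⟨U, hU⟩ := Ultrafilter.exists_le (𝓝[(K ∪ Ray)ᶜ] y)
  obtain ⟨ν, -, hν⟩ := (compact_box (‖y‖ + 1)).ultrafilter_le_nhds (U.map (Psi K)) (by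
    rw [le_principal_iff]
    change ∀ᶠ w in U, Psi K w ∈ _
    filter_upwards [hU self_mem_nhdsWithin, hU (nhdsWithin_le_nhds (ball_mem_nhds y one_pos))]
      with w a1 a2
    rw [mem_ball_iff_norm] at a2
    exact hK.box a1 (by linarith [norm_sub_norm_le w y]))
  have hν' : Tendsto (Psi K) U (𝓝 ν) := hν
  have e1 : ν.1 = y := tendsto_nhds_unique ((continuous_fst.tendsto _).comp hν')
    (hU.trans nhdsWithin_le_nhds)
  refine ⟨⟨ν, e1 ▸ hy, mem_closure_of_tendsto hν' ?_⟩, e1⟩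
  filter_upwards [hU self_mem_nhdsWithin] with w hw using mem_image_of_mem _ hw

theorem NS.zero_closure (hK : NS K) : (0 : ℂ) ∈ closure (K ∪ Ray)ᶜ := by
  have h : Tendsto (fun s : ℝ => (s : ℂ) * I) (𝓝[>] 0) (𝓝 0) := by
    have : Continuous fun s : ℝ => (s : ℂ) * I := by fun_prop
    simpa using (this.tendsto 0).mono_left nhdsWithin_le_nhds
  refine mem_closure_of_tendsto h ?_
  filter_upwards [self_mem_nhdsWithin] with s hs e
  rcases e with e | e
  · have := hK.eq_zero e (by simp)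
    exact hs.ne' (by simpa using this)
  · exact hs.ne' (by simpa using e.2)

theorem NS.range_pj (hK : NS K) : range (pj : Z K → ℂ) = frontier K := by
  rw [hK.cpt.isClosed.frontier_eq, sdiff_eq, ← closure_compl]
  refine Subset.antisymm (range_subset_iff.2 fun ν => ⟨pj_mem ν, mem_closure_of_tendsto (fl_le ν)
    ((fl_V ν).mono fun w hw e => hw (Or.inl e))⟩) fun y hy => hK.exists_pj hy.1 ?_
  by_cases h0 : y = 0
  · exact h0 ▸ hK.zero_closure
  · rw [compl_union, inter_comm]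
    exact isClosed_Ray.isOpen_compl.inter_closure ⟨hK.not_ray hy.1 h0, hy.2⟩

theorem NS.connZ (hK : NS K) : ConnectedSpace (Z K) := by
  obtain ⟨ν, -⟩ := hK.exists_pj hK.zero hK.zero_closure
  exact isConnected_iff_connectedSpace.1 ⟨⟨ν.1, ν.2⟩, hK.ZS_cont.2⟩

end Pool.Agent.Lib.BD5
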